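import Mathlib

/-!
# The circle average of `log (A - 2 Re (b e^{iφ}))`
-/

open MeasureTheory Set Filter Topology Function
open scoped ENNReal Real

namespace Pool.Agent.H42.Cap

/-- Factorisation `A - 2 Re (b e^{iφ}) = ‖β e^{iφ} - a‖²`. -/
theorem circ_factor {A : ℝ} (hA : 0 < A) {b : ℂ} (hb : 2 * ‖b‖ ≤ A) (hb0 : b ≠ 0) :
    ∃ (β : ℝ) (a : ℂ), 0 < β ∧ β ≤ ‖a‖ ∧ ‖a‖ ^ 2 = (A + √(A ^ 2 - 4 * ‖b‖ ^ 2)) / 2 ∧
      ∀ φ : ℝ, A - 2 * (b * Complex.exp (φ * Complex.I)).re = ‖circleMap 0 β φ - a‖ ^ 2 := by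
  have hbn : 0 < ‖b‖ := norm_pos_iff.2 hb0
  set S : ℝ := √(A ^ 2 - 4 * ‖b‖ ^ 2) with hS
  have hS0 : 0 ≤ S := Real.sqrt_nonneg _
  have hin : 0 ≤ A ^ 2 - 4 * ‖b‖ ^ 2 := by nlinarith
  have hS2 : S ^ 2 = A ^ 2 - 4 * ‖b‖ ^ 2 := Real.sq_sqrt hin
  have hSA : S < A := by nlinarith
  set α : ℝ := √((A + S) / 2) with hα
  set β : ℝ := √((A - S) / 2) with hβ
  have hα2 : α ^ 2 = (A + S) / 2 := Real.sq_sqrt (by linarith)
  have hβ2 : β ^ 2 = (A - S) / 2 := Real.sq_sqrt (by linarith)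
  have hαp : 0 < α := Real.sqrt_pos.2 (by linarith)
  have hβp : 0 < β := Real.sqrt_pos.2 (by linarith)
  have hβα : β ≤ α := Real.sqrt_le_sqrt (by linarith)
  have hprod : α * β = ‖b‖ := by
    have h1 : (α * β) ^ 2 = ‖b‖ ^ 2 := by
      rw [mul_pow, hα2, hβ2]; nlinarith
    have h2 : 0 ≤ α * β := by positivity
    nlinarith [sq_nonneg (α * β - ‖b‖), sq_nonneg (α * β + ‖b‖), pow_le_pow_left₀ h2 (le_refl (α*β)) 2,
      abs_eq_abs.1 ((sq_eq_sq_iff_abs_eq_abs _ _).1 h1) |>.elim (fun h => h.le) (fun h => by linarith)]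
  -- `a = α * conj(b) / ‖b‖`
  refine ⟨β, (α / ‖b‖ : ℝ) * (starRingEnd ℂ) b, hβp, ?_, ?_, ?_⟩
  · rw [norm_mul, Complex.norm_real, Complex.norm_conj, Real.norm_of_nonneg (by positivity),
      div_mul_cancel₀ _ hbn.ne']
    exact hβα
  · rw [norm_mul, Complex.norm_real, Complex.norm_conj, Real.norm_of_nonneg (by positivity),
      div_mul_cancel₀ _ hbn.ne', hα2]
  · intro φ
    rw [circleMap, zero_add]
    have hnorm : ∀ z w : ℂ, ‖z - w‖ ^ 2 = ‖z‖ ^ 2 + ‖w‖ ^ 2 - 2 * (z * (starRingEnd ℂ) w).re := by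
      intro z w
      rw [← Complex.normSq_eq_norm_sq, ← Complex.normSq_eq_norm_sq, ← Complex.normSq_eq_norm_sq,
        Complex.normSq_sub]
    rw [hnorm]
    have h1 : ‖(β : ℂ) * Complex.exp (φ * Complex.I)‖ ^ 2 = β ^ 2 := by
      rw [norm_mul, Complex.norm_exp_ofReal_mul_I, mul_one, Complex.norm_real,
        Real.norm_of_nonneg hβp.le]
    have h2 : ‖((α / ‖b‖ : ℝ) : ℂ) * (starRingEnd ℂ) b‖ ^ 2 = α ^ 2 := by
      rw [norm_mul, Complex.norm_real, Complex.norm_conj, Real.norm_of_nonneg (by positivity),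
        div_mul_cancel₀ _ hbn.ne']
    have h3 : ((β : ℂ) * Complex.exp (φ * Complex.I) *
        (starRingEnd ℂ) (((α / ‖b‖ : ℝ) : ℂ) * (starRingEnd ℂ) b)).re =
        (b * Complex.exp (φ * Complex.I)).re := by
      have h4 : (β : ℂ) * Complex.exp (φ * Complex.I) *
        (starRingEnd ℂ) (((α / ‖b‖ : ℝ) : ℂ) * (starRingEnd ℂ) b) =
          ((β * (α / ‖b‖) : ℝ) : ℂ) * (b * Complex.exp (φ * Complex.I)) := by
        rw [map_mul, Complex.conj_conj, Complex.conj_ofReal]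
        push_cast
        ring
      have h5 : β * (α / ‖b‖) = 1 := by
        rw [← mul_div_assoc, mul_comm, hprod, div_self hbn.ne']
      rw [h4, h5]
      simp
    rw [h1, h2, h3, hα2, hβ2]
    ring

/-- The circle average of the logarithm. -/
theorem circ_avg {A : ℝ} (hA : 0 < A) {b : ℂ} (hb : 2 * ‖b‖ ≤ A) :
    IntervalIntegrable (fun φ : ℝ => Real.log (A - 2 * (b * Complex.exp (φ * Complex.I)).re))
      volume 0 (2 * π) ∧
    ∫ φ in (0:ℝ)..(2 * π), Real.log (A - 2 * (b * Complex.exp (φ * Complex.I)).re) =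
      2 * π * Real.log ((A + √(A ^ 2 - 4 * ‖b‖ ^ 2)) / 2) := by
  rcases eq_or_ne b 0 with rfl | hb0
  · have h1 : √(A ^ 2 - 4 * ‖(0:ℂ)‖ ^ 2) = A := by
      rw [norm_zero]
      have : A ^ 2 - 4 * 0 ^ 2 = A ^ 2 := by ring
      rw [this, Real.sqrt_sq hA.le]
    rw [h1]
    have h2 : (A + A) / 2 = A := by ring
    rw [h2]
    simp only [zero_mul, Complex.zero_re, mul_zero, sub_zero]
    refine ⟨intervalIntegrable_const, ?_⟩
    rw [intervalIntegral.integral_const, sub_zero, smul_eq_mul]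
  · obtain ⟨β, a, hβ, hβa, ha, hfac⟩ := circ_factor hA hb hb0
    have h1 : (fun φ : ℝ => Real.log (A - 2 * (b * Complex.exp (φ * Complex.I)).re)) =
        fun φ : ℝ => 2 * Real.log ‖circleMap 0 β φ - a‖ := by
      funext φ
      rw [hfac φ, Real.log_pow]
      push_cast
      ring
    have hint : CircleIntegrable (fun z : ℂ => Real.log ‖z - a‖) 0 β :=
      circleIntegrable_log_norm_sub_const β
    have hint' : IntervalIntegrable (fun φ : ℝ => Real.log ‖circleMap 0 β φ - a‖) volume 0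
        (2 * π) := hint
    rw [h1]
    refine ⟨hint'.const_mul 2, ?_⟩
    rw [intervalIntegral.integral_const_mul]
    have h2 := circleAverage_log_norm_sub_const_eq_log_radius_add_posLog (c := 0) (a := a) hβ.ne'
    rw [Real.circleAverage_def] at h2
    have h3 : ∫ θ in (0:ℝ)..2 * π, Real.log ‖circleMap 0 β θ - a‖ =
        2 * π * (Real.log β + Real.posLog (β⁻¹ * ‖0 - a‖)) := by
      rw [← h2, smul_eq_mul, ← mul_assoc, mul_inv_cancel₀ (by positivity), one_mul]
    rw [h3]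
    have han : 0 < ‖a‖ := lt_of_lt_of_le hβ hβa
    have h4 : Real.log β + Real.posLog (β⁻¹ * ‖0 - a‖) = Real.log ‖a‖ := by
      rw [zero_sub, norm_neg, Real.posLog_eq_log]
      · rw [Real.log_mul (by positivity) han.ne', Real.log_inv]
        ring
      · rw [abs_of_nonneg (by positivity), ← div_eq_inv_mul, one_le_div hβ]
        exact hβa
    rw [h4, ← ha, Real.log_pow]
    push_cast
    ring

/-- Integral of the normalised logarithmic kernel over a circle. -/
theorem circ_lintegral {A : ℝ} (hA : 0 < A) {b : ℂ} (hb : 2 * ‖b‖ ≤ A)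
    (h4 : A + 2 * ‖b‖ ≤ 4) :
    ∫⁻ φ in Ioc (0:ℝ) (2 * π),
      ENNReal.ofReal (Real.log 2 - 1 / 2 * Real.log (A - 2 * (b * Complex.exp (φ * Complex.I)).re)) =
    ENNReal.ofReal (2 * π) *
      ENNReal.ofReal (Real.log 2 - 1 / 2 * Real.log ((A + √(A ^ 2 - 4 * ‖b‖ ^ 2)) / 2)) := by
  obtain ⟨hint, hval⟩ := circ_avg hA hb
  have h2pi : (0:ℝ) ≤ 2 * π := by positivity
  have hnn : ∀ φ : ℝ,
      0 ≤ Real.log 2 - 1 / 2 * Real.log (A - 2 * (b * Complex.exp (φ * Complex.I)).re) := by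
    intro φ
    have h1 : |(b * Complex.exp (φ * Complex.I)).re| ≤ ‖b‖ := by
      refine (Complex.abs_re_le_norm _).trans ?_
      rw [norm_mul, Complex.norm_exp_ofReal_mul_I, mul_one]
    have h2 := abs_le.1 h1
    have h3 : 0 ≤ A - 2 * (b * Complex.exp (φ * Complex.I)).re := by linarith [h2.2]
    have h5 : A - 2 * (b * Complex.exp (φ * Complex.I)).re ≤ 4 := by linarith [h2.1]
    have h6 : Real.log 4 = 2 * Real.log 2 := by
      have : (4:ℝ) = 2 ^ 2 := by norm_num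
      rw [this, Real.log_pow]; push_cast; ring
    have h7 : Real.log (A - 2 * (b * Complex.exp (φ * Complex.I)).re) ≤ 2 * Real.log 2 := by
      rw [← h6]
      rcases h3.eq_or_lt with h0 | h0
      · rw [← h0, Real.log_zero]; exact Real.log_nonneg (by norm_num)
      · exact Real.log_le_log h0 h5
    linarith
  have hint2 : IntervalIntegrable (fun φ : ℝ => Real.log 2 -
      1 / 2 * Real.log (A - 2 * (b * Complex.exp (φ * Complex.I)).re)) volume 0 (2 * π) :=
    intervalIntegrable_const.sub (hint.const_mul _)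
  rw [← ofReal_integral_eq_lintegral_ofReal
    ((intervalIntegrable_iff_integrableOn_Ioc_of_le h2pi).1 hint2) (Eventually.of_forall hnn),
    ← ENNReal.ofReal_mul h2pi]
  congr 1
  rw [← intervalIntegral.integral_of_le h2pi, intervalIntegral.integral_sub
    intervalIntegrable_const (hint.const_mul _), intervalIntegral.integral_const_mul, hval,
    intervalIntegral.integral_const, sub_zero, smul_eq_mul]
  ring

end Pool.Agent.H42.Cap
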