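import Pool.Agent.H42.CapSphere
import Pool.Agent.H42.CapCircle

/-!
# The logarithmic energy of measures on the unit ball of `ℝ × ℂ` and `ℂ × ℂ`
-/

open MeasureTheory Set Filter Topology Function
open scoped ENNReal Real

namespace Pool.Agent.H42.Cap

section Energy

variable {H : Type*} [NormedAddCommGroup H] [InnerProductSpace ℝ H] [FiniteDimensional ℝ H]
  [MeasurableSpace H] [BorelSpace H]

/-- If `σ` is a probability measure on the unit ball whose potential is at least `c` on the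
ball and at most `c` almost everywhere, every probability measure on the ball has energy `≥ c`. -/
theorem energy_ge (σ : Measure H) [IsProbabilityMeasure σ] {c : ℝ≥0∞} (hc : c ≠ ∞)
    (hσ : ∀ᵐ x ∂σ, ‖x‖ = 1)
    (hge : ∀ x : H, ‖x‖ ≤ 1 → c ≤ ∫⁻ y, lk x y ∂σ)
    (hle : ∀ x : H, ‖x‖ = 1 → ∫⁻ y, lk x y ∂σ ≤ c)
    (μ : Measure H) [IsProbabilityMeasure μ] (hμ : ∀ᵐ x ∂μ, ‖x‖ ≤ 1) :
    c ≤ ∫⁻ x, ∫⁻ y, lk x y ∂μ ∂μ := by
  have hB : ∀ x ∈ {x : H | ‖x‖ ≤ 1}, ∀ y ∈ {x : H | ‖x‖ ≤ 1}, ‖x - y‖ ≤ 2 := by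
    intro x hx y hy
    have h1 : ‖x‖ ≤ 1 := hx
    have h2 : ‖y‖ ≤ 1 := hy
    linarith [norm_sub_le x y]
  have h1 := lk_pd μ σ hB hμ (hσ.mono fun x hx => le_of_eq hx)
  have h2 : c ≤ ∫⁻ x, ∫⁻ y, lk x y ∂σ ∂μ := by
    calc c = ∫⁻ _, c ∂μ := by rw [lintegral_const, measure_univ, mul_one]
      _ ≤ _ := lintegral_mono_ae (hμ.mono fun x hx => hge x hx)
  have h3 : ∫⁻ x, ∫⁻ y, lk x y ∂σ ∂σ ≤ c := by
    calc _ ≤ ∫⁻ _, c ∂σ := lintegral_mono_ae (hσ.mono fun x hx => hle x hx)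
      _ = c := by rw [lintegral_const, measure_univ, mul_one]
  have h4 : c + c ≤ ∫⁻ x, ∫⁻ y, lk x y ∂μ ∂μ + c := by
    calc c + c = 2 * c := (two_mul c).symm
      _ ≤ 2 * ∫⁻ x, ∫⁻ y, lk x y ∂σ ∂μ := mul_le_mul' le_rfl h2
      _ ≤ _ := h1
      _ ≤ _ := add_le_add le_rfl h3
  exact (ENNReal.add_le_add_iff_right hc).1 h4

end Energy

section SphereMeasure

variable {F : Type*} [NormedAddCommGroup F] [InnerProductSpace ℝ F] [FiniteDimensional ℝ F]
  [MeasurableSpace F] [BorelSpace F]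

/-- Normalisation of a vector. -/
noncomputable def nm (w : HH F) : HH F := ‖w‖⁻¹ • w

theorem measurable_nm : Measurable (nm (F := F)) := by
  unfold nm
  fun_prop

omit [FiniteDimensional ℝ F] [MeasurableSpace F] [BorelSpace F] in
theorem norm_nm {w : HH F} (hw : w ≠ 0) : ‖nm w‖ = 1 := by
  unfold nm
  rw [norm_smul, norm_inv, norm_norm, inv_mul_cancel₀ (norm_ne_zero_iff.2 hw)]

omit [FiniteDimensional ℝ F] [MeasurableSpace F] [BorelSpace F] in
theorem nm_comm (e : HH F ≃ₗᵢ[ℝ] HH F) (w : HH F) : nm (e w) = e (nm w) := by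
  unfold nm
  rw [e.norm_map, map_smul]

/-- The uniform probability measure on the unit sphere. -/
noncomputable def sph (F : Type*) [NormedAddCommGroup F] [InnerProductSpace ℝ F]
    [FiniteDimensional ℝ F] [MeasurableSpace F] [BorelSpace F] : Measure (HH F) :=
  (bm F univ)⁻¹ • (bm F).map nm

instance : IsProbabilityMeasure (sph F) := ⟨by
  unfold sph
  rw [Measure.smul_apply, Measure.map_apply measurable_nm MeasurableSet.univ, preimage_univ,
    smul_eq_mul, ENNReal.inv_mul_cancel bm_univ_pos bm_univ_ne_top]⟩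

theorem bm_ae_ne : ∀ᵐ w ∂(bm F), w ≠ 0 := by
  unfold bm
  refine ae_restrict_of_ae ?_
  have hn : Nontrivial (HH F) := by
    refine ⟨⟨WithLp.toLp 2 ((0 : F), (0 : ℂ)), WithLp.toLp 2 ((0 : F), (1 : ℂ)), ?_⟩⟩
    intro h
    have h1 : (WithLp.toLp 2 ((0 : F), (0 : ℂ))).snd = (WithLp.toLp 2 ((0 : F), (1 : ℂ))).snd := by
      rw [h]
    exact zero_ne_one h1
  have : NullSingletonClass (volume : Measure (HH F)) := inferInstance
  rw [ae_iff]
  simp

theorem sph_ae : ∀ᵐ x ∂(sph F), ‖x‖ = 1 := by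
  unfold sph
  refine Measure.ae_smul_measure ?_ _
  rw [ae_map_iff measurable_nm.aemeasurable (measurableSet_eq_fun (by fun_prop) measurable_const)]
  exact bm_ae_ne.mono fun w hw => norm_nm hw

theorem bm_lintegral_isom (e : HH F ≃ₗᵢ[ℝ] HH F) {f : HH F → ℝ≥0∞} (hf : Measurable f) :
    ∫⁻ w, f (e w) ∂(bm F) = ∫⁻ w, f w ∂(bm F) := by
  have h1 : MeasurePreserving e (bm F) (bm F) := by
    have h2 := (LinearIsometryEquiv.measurePreserving e).restrict_preimage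
      (s := Metric.ball (0 : HH F) 1) measurableSet_ball
    have h3 : e ⁻¹' Metric.ball (0 : HH F) 1 = Metric.ball 0 1 := by
      ext w
      simp only [mem_preimage, Metric.mem_ball, dist_zero_right, e.norm_map]
    rw [h3] at h2
    exact h2
  exact h1.lintegral_comp hf

/-- The potential of the uniform measure. -/
theorem pot_eq (x : HH F) :
    ∫⁻ y, lk x y ∂(sph F) = (bm F univ)⁻¹ * ∫⁻ w, lk x (nm w) ∂(bm F) := by
  unfold sph
  have hm : Measurable (fun y : HH F => lk x y) := measurable_lk.of_uncurry_left (x := x)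
  rw [lintegral_smul_measure, smul_eq_mul, lintegral_map hm measurable_nm]

omit [FiniteDimensional ℝ F] [MeasurableSpace F] [BorelSpace F] in
theorem lk_isom (e : HH F ≃ₗᵢ[ℝ] HH F) (x y : HH F) : lk (e x) (e y) = lk x y := by
  unfold lk
  by_cases h : x = y
  · rw [if_pos h, if_pos (by rw [h])]
  · rw [if_neg h, if_neg (fun h' => h (e.injective h')), ← map_sub, e.norm_map]

theorem pot_isom (e : HH F ≃ₗᵢ[ℝ] HH F) (x : HH F) :
    ∫⁻ y, lk (e x) y ∂(sph F) = ∫⁻ y, lk x y ∂(sph F) := by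
  rw [pot_eq, pot_eq]
  congr 1
  have hm : Measurable (fun w : HH F => lk (e x) (nm w)) :=
    (measurable_lk.of_uncurry_left (x := e x)).comp measurable_nm
  rw [← bm_lintegral_isom e hm]
  refine lintegral_congr fun w => ?_
  rw [nm_comm, lk_isom]

theorem pot_congr {x y : HH F} (h : ‖x‖ = ‖y‖) :
    ∫⁻ z, lk x z ∂(sph F) = ∫⁻ z, lk y z ∂(sph F) := by
  have h1 := Submodule.reflection_sub h
  rw [← h1, pot_isom]

/-- The potential at the centre. -/
theorem pot_zero : ∫⁻ z, lk (0 : HH F) z ∂(sph F) = ENNReal.ofReal (Real.log 2) := by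
  have h1 : ∫⁻ z, lk (0 : HH F) z ∂(sph F) = ∫⁻ _, ENNReal.ofReal (Real.log 2) ∂(sph F) := by
    refine lintegral_congr_ae (sph_ae.mono fun z hz => ?_)
    have hz0 : (0 : HH F) ≠ z := by
      rintro rfl
      rw [norm_zero] at hz
      exact zero_ne_one hz
    simp only [lk]
    rw [if_neg hz0, zero_sub, norm_neg, hz, div_one]
  rw [h1, lintegral_const, measure_univ, mul_one]

end SphereMeasure

/-- Fundamental theorem of calculus for nonnegative derivatives, as a lower integral. -/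
theorem lint_of_deriv {a b : ℝ} (hab : a ≤ b) {G g : ℝ → ℝ} (hc : ContinuousOn G (Icc a b))
    (hd : ∀ x ∈ Ioo a b, HasDerivAt G (g x) x) (hp : ∀ x ∈ Ioo a b, 0 ≤ g x) :
    ∫⁻ x in Ioc a b, ENNReal.ofReal (g x) = ENNReal.ofReal (G b - G a) ∧ 0 ≤ G b - G a := by
  have hint : IntegrableOn g (Ioc a b) :=
    intervalIntegral.integrableOn_deriv_of_nonneg hc hd hp
  have hint2 : IntervalIntegrable g volume a b :=
    (intervalIntegrable_iff_integrableOn_Ioc_of_le hab).2 hint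
  have hval := intervalIntegral.integral_eq_sub_of_hasDerivAt_of_le hab hc hd hint2
  rw [intervalIntegral.integral_of_le hab] at hval
  have h1 : ∫⁻ x in Ioc a b, ENNReal.ofReal (g x) = ∫⁻ x in Ioo a b, ENNReal.ofReal (g x) :=
    setLIntegral_congr Ioo_ae_eq_Ioc.symm
  have h2 : ∫ x in Ioc a b, g x = ∫ x in Ioo a b, g x :=
    setIntegral_congr_set Ioo_ae_eq_Ioc.symm
  constructor
  · rw [h1, ← hval, h2, ofReal_integral_eq_lintegral_ofReal (hint.mono_set Ioo_subset_Ioc_self)]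
    rw [EventuallyLE, ae_restrict_iff' measurableSet_Ioo]
    exact Eventually.of_forall fun x hx => hp x hx
  · rw [← hval, h2]
    exact setIntegral_nonneg measurableSet_Ioo hp

section DimThree

/-- The modulus of the normalised first coordinate. -/
noncomputable def T3 (w : HH ℝ) : ℝ := ‖w.fst‖ / ‖w‖

theorem measurable_T3 : Measurable T3 := by
  unfold T3
  fun_prop

theorem law_T3 : (bm ℝ).map T3 = bm ℝ univ • volume.restrict (Ioc (0:ℝ) 1) := by
  refine law_of_cdf _ measurable_T3 (fun w => ?_) fun c hc hc1 => ?_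
  · unfold T3
    exact div_le_one_of_le₀ (hh_fst_le w) (norm_nonneg _)
  · have h1 : {w : HH ℝ | T3 w ≤ c} = {w | ‖w.fst‖ ^ 2 ≤ c ^ 2 * ‖w‖ ^ 2} := by
      ext w
      simp only [mem_ofPred_eq, T3]
      rcases eq_or_ne w 0 with rfl | hw
      · simp [hc.le]
      · rw [div_le_iff₀ (norm_pos_iff.2 hw), ← mul_pow,
          sq_le_sq₀ (norm_nonneg _) (by positivity)]
    rw [h1, bm_cone (by positivity) (pow_le_one₀ hc.le hc1), Real.sqrt_sq hc.le]
    simp

theorem ae_T3_ne : ∀ᵐ w ∂(bm ℝ), T3 w ≠ 1 := by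
  have h1 : (bm ℝ).map T3 {1} = 0 := by
    rw [law_T3, Measure.smul_apply]
    simp
  rw [Measure.map_apply measurable_T3 (measurableSet_singleton _)] at h1
  rw [ae_iff]
  have h2 : {a : HH ℝ | ¬ T3 a ≠ 1} = T3 ⁻¹' {1} := by
    ext w
    simp
  rw [h2]
  exact h1

/-- The potential as a one-dimensional integral. -/
theorem pot3_eq (r : ℝ) :
    ∫⁻ z, lk (WithLp.toLp 2 (r, (0:ℂ)) : HH ℝ) z ∂(sph ℝ) =
      2⁻¹ * ((∫⁻ t in Ioc (0:ℝ) 1,
          ENNReal.ofReal (Real.log 2 - 1/2 * Real.log (1 + r^2 - 2*r*t))) +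
        (∫⁻ t in Ioc (0:ℝ) 1,
          ENNReal.ofReal (Real.log 2 - 1/2 * Real.log (1 + r^2 + 2*r*t)))) := by
  set x₀ : HH ℝ := WithLp.toLp 2 (r, (0:ℂ)) with hx₀
  set g : ℝ → ℝ≥0∞ := fun t => ENNReal.ofReal (Real.log 2 - 1/2 * Real.log (1 + r^2 - 2*r*t))
    with hg
  have hgm : Measurable g := by fun_prop
  have h1 : ∀ᵐ w ∂(bm ℝ), lk x₀ (nm w) = g (w.fst / ‖w‖) := by
    filter_upwards [bm_ae_ne (F := ℝ), ae_T3_ne] with w hw hT
    have hwn : 0 < ‖w‖ := norm_pos_iff.2 hw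
    have hfst : (nm w).fst = ‖w‖⁻¹ * w.fst := by
      unfold nm
      rw [WithLp.smul_fst, smul_eq_mul]
    have hsnd : (nm w).snd = (‖w‖⁻¹ : ℝ) • w.snd := by
      unfold nm
      rw [WithLp.smul_snd]
    have hne : x₀ ≠ nm w := by
      intro h
      apply hT
      have h2 : (nm w).snd = 0 := by
        rw [← h, hx₀]
        rfl
      rw [hsnd, smul_eq_zero] at h2
      have h3 : w.snd = 0 := by
        rcases h2 with h2 | h2
        · exact absurd h2 (inv_ne_zero hwn.ne')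
        · exact h2
      have h4 := hh_norm_sq w
      rw [h3, norm_zero] at h4
      have h5 : ‖w.fst‖ = ‖w‖ := by
        have : ‖w.fst‖ ^ 2 = ‖w‖ ^ 2 := by rw [h4]; ring
        exact (sq_eq_sq₀ (norm_nonneg _) (norm_nonneg _)).1 this
      unfold T3
      rw [h5, div_self hwn.ne']
    have hnorm : ‖x₀ - nm w‖ ^ 2 = 1 + r ^ 2 - 2 * r * (w.fst / ‖w‖) := by
      have h2 := hh_norm_sq (x₀ - nm w)
      have h3 : (x₀ - nm w).fst = r - ‖w‖⁻¹ * w.fst := by
        rw [WithLp.sub_fst, hfst, hx₀]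
        rfl
      have h4 : (x₀ - nm w).snd = - ((‖w‖⁻¹ : ℝ) • w.snd) := by
        rw [WithLp.sub_snd, hsnd]
        simp [hx₀]
      rw [h3, h4, norm_neg, norm_smul, Real.norm_eq_abs, sq_abs, mul_pow, norm_inv, norm_norm] at h2
      have h5 := hh_norm_sq w
      have h6 : ‖w.snd‖ ^ 2 = ‖w‖ ^ 2 - w.fst ^ 2 := by
        rw [Real.norm_eq_abs, sq_abs] at h5
        linarith
      rw [h2, h6]
      field_simp
      ring
    have hpos : 0 < ‖x₀ - nm w‖ := norm_pos_iff.2 (sub_ne_zero.2 hne)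
    simp only [lk]
    rw [if_neg hne, hg]
    simp only
    congr 1
    rw [← hnorm, Real.log_pow, Real.log_div (by norm_num) hpos.ne']
    push_cast
    ring
  have h2 : ∫⁻ w, lk x₀ (nm w) ∂(bm ℝ) = ∫⁻ w, g (w.fst / ‖w‖) ∂(bm ℝ) := lintegral_congr_ae h1
  have hm1 : Measurable (fun w : HH ℝ => g (w.fst / ‖w‖)) := hgm.comp (by fun_prop)
  have hm2 : Measurable (fun w : HH ℝ => g (-(w.fst / ‖w‖))) := hgm.comp (by fun_prop)
  have h3 : ∫⁻ w, g (w.fst / ‖w‖) ∂(bm ℝ) = ∫⁻ w, g (-(w.fst / ‖w‖)) ∂(bm ℝ) := by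
    have h4 := bm_lintegral_isom (F := ℝ)
      (LinearIsometryEquiv.withLpProdCongr 2 (LinearIsometryEquiv.neg ℝ)
        (LinearIsometryEquiv.refl ℝ ℂ)) hm1
    rw [← h4]
    refine lintegral_congr fun w => ?_
    rw [LinearIsometryEquiv.norm_map]
    congr 1
    simp [neg_div]
  have h5 : 2 * ∫⁻ w, g (w.fst / ‖w‖) ∂(bm ℝ) = ∫⁻ w, (g (T3 w) + g (-T3 w)) ∂(bm ℝ) := by
    rw [two_mul]
    nth_rw 2 [h3]
    rw [← lintegral_add_left hm1]
    refine lintegral_congr fun w => ?_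
    unfold T3
    rw [Real.norm_eq_abs]
    rcases le_or_gt 0 w.fst with h | h
    · rw [abs_of_nonneg h]
    · rw [abs_of_neg h, neg_div, neg_neg, add_comm]
  have h6 : ∫⁻ w, (g (T3 w) + g (-T3 w)) ∂(bm ℝ) =
      bm ℝ univ * ∫⁻ t in Ioc (0:ℝ) 1, (g t + g (-t)) := by
    have hm3 : Measurable (fun t => g t + g (-t)) := hgm.add (hgm.comp measurable_neg)
    rw [← lintegral_map hm3 measurable_T3, law_T3, lintegral_smul_measure, smul_eq_mul]
  rw [pot_eq, h2]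
  have h7 : ∫⁻ w, g (w.fst / ‖w‖) ∂(bm ℝ) =
      2⁻¹ * (bm ℝ univ * ∫⁻ t in Ioc (0:ℝ) 1, (g t + g (-t))) := by
    rw [← h6, ← h5, ← mul_assoc, ENNReal.inv_mul_cancel (by norm_num) (by norm_num), one_mul]
  rw [h7, lintegral_add_left hgm]
  have h8 : ∀ t : ℝ, g (-t) = ENNReal.ofReal (Real.log 2 - 1/2 * Real.log (1 + r^2 + 2*r*t)) := by
    intro t
    rw [hg]
    simp only
    congr 4
    ring
  simp_rw [h8]
  rw [hg, ← mul_assoc, ← mul_assoc, mul_comm (bm ℝ univ)⁻¹, mul_assoc (2⁻¹ : ℝ≥0∞),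
    ENNReal.inv_mul_cancel bm_univ_pos bm_univ_ne_top, mul_one]

/-- The explicit potential. -/
theorem pot3_val {r : ℝ} (hr : 0 < r) (hr1 : r ≤ 1) :
    ∫⁻ z, lk (WithLp.toLp 2 (r, (0:ℂ)) : HH ℝ) z ∂(sph ℝ) =
      ENNReal.ofReal (Real.log 2 + 1/2 -
        ((1+r)^2 * Real.log (1+r) - (1-r)^2 * Real.log (1-r)) / (4*r)) := by
  have hlog4 : Real.log 4 = 2 * Real.log 2 := by
    have : (4:ℝ) = 2 ^ 2 := by norm_num
    rw [this, Real.log_pow]; push_cast; ring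
  have e1 : (∫⁻ t in Ioc (0:ℝ) 1,
      ENNReal.ofReal (Real.log 2 - 1/2 * Real.log (1 + r^2 - 2*r*t))) =
      ENNReal.ofReal ((1 * Real.log 2 + (1/(4*r)) * ((1 + r^2 - 2*r*1) *
        Real.log (1 + r^2 - 2*r*1) - (1 + r^2 - 2*r*1))) -
        (0 * Real.log 2 + (1/(4*r)) * ((1 + r^2 - 2*r*0) *
        Real.log (1 + r^2 - 2*r*0) - (1 + r^2 - 2*r*0)))) ∧
      0 ≤ ((1 * Real.log 2 + (1/(4*r)) * ((1 + r^2 - 2*r*1) *
        Real.log (1 + r^2 - 2*r*1) - (1 + r^2 - 2*r*1))) -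
        (0 * Real.log 2 + (1/(4*r)) * ((1 + r^2 - 2*r*0) *
        Real.log (1 + r^2 - 2*r*0) - (1 + r^2 - 2*r*0)))) := by
    refine lint_of_deriv (G := fun t => t * Real.log 2 + (1/(4*r)) * ((1 + r^2 - 2*r*t) *
        Real.log (1 + r^2 - 2*r*t) - (1 + r^2 - 2*r*t))) zero_le_one ?_ ?_ ?_
    · have h1 : Continuous fun t : ℝ => (1 + r^2 - 2*r*t) * Real.log (1 + r^2 - 2*r*t) :=
        Real.continuous_mul_log.comp (by fun_prop : Continuous fun t : ℝ => 1 + r^2 - 2*r*t)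
      exact ((continuous_id.mul continuous_const).add
        (continuous_const.mul (h1.sub (by fun_prop)))).continuousOn
    · intro t ht
      have hu : 0 < 1 + r^2 - 2*r*t := by nlinarith [ht.2, sq_nonneg (1 - r)]
      have h1 : HasDerivAt (fun t : ℝ => 1 + r^2 - 2*r*t) (-(2*r)) t := by
        have := ((hasDerivAt_id t).const_mul (2*r)).const_sub (1 + r^2)
        simpa using this
      have h2 := h1.log hu.ne'
      have h3 := (((hasDerivAt_id t).mul_const (Real.log 2)).add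
        (((h1.mul h2).sub h1).const_mul (1/(4*r))))
      refine h3.congr_deriv ?_
      have h9 : (1 + r^2 - 2*r*t) * (-(2*r) / (1 + r^2 - 2*r*t)) = -(2*r) := by
        rw [mul_div_assoc', mul_div_cancel_left₀ _ hu.ne']
      rw [h9]
      field_simp
      ring
    · intro t ht
      have hu : 0 < 1 + r^2 - 2*r*t := by nlinarith [ht.2, sq_nonneg (1 - r)]
      have hu4 : 1 + r^2 - 2*r*t ≤ 4 := by nlinarith [ht.1, mul_pos hr ht.1]
      have := Real.log_le_log hu hu4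
      rw [hlog4] at this
      linarith
  have e2 : (∫⁻ t in Ioc (0:ℝ) 1,
      ENNReal.ofReal (Real.log 2 - 1/2 * Real.log (1 + r^2 + 2*r*t))) =
      ENNReal.ofReal ((1 * Real.log 2 - (1/(4*r)) * ((1 + r^2 + 2*r*1) *
        Real.log (1 + r^2 + 2*r*1) - (1 + r^2 + 2*r*1))) -
        (0 * Real.log 2 - (1/(4*r)) * ((1 + r^2 + 2*r*0) *
        Real.log (1 + r^2 + 2*r*0) - (1 + r^2 + 2*r*0)))) ∧
      0 ≤ ((1 * Real.log 2 - (1/(4*r)) * ((1 + r^2 + 2*r*1) *
        Real.log (1 + r^2 + 2*r*1) - (1 + r^2 + 2*r*1))) -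
        (0 * Real.log 2 - (1/(4*r)) * ((1 + r^2 + 2*r*0) *
        Real.log (1 + r^2 + 2*r*0) - (1 + r^2 + 2*r*0)))) := by
    refine lint_of_deriv (G := fun t => t * Real.log 2 - (1/(4*r)) * ((1 + r^2 + 2*r*t) *
        Real.log (1 + r^2 + 2*r*t) - (1 + r^2 + 2*r*t))) zero_le_one ?_ ?_ ?_
    · have h1 : Continuous fun t : ℝ => (1 + r^2 + 2*r*t) * Real.log (1 + r^2 + 2*r*t) :=
        Real.continuous_mul_log.comp (by fun_prop : Continuous fun t : ℝ => 1 + r^2 + 2*r*t)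
      exact ((continuous_id.mul continuous_const).sub
        (continuous_const.mul (h1.sub (by fun_prop)))).continuousOn
    · intro t ht
      have hu : 0 < 1 + r^2 + 2*r*t := by nlinarith [ht.1, mul_pos hr ht.1]
      have h1 : HasDerivAt (fun t : ℝ => 1 + r^2 + 2*r*t) (2*r) t := by
        have := ((hasDerivAt_id t).const_mul (2*r)).const_add (1 + r^2)
        simpa using this
      have h2 := h1.log hu.ne'
      have h3 := (((hasDerivAt_id t).mul_const (Real.log 2)).sub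
        (((h1.mul h2).sub h1).const_mul (1/(4*r))))
      refine h3.congr_deriv ?_
      have h9 : (1 + r^2 + 2*r*t) * (2*r / (1 + r^2 + 2*r*t)) = 2*r := by
        rw [mul_div_assoc', mul_div_cancel_left₀ _ hu.ne']
      rw [h9]
      field_simp
      ring
    · intro t ht
      have hu : 0 < 1 + r^2 + 2*r*t := by nlinarith [ht.1, mul_pos hr ht.1]
      have hu4 : 1 + r^2 + 2*r*t ≤ 4 := by nlinarith [ht.1, ht.2, mul_pos hr ht.1]
      have := Real.log_le_log hu hu4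
      rw [hlog4] at this
      linarith
  have a1 : 1 + r^2 - 2*r*1 = (1 - r)^2 := by ring
  have a2 : 1 + r^2 + 2*r*1 = (1 + r)^2 := by ring
  have a3 : 1 + r^2 - 2*r*0 = 1 + r^2 := by ring
  have a4 : 1 + r^2 + 2*r*0 = 1 + r^2 := by ring
  rw [a1, a3, Real.log_pow] at e1
  rw [a2, a4, Real.log_pow] at e2
  have h2 : (2⁻¹ : ℝ≥0∞) = ENNReal.ofReal (2⁻¹ : ℝ) := by
    rw [ENNReal.ofReal_inv_of_pos (by norm_num)]; simp
  rw [pot3_eq r, e1.1, e2.1, ← ENNReal.ofReal_add e1.2 e2.2, h2,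
    ← ENNReal.ofReal_mul (by norm_num)]
  congr 1
  push_cast
  field_simp
  ring

/-- The function `(1+r)² log (1+r) - (1-r)² log (1-r)` is below its chord. -/
theorem chord3 {r : ℝ} (hr : 0 ≤ r) (hr1 : r ≤ 1) :
    (1+r)^2 * Real.log (1+r) - (1-r)^2 * Real.log (1-r) ≤ 4 * r * Real.log 2 := by
  set f : ℝ → ℝ := fun r => (1+r) * ((1+r) * Real.log (1+r)) - (1-r) * ((1-r) * Real.log (1-r))
    with hf
  set p : ℝ → ℝ := fun r => (1+r) * Real.log (1+r) + (1-r) * Real.log (1-r) with hp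
  have hc1 : Continuous fun t : ℝ => (1+t) * Real.log (1+t) :=
    Real.continuous_mul_log.comp (by fun_prop : Continuous fun t : ℝ => 1 + t)
  have hc2 : Continuous fun t : ℝ => (1-t) * Real.log (1-t) :=
    Real.continuous_mul_log.comp (by fun_prop : Continuous fun t : ℝ => 1 - t)
  have hd1 : ∀ t ∈ Ioo (0:ℝ) 1, HasDerivAt (fun t : ℝ => Real.log (1+t)) (1/(1+t)) t := by
    intro t ht
    have h1 : HasDerivAt (fun t : ℝ => 1 + t) 1 t := (hasDerivAt_id t).const_add 1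
    exact h1.log (by linarith [ht.1])
  have hd2 : ∀ t ∈ Ioo (0:ℝ) 1, HasDerivAt (fun t : ℝ => Real.log (1-t)) (-1/(1-t)) t := by
    intro t ht
    have h1 : HasDerivAt (fun t : ℝ => 1 - t) (-1) t := (hasDerivAt_id t).const_sub 1
    exact h1.log (by linarith [ht.2])
  have hdp1 : ∀ t ∈ Ioo (0:ℝ) 1, HasDerivAt (fun t : ℝ => (1+t) * Real.log (1+t))
      (Real.log (1+t) + 1) t := by
    intro t ht
    have h1 : HasDerivAt (fun t : ℝ => 1 + t) 1 t := (hasDerivAt_id t).const_add 1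
    refine (h1.mul (hd1 t ht)).congr_deriv ?_
    have : (1:ℝ) + t ≠ 0 := by linarith [ht.1]
    field_simp
  have hdp2 : ∀ t ∈ Ioo (0:ℝ) 1, HasDerivAt (fun t : ℝ => (1-t) * Real.log (1-t))
      (-Real.log (1-t) - 1) t := by
    intro t ht
    have h1 : HasDerivAt (fun t : ℝ => 1 - t) (-1) t := (hasDerivAt_id t).const_sub 1
    refine (h1.mul (hd2 t ht)).congr_deriv ?_
    have : (1:ℝ) - t ≠ 0 := by linarith [ht.2]
    field_simp
    ring
  have hdp : ∀ t ∈ Ioo (0:ℝ) 1, HasDerivAt p (Real.log (1+t) - Real.log (1-t)) t := by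
    intro t ht
    refine ((hdp1 t ht).add (hdp2 t ht)).congr_deriv ?_
    ring
  have hdf : ∀ t ∈ Ioo (0:ℝ) 1, HasDerivAt f (2 * p t + 2) t := by
    intro t ht
    have h1 : HasDerivAt (fun t : ℝ => 1 + t) 1 t := (hasDerivAt_id t).const_add 1
    have h2 : HasDerivAt (fun t : ℝ => 1 - t) (-1) t := (hasDerivAt_id t).const_sub 1
    refine ((h1.mul (hdp1 t ht)).sub (h2.mul (hdp2 t ht))).congr_deriv ?_
    simp only [hp]
    ring
  have hpmono : MonotoneOn p (Ioo (0:ℝ) 1) := by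
    refine monotoneOn_of_deriv_nonneg (convex_Ioo 0 1) (hc1.add hc2).continuousOn ?_ ?_
    · rw [interior_Ioo]
      exact fun t ht => (hdp t ht).differentiableAt.differentiableWithinAt
    · rw [interior_Ioo]
      intro t ht
      rw [(hdp t ht).deriv]
      have := Real.log_le_log (x := 1 - t) (y := 1 + t) (by linarith [ht.2]) (by linarith [ht.1])
      linarith
  have hconv : ConvexOn ℝ (Icc (0:ℝ) 1) f := by
    refine MonotoneOn.convexOn_of_deriv (convex_Icc 0 1) ?_ ?_ ?_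
    · exact (((by fun_prop : Continuous fun t : ℝ => 1 + t).mul hc1).sub
        ((by fun_prop : Continuous fun t : ℝ => 1 - t).mul hc2)).continuousOn
    · rw [interior_Icc]
      exact fun t ht => (hdf t ht).differentiableAt.differentiableWithinAt
    · rw [interior_Icc]
      intro a ha b hb hab
      rw [(hdf a ha).deriv, (hdf b hb).deriv]
      linarith [hpmono ha hb hab]
  have h1 := hconv.2 (left_mem_Icc.2 zero_le_one) (right_mem_Icc.2 zero_le_one)
    (sub_nonneg.2 hr1) hr (sub_add_cancel 1 r)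
  simp only [smul_eq_mul, mul_zero, mul_one, zero_add, hf] at h1
  norm_num at h1
  linarith [h1]

theorem pot3_ge {x : HH ℝ} (hx : ‖x‖ ≤ 1) :
    ENNReal.ofReal (1/2) ≤ ∫⁻ z, lk x z ∂(sph ℝ) := by
  have hlog2 : (0.69:ℝ) < Real.log 2 := by have := Real.log_two_gt_d9; linarith
  rcases eq_or_ne x 0 with rfl | h0
  · rw [pot_zero]
    exact ENNReal.ofReal_le_ofReal (by linarith)
  · have hr : 0 < ‖x‖ := norm_pos_iff.2 h0
    have h1 : ‖x‖ = ‖(WithLp.toLp 2 (‖x‖, (0:ℂ)) : HH ℝ)‖ := by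
      rw [WithLp.norm_toLp_fst 2 ℝ ℂ ‖x‖]
      simp
    rw [pot_congr h1, pot3_val hr hx]
    refine ENNReal.ofReal_le_ofReal ?_
    have h2 := chord3 hr.le hx
    have h3 : ((1+‖x‖)^2 * Real.log (1+‖x‖) - (1-‖x‖)^2 * Real.log (1-‖x‖)) / (4*‖x‖) ≤
        Real.log 2 := by
      rw [div_le_iff₀ (by positivity)]
      linarith
    linarith

theorem pot3_le {x : HH ℝ} (hx : ‖x‖ = 1) :
    ∫⁻ z, lk x z ∂(sph ℝ) ≤ ENNReal.ofReal (1/2) := by
  have h1 : ‖x‖ = ‖(WithLp.toLp 2 ((1:ℝ), (0:ℂ)) : HH ℝ)‖ := by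
    rw [WithLp.norm_toLp_fst 2 ℝ ℂ (1:ℝ), hx]
    simp
  rw [pot_congr h1, pot3_val one_pos le_rfl]
  refine ENNReal.ofReal_le_ofReal ?_
  norm_num

/-- **Energy on the ball of `ℝ³`**: every probability measure on the closed unit ball has
normalised logarithmic energy at least `1/2`. -/
theorem energy3 (μ : Measure (HH ℝ)) [IsProbabilityMeasure μ] (hμ : ∀ᵐ x ∂μ, ‖x‖ ≤ 1) :
    ENNReal.ofReal (1/2) ≤ ∫⁻ x, ∫⁻ y, lk x y ∂μ ∂μ :=
  energy_ge (sph ℝ) ENNReal.ofReal_ne_top sph_ae (fun _ hx => pot3_ge hx)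
    (fun _ hx => pot3_le hx) μ hμ

end DimThree

section DimFour

/-- The squared modulus of the normalised first coordinate. -/
noncomputable def T4 (w : HH ℂ) : ℝ := ‖w.fst‖ ^ 2 / ‖w‖ ^ 2

theorem measurable_T4 : Measurable T4 := by
  unfold T4
  fun_prop

theorem law_T4 : (bm ℂ).map T4 = bm ℂ univ • volume.restrict (Ioc (0:ℝ) 1) := by
  refine law_of_cdf _ measurable_T4 (fun w => ?_) fun c hc hc1 => ?_
  · unfold T4
    exact div_le_one_of_le₀ (pow_le_pow_left₀ (norm_nonneg _) (hh_fst_le w) 2) (by positivity)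
  · have h1 : {w : HH ℂ | T4 w ≤ c} = {w | ‖w.fst‖ ^ 2 ≤ c * ‖w‖ ^ 2} := by
      ext w
      simp only [mem_ofPred_eq, T4]
      rcases eq_or_ne w 0 with rfl | hw
      · simp [hc.le]
      · have : 0 < ‖w‖ := norm_pos_iff.2 hw
        rw [div_le_iff₀ (by positivity)]
    rw [h1, bm_cone hc hc1, Complex.finrank_real_complex, Real.sq_sqrt hc.le]

theorem ae_T4_ne : ∀ᵐ w ∂(bm ℂ), T4 w ≠ 1 := by
  have h1 : (bm ℂ).map T4 {1} = 0 := by
    rw [law_T4, Measure.smul_apply]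
    simp
  rw [Measure.map_apply measurable_T4 (measurableSet_singleton _)] at h1
  rw [ae_iff]
  have h2 : {a : HH ℂ | ¬ T4 a ≠ 1} = T4 ⁻¹' {1} := by
    ext w
    simp
  rw [h2]
  exact h1

/-- The potential as a one-dimensional integral. -/
theorem pot4_eq {r : ℝ} (hr : 0 ≤ r) (hr1 : r ≤ 1) :
    ∫⁻ z, lk (WithLp.toLp 2 ((r:ℂ), (0:ℂ)) : HH ℂ) z ∂(sph ℂ) =
      ∫⁻ q in Ioc (0:ℝ) 1, ENNReal.ofReal (Real.log 2 -
        1/2 * Real.log (((1 + r^2) + √((1 + r^2)^2 - 4 * (r^2 * q))) / 2)) := by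
  set x₀ : HH ℂ := WithLp.toLp 2 ((r:ℂ), (0:ℂ)) with hx₀
  set g : ℂ → ℝ≥0∞ := fun z => ENNReal.ofReal (Real.log 2 - 1/2 * Real.log (1 + r^2 - 2*(r*z).re))
    with hg
  have hgm : Measurable g := by fun_prop
  have h1 : ∀ᵐ w ∂(bm ℂ), lk x₀ (nm w) = g (((‖w‖⁻¹ : ℝ) : ℂ) * w.fst) := by
    filter_upwards [bm_ae_ne (F := ℂ), ae_T4_ne] with w hw hT
    have hwn : 0 < ‖w‖ := norm_pos_iff.2 hw
    have hfst : (nm w).fst = ((‖w‖⁻¹ : ℝ) : ℂ) * w.fst := by
      unfold nm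
      rw [WithLp.smul_fst, Complex.real_smul]
    have hsnd : (nm w).snd = (‖w‖⁻¹ : ℝ) • w.snd := by
      unfold nm
      rw [WithLp.smul_snd]
    have hne : x₀ ≠ nm w := by
      intro h
      apply hT
      have h2 : (nm w).snd = 0 := by
        rw [← h, hx₀]
        rfl
      rw [hsnd, smul_eq_zero] at h2
      have h3 : w.snd = 0 := by
        rcases h2 with h2 | h2
        · exact absurd h2 (inv_ne_zero hwn.ne')
        · exact h2
      have h4 := hh_norm_sq w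
      rw [h3, norm_zero] at h4
      unfold T4
      have h5 : ‖w.fst‖ ^ 2 = ‖w‖ ^ 2 := by rw [h4]; ring
      rw [h5, div_self (by positivity)]
    have hnorm : ‖x₀ - nm w‖ ^ 2 = 1 + r ^ 2 - 2 * (r * (((‖w‖⁻¹ : ℝ) : ℂ) * w.fst)).re := by
      have h2 := hh_norm_sq (x₀ - nm w)
      have h3 : (x₀ - nm w).fst = (r:ℂ) - ((‖w‖⁻¹ : ℝ) : ℂ) * w.fst := by
        rw [WithLp.sub_fst, hfst, hx₀]
        rfl
      have h4 : (x₀ - nm w).snd = - ((‖w‖⁻¹ : ℝ) • w.snd) := by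
        rw [WithLp.sub_snd, hsnd]
        simp [hx₀]
      have h5 := hh_norm_sq w
      have h6 : ‖w.snd‖ ^ 2 = ‖w‖ ^ 2 - ‖w.fst‖ ^ 2 := by linarith
      have h7 : ‖(r:ℂ) - ((‖w‖⁻¹ : ℝ) : ℂ) * w.fst‖ ^ 2 = r ^ 2 + ‖w‖⁻¹ ^ 2 * ‖w.fst‖ ^ 2 -
          2 * (r * (((‖w‖⁻¹ : ℝ) : ℂ) * w.fst)).re := by
        rw [← Complex.normSq_eq_norm_sq, Complex.normSq_sub, Complex.normSq_eq_norm_sq,
          Complex.normSq_eq_norm_sq, norm_mul, Complex.norm_real, Complex.norm_real, mul_pow,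
          Real.norm_eq_abs, sq_abs, Real.norm_eq_abs, sq_abs]
        congr 2
        simp [Complex.mul_re]
      rw [h3, h4, norm_neg, norm_smul, mul_pow, norm_inv, norm_norm, h7, h6] at h2
      rw [h2]
      have h8 : ‖w‖⁻¹ ^ 2 * (‖w‖ ^ 2 - ‖w.fst‖ ^ 2) = 1 - ‖w‖⁻¹ ^ 2 * ‖w.fst‖ ^ 2 := by
        rw [mul_sub, ← mul_pow, inv_mul_cancel₀ hwn.ne', one_pow]
      rw [h8]
      ring
    have hpos : 0 < ‖x₀ - nm w‖ := norm_pos_iff.2 (sub_ne_zero.2 hne)
    simp only [lk]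
    rw [if_neg hne, hg]
    simp only
    congr 1
    rw [← hnorm, Real.log_pow, Real.log_div (by norm_num) hpos.ne']
    push_cast
    ring
  have h2 : ∫⁻ w, lk x₀ (nm w) ∂(bm ℂ) = ∫⁻ w, g (((‖w‖⁻¹ : ℝ) : ℂ) * w.fst) ∂(bm ℂ) :=
    lintegral_congr_ae h1
  have hm1 : Measurable (fun w : HH ℂ => g (((‖w‖⁻¹ : ℝ) : ℂ) * w.fst)) :=
    hgm.comp (by fun_prop)
  -- rotate
  have h3 : ∀ φ : ℝ, ∫⁻ w, g (((‖w‖⁻¹ : ℝ) : ℂ) * w.fst) ∂(bm ℂ) =
      ∫⁻ w, g (((‖w‖⁻¹ : ℝ) : ℂ) * w.fst * Complex.exp (φ * Complex.I)) ∂(bm ℂ) := by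
    intro φ
    have h4 := bm_lintegral_isom (F := ℂ)
      (LinearIsometryEquiv.withLpProdCongr 2 (rotation (Circle.exp φ))
        (LinearIsometryEquiv.refl ℝ ℂ)) hm1
    rw [← h4]
    refine lintegral_congr fun w => ?_
    rw [LinearIsometryEquiv.norm_map]
    congr 1
    simp [rotation_apply]
    ring_nf
  have hswap : ENNReal.ofReal (2 * π) * ∫⁻ w, g (((‖w‖⁻¹ : ℝ) : ℂ) * w.fst) ∂(bm ℂ) =
      ∫⁻ w, (∫⁻ φ in Ioc (0:ℝ) (2 * π),
        g (((‖w‖⁻¹ : ℝ) : ℂ) * w.fst * Complex.exp (φ * Complex.I))) ∂(bm ℂ) := by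
    have h5 : ∫⁻ φ in Ioc (0:ℝ) (2 * π), ∫⁻ w, g (((‖w‖⁻¹ : ℝ) : ℂ) * w.fst) ∂(bm ℂ) =
        ENNReal.ofReal (2 * π) * ∫⁻ w, g (((‖w‖⁻¹ : ℝ) : ℂ) * w.fst) ∂(bm ℂ) := by
      rw [lintegral_const, Measure.restrict_apply_univ, Real.volume_Ioc, sub_zero, mul_comm]
    rw [← h5]
    have h6 : ∫⁻ φ in Ioc (0:ℝ) (2 * π), ∫⁻ w, g (((‖w‖⁻¹ : ℝ) : ℂ) * w.fst) ∂(bm ℂ) =
        ∫⁻ φ in Ioc (0:ℝ) (2 * π), ∫⁻ w,
          g (((‖w‖⁻¹ : ℝ) : ℂ) * w.fst * Complex.exp (φ * Complex.I)) ∂(bm ℂ) :=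
      lintegral_congr fun φ => h3 φ
    rw [h6]
    refine lintegral_lintegral_swap ?_
    exact (hgm.comp (by fun_prop)).aemeasurable
  have hval : ∀ᵐ w ∂(bm ℂ), (∫⁻ φ in Ioc (0:ℝ) (2 * π),
        g (((‖w‖⁻¹ : ℝ) : ℂ) * w.fst * Complex.exp (φ * Complex.I))) =
      ENNReal.ofReal (2 * π) * ENNReal.ofReal (Real.log 2 -
        1/2 * Real.log (((1 + r^2) + √((1 + r^2)^2 - 4 * (r^2 * T4 w))) / 2)) := by
    filter_upwards [bm_ae_ne (F := ℂ)] with w hw
    have hwn : 0 < ‖w‖ := norm_pos_iff.2 hw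
    set b : ℂ := r * (((‖w‖⁻¹ : ℝ) : ℂ) * w.fst) with hb
    have hbn : ‖b‖ = r * (‖w.fst‖ / ‖w‖) := by
      rw [hb, norm_mul, norm_mul, Complex.norm_real, Complex.norm_real,
        Real.norm_of_nonneg hr, Real.norm_of_nonneg (inv_nonneg.2 hwn.le)]
      field_simp
    have hq : ‖w.fst‖ / ‖w‖ ≤ 1 := div_le_one_of_le₀ (hh_fst_le w) (norm_nonneg _)
    have hq0 : 0 ≤ ‖w.fst‖ / ‖w‖ := by positivity
    have hbr : ‖b‖ ≤ r := by rw [hbn]; nlinarith
    have hb2 : ‖b‖ ^ 2 = r ^ 2 * T4 w := by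
      rw [hbn, T4, mul_pow, div_pow]
    have h7 := circ_lintegral (A := 1 + r ^ 2) (by positivity) (b := b)
      (by nlinarith [sq_nonneg (1 - r)]) (by nlinarith)
    rw [hb2] at h7
    rw [← h7]
    refine lintegral_congr fun φ => ?_
    rw [hg, hb]
    simp only
    congr 6
    ring
  rw [pot_eq, h2]
  have h8 : ENNReal.ofReal (2 * π) * ∫⁻ w, g (((‖w‖⁻¹ : ℝ) : ℂ) * w.fst) ∂(bm ℂ) =
      ENNReal.ofReal (2 * π) * (bm ℂ univ * ∫⁻ q in Ioc (0:ℝ) 1, ENNReal.ofReal (Real.log 2 -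
        1/2 * Real.log (((1 + r^2) + √((1 + r^2)^2 - 4 * (r^2 * q))) / 2))) := by
    rw [hswap, lintegral_congr_ae hval]
    have hm4 : Measurable (fun q : ℝ => ENNReal.ofReal (Real.log 2 -
        1/2 * Real.log (((1 + r^2) + √((1 + r^2)^2 - 4 * (r^2 * q))) / 2))) := by fun_prop
    have h10 := lintegral_const_mul (μ := bm ℂ) (ENNReal.ofReal (2 * π)) (hm4.comp measurable_T4)
    simp only [Function.comp_apply] at h10
    rw [h10]
    congr 1
    have h11 := lintegral_map (μ := bm ℂ) hm4 measurable_T4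
    rw [← h11, law_T4, lintegral_smul_measure, smul_eq_mul]
  have h9 : ENNReal.ofReal (2 * π) ≠ 0 := by
    rw [Ne, ENNReal.ofReal_eq_zero, not_le]; positivity
  rw [ENNReal.mul_right_inj h9 ENNReal.ofReal_ne_top] at h8
  rw [h8, ← mul_assoc, ENNReal.inv_mul_cancel bm_univ_pos bm_univ_ne_top, one_mul]

/-- The explicit potential. -/
theorem pot4_val {r : ℝ} (hr : 0 < r) (hr1 : r ≤ 1) :
    ∫⁻ z, lk (WithLp.toLp 2 ((r:ℂ), (0:ℂ)) : HH ℂ) z ∂(sph ℂ) =
      ENNReal.ofReal (Real.log 2 - r^2/4) := by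
  rw [pot4_eq hr.le hr1]
  have hlog4 : Real.log 4 = 2 * Real.log 2 := by
    have : (4:ℝ) = 2 ^ 2 := by norm_num
    rw [this, Real.log_pow]; push_cast; ring
  set a : ℝ := 1 + r^2 with ha
  have ha1 : 1 < a := by rw [ha]; nlinarith
  have ha2 : a ≤ 2 := by rw [ha]; nlinarith
  set s : ℝ → ℝ := fun q => √(a^2 - 4 * (r^2 * q)) with hs
  set v : ℝ → ℝ := fun q => (a + s q) / 2 with hv
  have hsc : Continuous s := by fun_prop
  have hvc : Continuous v := by fun_prop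
  have hvpos : ∀ q, 0 < v q := by
    intro q
    have : 0 ≤ s q := Real.sqrt_nonneg _
    simp only [hv]
    linarith
  have hin : ∀ q ∈ Ioo (0:ℝ) 1, 0 < a^2 - 4 * (r^2 * q) := by
    intro q hq
    have h1 : 0 < r ^ 2 := by positivity
    have h2 : r ^ 2 * q < r ^ 2 := by nlinarith [hq.2]
    have h3 : 4 * r ^ 2 ≤ a ^ 2 := by rw [ha]; nlinarith [sq_nonneg (1 - r ^ 2)]
    linarith
  have hva : ∀ q ∈ Ioo (0:ℝ) 1, v q ≤ a := by
    intro q hq
    have h1 : s q ≤ a := by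
      simp only [hs]
      rw [Real.sqrt_le_left (by linarith)]
      have : 0 < r ^ 2 * q := by have := hq.1; positivity
      linarith
    simp only [hv]
    linarith
  have key := lint_of_deriv (a := 0) (b := 1) zero_le_one
    (G := fun q => q * Real.log 2 - (1/2 * (q * Real.log (v q)) - (a * v q - (v q)^2/2)/(2*r^2)))
    (g := fun q => Real.log 2 - 1/2 * Real.log (v q)) ?_ ?_ ?_
  · have h1 : s 1 = 1 - r^2 := by
      simp only [hs]
      have : a^2 - 4 * (r^2 * 1) = (1 - r^2)^2 := by rw [ha]; ring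
      rw [this, Real.sqrt_sq]
      nlinarith
    have h0 : s 0 = a := by
      simp only [hs]
      have : a^2 - 4 * (r^2 * 0) = a^2 := by ring
      rw [this, Real.sqrt_sq (by linarith)]
    have hv1 : v 1 = 1 := by
      simp only [hv]
      rw [h1, ha]; ring
    have hv0 : v 0 = a := by
      simp only [hv]
      rw [h0]; ring
    have h2 := key.1
    simp only [hv1, hv0, Real.log_one] at h2
    rw [show (∫⁻ q in Ioc (0:ℝ) 1, ENNReal.ofReal (Real.log 2 -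
        1/2 * Real.log ((a + √(a^2 - 4 * (r^2 * q))) / 2))) = ∫⁻ q in Ioc (0:ℝ) 1,
        ENNReal.ofReal (Real.log 2 - 1/2 * Real.log (v q)) from rfl, h2]
    congr 1
    rw [ha]
    field_simp
    ring
  · have hlc : Continuous fun q => Real.log (v q) := hvc.log (fun q => (hvpos q).ne')
    exact (((continuous_id.mul continuous_const).sub ((continuous_const.mul
      (continuous_id.mul hlc)).sub (((continuous_const.mul hvc).sub
        ((hvc.pow 2).div_const 2)).div_const _)))).continuousOn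
  · intro q hq
    have hspos : 0 < s q := Real.sqrt_pos.2 (hin q hq)
    have hs2 : s q ^ 2 = a^2 - 4 * (r^2 * q) := Real.sq_sqrt (hin q hq).le
    have hds : HasDerivAt s (-(4 * r^2) / (2 * s q)) q := by
      have h1 : HasDerivAt (fun q : ℝ => a^2 - 4 * (r^2 * q)) (-(4 * r^2)) q := by
        have := (((hasDerivAt_id q).const_mul (r^2)).const_mul 4).const_sub (a^2)
        simpa using this
      exact h1.sqrt (hin q hq).ne'
    have hdv : HasDerivAt v (-(r^2) / s q) q := by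
      refine ((hds.const_add a).div_const 2).congr_deriv ?_
      field_simp
      ring
    have hdl := hdv.log (hvpos q).ne'
    have h3 := ((hasDerivAt_id q).mul_const (Real.log 2)).sub
      ((((hasDerivAt_id q).mul hdl).const_mul (1/2)).sub
        (((hdv.const_mul a).sub ((hdv.pow 2).div_const 2)).div_const (2*r^2)))
    refine h3.congr_deriv ?_
    have hvq : 0 < v q := hvpos q
    have hrel : q * r^2 = v q * (a - v q) := by
      simp only [hv]
      nlinarith [hs2]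
    have h4 : q = v q * (a - v q) / r^2 := by
      rw [eq_div_iff (by positivity)]; exact hrel
    have h5 : id q * (-(r^2) / s q / v q) = -(a - v q) / s q := by
      simp only [id]
      nth_rw 1 [h4]
      field_simp
    rw [h5]
    push_cast
    field_simp
    ring
  · intro q hq
    have h1 := Real.log_le_log (hvpos q) (show v q ≤ 4 by linarith [hva q hq])
    rw [hlog4] at h1
    linarith

theorem pot4_ge {x : HH ℂ} (hx : ‖x‖ ≤ 1) :
    ENNReal.ofReal (Real.log 2 - 1/4) ≤ ∫⁻ z, lk x z ∂(sph ℂ) := by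
  rcases eq_or_ne x 0 with rfl | h0
  · rw [pot_zero]
    exact ENNReal.ofReal_le_ofReal (by linarith)
  · have hr : 0 < ‖x‖ := norm_pos_iff.2 h0
    have h1 : ‖x‖ = ‖(WithLp.toLp 2 ((‖x‖:ℂ), (0:ℂ)) : HH ℂ)‖ := by
      rw [WithLp.norm_toLp_fst 2 ℂ ℂ (‖x‖:ℂ)]
      simp
    rw [pot_congr h1, pot4_val hr hx]
    refine ENNReal.ofReal_le_ofReal ?_
    have : ‖x‖ ^ 2 ≤ 1 := pow_le_one₀ hr.le hx
    linarith

theorem pot4_le {x : HH ℂ} (hx : ‖x‖ = 1) :
    ∫⁻ z, lk x z ∂(sph ℂ) ≤ ENNReal.ofReal (Real.log 2 - 1/4) := by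
  have h1 : ‖x‖ = ‖(WithLp.toLp 2 (((1:ℝ):ℂ), (0:ℂ)) : HH ℂ)‖ := by
    rw [WithLp.norm_toLp_fst 2 ℂ ℂ ((1:ℝ):ℂ), hx]
    simp
  rw [pot_congr h1, pot4_val one_pos le_rfl]
  refine ENNReal.ofReal_le_ofReal ?_
  norm_num

/-- **Energy on the ball of `ℝ⁴`**: every probability measure on the closed unit ball has
normalised logarithmic energy at least `log 2 - 1/4`. -/
theorem energy4 (μ : Measure (HH ℂ)) [IsProbabilityMeasure μ] (hμ : ∀ᵐ x ∂μ, ‖x‖ ≤ 1) :
    ENNReal.ofReal (Real.log 2 - 1/4) ≤ ∫⁻ x, ∫⁻ y, lk x y ∂μ ∂μ :=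
  energy_ge (sph ℂ) ENNReal.ofReal_ne_top sph_ae (fun _ hx => pot4_ge hx)
    (fun _ hx => pot4_le hx) μ hμ

end DimFour

end Pool.Agent.H42.Cap
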