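import Mathlib

/-!
# Positive definiteness of the logarithmic kernel `log (2 / |x - y|)`
-/

open MeasureTheory Set Filter Topology Function
open scoped ENNReal

namespace Pool.Agent.H42.Cap

theorem ennreal_two_mul_le (a b : ℝ≥0∞) : 2 * (a * b) ≤ a * a + b * b := by
  rcases eq_or_ne a ∞ with rfl | ha
  · simp
  rcases eq_or_ne b ∞ with rfl | hb
  · simp
  lift a to NNReal using ha
  lift b to NNReal using hb
  have : 2 * (a * b) ≤ a * a + b * b := by
    rw [← NNReal.coe_le_coe]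
    push_cast
    nlinarith [sq_nonneg ((a:ℝ) - b)]
  exact_mod_cast this

section Gauss

variable {H : Type*} [NormedAddCommGroup H] [InnerProductSpace ℝ H] [FiniteDimensional ℝ H]
  [MeasurableSpace H] [BorelSpace H]

/-- The Gaussian kernel. -/
noncomputable def gk (t : ℝ) (x y : H) : ℝ≥0∞ := ENNReal.ofReal (Real.exp (-t * ‖x - y‖ ^ 2))

theorem measurable_gk (t : ℝ) : Measurable (uncurry (gk (H := H) t)) := by
  unfold gk
  fun_prop

omit [FiniteDimensional ℝ H] [MeasurableSpace H] [BorelSpace H] in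
theorem gk_identity (x y z : H) :
    ‖x - z‖ ^ 2 + ‖y - z‖ ^ 2 = 2 * ‖z - (1 / 2 : ℝ) • (x + y)‖ ^ 2 + (1 / 2) * ‖x - y‖ ^ 2 := by
  have h1 : x - z = ((1 / 2 : ℝ) • (x + y) - z) + (1 / 2 : ℝ) • (x - y) := by
    module
  have h2 : y - z = ((1 / 2 : ℝ) • (x + y) - z) - (1 / 2 : ℝ) • (x - y) := by
    module
  rw [h1, h2]
  have h3 := parallelogram_law_with_norm ℝ ((1 / 2 : ℝ) • (x + y) - z) ((1 / 2 : ℝ) • (x - y))
  have h4 : ‖z - (1 / 2 : ℝ) • (x + y)‖ = ‖(1 / 2 : ℝ) • (x + y) - z‖ := norm_sub_rev _ _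
  have h5 : ‖(1 / 2 : ℝ) • (x - y)‖ = (1 / 2) * ‖x - y‖ := by
    rw [norm_smul]; norm_num
  rw [h4]
  rw [h5] at h3
  nlinarith [h3]

theorem gk_conv (t : ℝ) (x y : H) :
    ∫⁻ z : H, gk (2 * t) x z * gk (2 * t) y z =
      gk t x y * ∫⁻ z : H, gk (4 * t) z 0 := by
  have h1 : ∀ z : H, gk (2 * t) x z * gk (2 * t) y z =
      gk t x y * gk (4 * t) (z - (1 / 2 : ℝ) • (x + y)) 0 := by
    intro z
    unfold gk
    rw [← ENNReal.ofReal_mul (Real.exp_nonneg _), ← ENNReal.ofReal_mul (Real.exp_nonneg _),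
      ← Real.exp_add, ← Real.exp_add, sub_zero]
    congr 2
    have := gk_identity x y z
    linear_combination (-(2 * t)) * this
  simp_rw [h1]
  rw [lintegral_const_mul]
  · congr 1
    exact lintegral_sub_right_eq_self (fun z : H => gk (4 * t) z 0) _
  · unfold gk
    fun_prop

theorem gk_const_ne_top {t : ℝ} (ht : 0 < t) : ∫⁻ z : H, gk t z 0 ≠ ∞ := by
  have h1 : Integrable (fun z : H => Real.exp (-t * ‖z‖ ^ 2)) := by
    have h2 := (GaussianFourier.integrable_cexp_neg_mul_sq_norm_add (V := H) (b := (t : ℂ))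
      (by simpa using ht) 0 0).norm
    refine h2.congr (Eventually.of_forall fun z => ?_)
    simp only [Complex.norm_exp]
    congr 1
    simp [← Complex.ofReal_pow]
  have h3 := h1.hasFiniteIntegral
  rw [hasFiniteIntegral_iff_ofReal (Eventually.of_forall fun z => Real.exp_nonneg _)] at h3
  unfold gk
  simpa using h3.ne

theorem gk_const_pos (t : ℝ) : ∫⁻ z : H, gk t z 0 ≠ 0 := by
  have hm : Measurable (fun z : H => gk t z 0) := by unfold gk; fun_prop
  rw [← pos_iff_ne_zero, lintegral_pos_iff_support hm]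
  have : support (fun z : H => gk t z 0) = univ := by
    ext z
    simp only [mem_support, mem_univ, iff_true]
    unfold gk
    exact (ENNReal.ofReal_pos.2 (Real.exp_pos _)).ne'
  rw [this]
  exact Measure.measure_univ_pos.2 (NeZero.ne _)

/-- Mutual Gaussian energies through the convolution square root. -/
theorem gk_energy (t : ℝ) (μ σ : Measure H) [SFinite μ] [SFinite σ] :
    ∫⁻ z : H, (∫⁻ x, gk (2 * t) x z ∂μ) * (∫⁻ y, gk (2 * t) y z ∂σ) =
      (∫⁻ x, ∫⁻ y, gk t x y ∂σ ∂μ) * ∫⁻ z : H, gk (4 * t) z 0 := by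
  have hm1 : Measurable (fun p : H × H => gk (2 * t) p.2 p.1) := by unfold gk; fun_prop
  have h1 : ∀ z : H, (∫⁻ x, gk (2 * t) x z ∂μ) * (∫⁻ y, gk (2 * t) y z ∂σ) =
      ∫⁻ x, ∫⁻ y, gk (2 * t) x z * gk (2 * t) y z ∂σ ∂μ := by
    intro z
    have hz : Measurable (fun x : H => gk (2 * t) x z) := by unfold gk; fun_prop
    rw [← lintegral_mul_const _ hz]
    refine lintegral_congr fun x => ?_
    rw [← lintegral_const_mul _ hz]
  simp_rw [h1]
  rw [lintegral_lintegral_swap]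
  · rw [← lintegral_mul_const]
    · refine lintegral_congr fun x => ?_
      rw [lintegral_lintegral_swap]
      · rw [← lintegral_mul_const]
        · exact lintegral_congr fun y => gk_conv t x y
        · unfold gk; fun_prop
      · refine Measurable.aemeasurable ?_
        unfold gk; fun_prop
    · refine Measurable.lintegral_prod_right' (f := fun p : H × H => gk t p.1 p.2) ?_
      exact measurable_gk t
  · refine Measurable.aemeasurable ?_
    refine Measurable.lintegral_prod_right'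
      (f := fun p : (H × H) × H => gk (2 * t) p.1.2 p.1.1 * gk (2 * t) p.2 p.1.1) ?_
    unfold gk; fun_prop

/-- Positive definiteness of the Gaussian kernel. -/
theorem gk_pd {t : ℝ} (ht : 0 < t) (μ σ : Measure H) [SFinite μ] [SFinite σ] :
    2 * ∫⁻ x, ∫⁻ y, gk t x y ∂σ ∂μ ≤
      ∫⁻ x, ∫⁻ y, gk t x y ∂μ ∂μ + ∫⁻ x, ∫⁻ y, gk t x y ∂σ ∂σ := by
  have hC0 : ∫⁻ z : H, gk (4 * t) z 0 ≠ 0 := gk_const_pos _
  have hCt : ∫⁻ z : H, gk (4 * t) z 0 ≠ ∞ := gk_const_ne_top (by positivity)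
  rw [← ENNReal.mul_le_mul_iff_left hC0 hCt, add_mul, ← gk_energy, ← gk_energy, mul_assoc,
    ← gk_energy]
  have hm : ∀ ν : Measure H, SFinite ν → Measurable (fun z : H => ∫⁻ x, gk (2 * t) x z ∂ν) := by
    intro ν hν
    refine Measurable.lintegral_prod_right' (f := fun p : H × H => gk (2 * t) p.2 p.1) ?_
    unfold gk; fun_prop
  have e1 := lintegral_const_mul (μ := (volume : Measure H)) (2 : ℝ≥0∞)
    (f := fun z => (∫⁻ x, gk (2 * t) x z ∂μ) * (∫⁻ y, gk (2 * t) y z ∂σ))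
    ((hm μ inferInstance).mul (hm σ inferInstance))
  have e2 := lintegral_add_left (μ := (volume : Measure H))
    (f := fun z => (∫⁻ x, gk (2 * t) x z ∂μ) * (∫⁻ y, gk (2 * t) y z ∂μ))
    ((hm μ inferInstance).mul (hm μ inferInstance))
    (fun z => (∫⁻ x, gk (2 * t) x z ∂σ) * (∫⁻ y, gk (2 * t) y z ∂σ))
  rw [← e1, ← e2]
  exact lintegral_mono fun z => ennreal_two_mul_le _ _

end Gauss


section Frullani

theorem inner_exp {a b t : ℝ} (hab : a ≤ b) (ht : 0 < t) :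
    ∫⁻ s in Ioc a b, ENNReal.ofReal (Real.exp (-(s * t))) =
      ENNReal.ofReal ((Real.exp (-(a * t)) - Real.exp (-(b * t))) / t) := by
  rw [← ofReal_integral_eq_lintegral_ofReal]
  · congr 1
    rw [← intervalIntegral.integral_of_le hab]
    have h1 : ∀ s ∈ uIcc a b, HasDerivAt (fun s => -Real.exp (-(s * t)) / t)
        (Real.exp (-(s * t))) s := by
      intro s _
      have h2 : HasDerivAt (fun s : ℝ => -(s * t)) (-(1 * t)) s :=
        ((hasDerivAt_id s).mul_const t).neg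
      have h3 := (h2.exp.neg).div_const t
      refine h3.congr_deriv ?_
      field_simp
    rw [intervalIntegral.integral_eq_sub_of_hasDerivAt h1
      (Continuous.intervalIntegrable (by fun_prop) _ _)]
    field_simp
    try ring
  · exact (Continuous.integrableOn_Icc (by fun_prop)).mono_set Ioc_subset_Icc_self
  · exact Eventually.of_forall fun s => Real.exp_nonneg _

theorem inner_exp' {s : ℝ} (hs : 0 < s) :
    ∫⁻ t in Ioi (0:ℝ), ENNReal.ofReal (Real.exp (-(s * t))) = ENNReal.ofReal (1 / s) := by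
  have h0 : -s < 0 := by linarith
  have h1 := integral_exp_mul_Ioi h0 0
  have h2 := integrableOn_exp_mul_Ioi h0 0
  have h3 : ∀ t : ℝ, Real.exp (-(s * t)) = Real.exp (-s * t) := fun t => by rw [neg_mul]
  simp_rw [h3]
  rw [← ofReal_integral_eq_lintegral_ofReal h2 (Eventually.of_forall fun s => Real.exp_nonneg _),
    h1]
  congr 1
  simp

theorem frullani_lintegral {a b : ℝ} (ha : 0 ≤ a) (hab : a ≤ b) :
    ∫⁻ t in Ioi (0:ℝ), ENNReal.ofReal ((Real.exp (-(a * t)) - Real.exp (-(b * t))) / t) =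
      ∫⁻ s in Ioc a b, ENNReal.ofReal (1 / s) := by
  calc ∫⁻ t in Ioi (0:ℝ), ENNReal.ofReal ((Real.exp (-(a * t)) - Real.exp (-(b * t))) / t)
      = ∫⁻ t in Ioi (0:ℝ), ∫⁻ s in Ioc a b, ENNReal.ofReal (Real.exp (-(s * t))) := by
        refine setLIntegral_congr_fun measurableSet_Ioi fun t ht => ?_
        exact (inner_exp hab ht).symm
    _ = ∫⁻ s in Ioc a b, ∫⁻ t in Ioi (0:ℝ), ENNReal.ofReal (Real.exp (-(s * t))) := by
        rw [lintegral_lintegral_swap]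
        refine Measurable.aemeasurable ?_
        fun_prop
    _ = ∫⁻ s in Ioc a b, ENNReal.ofReal (1 / s) := by
        refine setLIntegral_congr_fun measurableSet_Ioc fun s hs => ?_
        exact inner_exp' (lt_of_le_of_lt ha hs.1)

theorem lintegral_one_div {a b : ℝ} (ha : 0 < a) (hab : a ≤ b) :
    ∫⁻ s in Ioc a b, ENNReal.ofReal (1 / s) = ENNReal.ofReal (Real.log (b / a)) := by
  rw [← ofReal_integral_eq_lintegral_ofReal]
  · rw [← intervalIntegral.integral_of_le hab, integral_one_div_of_pos ha (ha.trans_le hab)]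
  · have : IntervalIntegrable (fun s : ℝ => 1 / s) volume a b := by
      refine intervalIntegral.intervalIntegrable_one_div ?_ continuousOn_id
      intro x hx
      rw [uIcc_of_le hab] at hx
      exact (ha.trans_le hx.1).ne'
    exact (intervalIntegrable_iff_integrableOn_Ioc_of_le hab).1 this
  · refine (ae_restrict_iff' measurableSet_Ioc).2 (Eventually.of_forall fun s hs => ?_)
    have : 0 < s := ha.trans hs.1
    simp only [Pi.zero_apply]
    positivity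

theorem lintegral_one_div_zero {b : ℝ} (hb : 0 < b) :
    ∫⁻ s in Ioc 0 b, ENNReal.ofReal (1 / s) = ∞ := by
  refine ENNReal.eq_top_of_forall_nnreal_le fun r => ?_
  -- choose `a` with `log (b / a) = r`
  have ha : 0 < b * Real.exp (-(r:ℝ)) := by positivity
  have hab : b * Real.exp (-(r:ℝ)) ≤ b := by
    have : Real.exp (-(r:ℝ)) ≤ 1 := Real.exp_le_one_iff.2 (by simp)
    nlinarith
  have h1 := lintegral_one_div ha hab
  have h2 : Real.log (b / (b * Real.exp (-(r:ℝ)))) = r := by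
    rw [div_mul_eq_div_div, div_self hb.ne', one_div, ← Real.exp_neg, neg_neg, Real.log_exp]
  rw [h2] at h1
  have h3 : ENNReal.ofReal (r:ℝ) = (r : ℝ≥0∞) := ENNReal.ofReal_coe_nnreal
  rw [← h3, ← h1]
  exact lintegral_mono_set (Ioc_subset_Ioc_left ha.le)

end Frullani

section LogKernel

variable {H : Type*} [NormedAddCommGroup H] [InnerProductSpace ℝ H] [FiniteDimensional ℝ H]
  [MeasurableSpace H] [BorelSpace H]

open Classical in
/-- The kernel `log (2 / |x - y|)`, equal to `∞` on the diagonal. -/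
noncomputable def lk (x y : H) : ℝ≥0∞ :=
  if x = y then ∞ else ENNReal.ofReal (Real.log (2 / ‖x - y‖))

theorem measurable_lk : Measurable (uncurry (lk (H := H))) := by
  classical
  unfold lk
  refine Measurable.ite ?_ measurable_const ?_
  · exact measurableSet_eq_fun measurable_fst measurable_snd
  · fun_prop

omit [FiniteDimensional ℝ H] [MeasurableSpace H] [BorelSpace H] in
theorem lk_eq {x y : H} (hxy : ‖x - y‖ ≤ 2) :
    lk x y = 2⁻¹ * ∫⁻ t in Ioi (0:ℝ), ENNReal.ofReal (1 / t) *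
      (gk t x y - ENNReal.ofReal (Real.exp (-(4 * t)))) := by
  have h0 : ∀ t : ℝ, t ∈ Ioi (0:ℝ) → ENNReal.ofReal (1 / t) *
      (gk t x y - ENNReal.ofReal (Real.exp (-(4 * t)))) =
      ENNReal.ofReal ((Real.exp (-(‖x - y‖ ^ 2 * t)) - Real.exp (-(4 * t))) / t) := by
    intro t ht
    rw [mem_Ioi] at ht
    unfold gk
    rw [← ENNReal.ofReal_sub _ (Real.exp_nonneg _), ← ENNReal.ofReal_mul (by positivity)]
    congr 1
    have : -t * ‖x - y‖ ^ 2 = -(‖x - y‖ ^ 2 * t) := by ring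
    rw [this]
    field_simp
  rw [setLIntegral_congr_fun measurableSet_Ioi h0]
  have hn : 0 ≤ ‖x - y‖ := norm_nonneg _
  have hle : ‖x - y‖ ^ 2 ≤ 4 := by nlinarith
  rw [frullani_lintegral (by positivity) hle]
  unfold lk
  by_cases h : x = y
  · rw [if_pos h, h, sub_self, norm_zero]
    have : (0:ℝ) ^ 2 = 0 := by norm_num
    rw [this, lintegral_one_div_zero (by norm_num)]
    simp
  · rw [if_neg h]
    have hpos : 0 < ‖x - y‖ := norm_pos_iff.2 (sub_ne_zero.2 h)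
    rw [lintegral_one_div (by positivity) hle]
    have h1 : (2⁻¹ : ℝ≥0∞) = ENNReal.ofReal (2⁻¹ : ℝ) := by
      rw [ENNReal.ofReal_inv_of_pos (by norm_num)]; simp
    rw [h1, ← ENNReal.ofReal_mul (by norm_num)]
    congr 1
    have h2 : (4:ℝ) / ‖x - y‖ ^ 2 = (2 / ‖x - y‖) ^ 2 := by
      rw [div_pow]; norm_num
    rw [h2, Real.log_pow]
    push_cast
    ring

omit [NormedAddCommGroup H] [InnerProductSpace ℝ H] [FiniteDimensional ℝ H] [BorelSpace H] in
theorem lintegral2_const_mul (c : ℝ≥0∞) (f : H → H → ℝ≥0∞) (hf : Measurable (uncurry f))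
    (ν₁ ν₂ : Measure H) [SFinite ν₂] :
    ∫⁻ x, ∫⁻ y, c * f x y ∂ν₂ ∂ν₁ = c * ∫⁻ x, ∫⁻ y, f x y ∂ν₂ ∂ν₁ := by
  have h1 : ∀ x, ∫⁻ y, c * f x y ∂ν₂ = c * ∫⁻ y, f x y ∂ν₂ := fun x =>
    lintegral_const_mul c (hf.of_uncurry_left (x := x))
  simp_rw [h1]
  exact lintegral_const_mul c (Measurable.lintegral_prod_right' (f := uncurry f) hf)

omit [NormedAddCommGroup H] [InnerProductSpace ℝ H] [FiniteDimensional ℝ H] [BorelSpace H] in
theorem lintegral2_swap (f : ℝ → H → H → ℝ≥0∞)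
    (hf : Measurable (fun p : ℝ × H × H => f p.1 p.2.1 p.2.2))
    (ν₁ ν₂ : Measure H) [SFinite ν₁] [SFinite ν₂] (τ : Measure ℝ) [SFinite τ] :
    ∫⁻ x, ∫⁻ y, (∫⁻ t, f t x y ∂τ) ∂ν₂ ∂ν₁ = ∫⁻ t, (∫⁻ x, ∫⁻ y, f t x y ∂ν₂ ∂ν₁) ∂τ := by
  have h1 : ∀ x, ∫⁻ y, (∫⁻ t, f t x y ∂τ) ∂ν₂ = ∫⁻ t, (∫⁻ y, f t x y ∂ν₂) ∂τ := by
    intro x
    refine lintegral_lintegral_swap (f := fun y t => f t x y) ?_
    exact (hf.comp (f := fun p : H × ℝ => (p.2, x, p.1)) (by fun_prop)).aemeasurable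
  simp_rw [h1]
  refine lintegral_lintegral_swap (f := fun x t => ∫⁻ y, f t x y ∂ν₂) ?_
  have h2 : Measurable (fun p : (H × ℝ) × H => f p.1.2 p.1.1 p.2) :=
    hf.comp (f := fun p : (H × ℝ) × H => (p.1.2, p.1.1, p.2)) (by fun_prop)
  exact (Measurable.lintegral_prod_right' (f := fun p : (H × ℝ) × H => f p.1.2 p.1.1 p.2)
    h2).aemeasurable

/-- The truncated Gaussian kernel. -/
noncomputable def tk (t : ℝ) (x y : H) : ℝ≥0∞ :=
  gk t x y - ENNReal.ofReal (Real.exp (-(4 * t)))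

theorem measurable_tk : Measurable (fun p : ℝ × H × H => tk p.1 p.2.1 p.2.2) := by
  unfold tk gk
  fun_prop

theorem lk_energy (ν₁ ν₂ : Measure H) [IsProbabilityMeasure ν₁] [IsProbabilityMeasure ν₂]
    {B : Set H} (hB : ∀ x ∈ B, ∀ y ∈ B, ‖x - y‖ ≤ 2) (h1 : ∀ᵐ x ∂ν₁, x ∈ B)
    (h2 : ∀ᵐ x ∂ν₂, x ∈ B) :
    ∫⁻ x, ∫⁻ y, lk x y ∂ν₂ ∂ν₁ = 2⁻¹ * ∫⁻ t in Ioi (0:ℝ), ENNReal.ofReal (1 / t) *
        ∫⁻ x, ∫⁻ y, tk t x y ∂ν₂ ∂ν₁ := by
  have hm : Measurable (fun p : ℝ × H × H => ENNReal.ofReal (1 / p.1) * tk p.1 p.2.1 p.2.2) :=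
    Measurable.mul (by fun_prop) measurable_tk
  have e1 : ∫⁻ x, ∫⁻ y, lk x y ∂ν₂ ∂ν₁ = ∫⁻ x, ∫⁻ y, (2⁻¹ * ∫⁻ t in Ioi (0:ℝ),
      ENNReal.ofReal (1 / t) * tk t x y) ∂ν₂ ∂ν₁ := by
    refine lintegral_congr_ae (h1.mono fun x hx => ?_)
    exact lintegral_congr_ae (h2.mono fun y hy => lk_eq (hB x hx y hy))
  have hm1 : Measurable (uncurry fun x y : H => ∫⁻ t in Ioi (0:ℝ),
      ENNReal.ofReal (1 / t) * tk t x y) := by
    have h3 : Measurable (fun p : (H × H) × ℝ => ENNReal.ofReal (1 / p.2) * tk p.2 p.1.1 p.1.2) :=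
      hm.comp (f := fun p : (H × H) × ℝ => (p.2, p.1.1, p.1.2)) (by fun_prop)
    exact Measurable.lintegral_prod_right' (f := fun p : (H × H) × ℝ =>
      ENNReal.ofReal (1 / p.2) * tk p.2 p.1.1 p.1.2) h3
  have e2 := lintegral2_const_mul 2⁻¹ (fun x y : H => ∫⁻ t in Ioi (0:ℝ),
      ENNReal.ofReal (1 / t) * tk t x y) hm1 ν₁ ν₂
  have e3 := lintegral2_swap (fun (t : ℝ) (x y : H) => ENNReal.ofReal (1 / t) * tk t x y) hm ν₁ ν₂
    (volume.restrict (Ioi (0:ℝ)))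
  rw [e1, e2, e3]
  congr 1
  refine lintegral_congr fun t => ?_
  exact lintegral2_const_mul _ (fun x y : H => tk t x y)
    (measurable_tk.comp (f := fun p : H × H => (t, p.1, p.2)) (by fun_prop)) ν₁ ν₂

theorem tk_add (ν₁ ν₂ : Measure H) [IsProbabilityMeasure ν₁] [IsProbabilityMeasure ν₂]
    {B : Set H} (hB : ∀ x ∈ B, ∀ y ∈ B, ‖x - y‖ ≤ 2) (h1 : ∀ᵐ x ∂ν₁, x ∈ B)
    (h2 : ∀ᵐ x ∂ν₂, x ∈ B) {t : ℝ} (ht : 0 < t) :
    ∫⁻ x, ∫⁻ y, tk t x y ∂ν₂ ∂ν₁ + ENNReal.ofReal (Real.exp (-(4 * t))) =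
      ∫⁻ x, ∫⁻ y, gk t x y ∂ν₂ ∂ν₁ := by
  have hge : ∀ x ∈ B, ∀ y ∈ B, ENNReal.ofReal (Real.exp (-(4 * t))) ≤ gk t x y := by
    intro x hx y hy
    unfold gk
    apply ENNReal.ofReal_le_ofReal
    apply Real.exp_le_exp.2
    have h3 := hB x hx y hy
    have h4 : 0 ≤ ‖x - y‖ := norm_nonneg _
    have h5 : ‖x - y‖ ^ 2 ≤ 4 := by nlinarith
    nlinarith [mul_le_mul_of_nonneg_left h5 ht.le]
  have e1 : ∫⁻ x, ∫⁻ y, gk t x y ∂ν₂ ∂ν₁ =
      ∫⁻ x, (∫⁻ y, tk t x y ∂ν₂ + ENNReal.ofReal (Real.exp (-(4 * t)))) ∂ν₁ := by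
    refine lintegral_congr_ae (h1.mono fun x hx => ?_)
    have e2 : ∫⁻ y, gk t x y ∂ν₂ = ∫⁻ y, (tk t x y + ENNReal.ofReal (Real.exp (-(4 * t)))) ∂ν₂ :=
      lintegral_congr_ae (h2.mono fun y hy => (tsub_add_cancel_of_le (hge x hx y hy)).symm)
    simp only
    rw [e2, lintegral_add_right _ measurable_const, lintegral_const, measure_univ, mul_one]
  rw [e1, lintegral_add_right _ measurable_const, lintegral_const, measure_univ, mul_one]

/-- Positive definiteness of the logarithmic kernel on probability measures of diameter at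
most two. -/
theorem lk_pd (μ σ : Measure H) [IsProbabilityMeasure μ] [IsProbabilityMeasure σ] {B : Set H}
    (hB : ∀ x ∈ B, ∀ y ∈ B, ‖x - y‖ ≤ 2) (hμ : ∀ᵐ x ∂μ, x ∈ B) (hσ : ∀ᵐ x ∂σ, x ∈ B) :
    2 * ∫⁻ x, ∫⁻ y, lk x y ∂σ ∂μ ≤ ∫⁻ x, ∫⁻ y, lk x y ∂μ ∂μ + ∫⁻ x, ∫⁻ y, lk x y ∂σ ∂σ := by
  rw [lk_energy μ σ hB hμ hσ, lk_energy μ μ hB hμ hμ, lk_energy σ σ hB hσ hσ, ← mul_assoc,
    mul_comm (2:ℝ≥0∞) 2⁻¹, mul_assoc, ← mul_add]
  refine mul_le_mul' le_rfl ?_
  have hmeas : ∀ ν₁ ν₂ : Measure H, SFinite ν₁ → SFinite ν₂ → Measurable (fun t : ℝ =>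
      ENNReal.ofReal (1 / t) * ∫⁻ x, ∫⁻ y, tk t x y ∂ν₂ ∂ν₁) := by
    intro ν₁ ν₂ _ _
    refine Measurable.mul (by fun_prop) ?_
    have hm : Measurable (fun p : (ℝ × H) × H => tk p.1.1 p.1.2 p.2) :=
      measurable_tk.comp (f := fun p : (ℝ × H) × H => (p.1.1, p.1.2, p.2)) (by fun_prop)
    exact Measurable.lintegral_prod_right' (f := fun p : ℝ × H => ∫⁻ y, tk p.1 p.2 y ∂ν₂)
      (Measurable.lintegral_prod_right' hm)
  rw [← lintegral_const_mul _ (hmeas μ σ inferInstance inferInstance),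
    ← lintegral_add_left (hmeas μ μ inferInstance inferInstance)]
  refine setLIntegral_mono' measurableSet_Ioi fun t ht => ?_
  rw [mem_Ioi] at ht
  rw [← mul_assoc, mul_comm (2:ℝ≥0∞), mul_assoc, ← mul_add]
  refine mul_le_mul' le_rfl ?_
  have hpd := gk_pd ht μ σ
  rw [← tk_add μ σ hB hμ hσ ht, ← tk_add μ μ hB hμ hμ ht, ← tk_add σ σ hB hσ hσ ht,
    mul_add] at hpd
  have h2c : 2 * ENNReal.ofReal (Real.exp (-(4 * t))) ≠ ∞ :=
    ENNReal.mul_ne_top (by simp) ENNReal.ofReal_ne_top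
  rw [← ENNReal.add_le_add_iff_right h2c]
  refine hpd.trans (le_of_eq ?_)
  generalize ENNReal.ofReal (Real.exp (-(4 * t))) = c
  ring

end LogKernel

end Pool.Agent.H42.Cap
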