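import Pool.Agent.H42.CapSphere
import Pool.Agent.H42.CapCircle

/-!
# The logarithmic energy of a mixture of uniform measures on parallel circles
-/

open MeasureTheory Set Filter Topology Function
open scoped ENNReal Real

namespace Pool.Agent.H42.Cap

section Rings

variable {F : Type*} [NormedAddCommGroup F] [InnerProductSpace ℝ F] [FiniteDimensional ℝ F]
  [MeasurableSpace F] [BorelSpace F]

/-- Points of the circle of radius `ρ` and centre `(u, 0)`. -/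
noncomputable def rp (u : F) (ρ θ : ℝ) : HH F :=
  WithLp.toLp 2 (u, (ρ:ℂ) * Complex.exp (θ * Complex.I))

theorem measurable_rp (u : F) (ρ : ℝ) : Measurable (rp u ρ) := by
  unfold rp
  exact (WithLp.measurable_toLp 2 (F × ℂ)).comp (by fun_prop)

/-- Uniform measure on the circle of radius `ρ` and centre `(u, 0)`. -/
noncomputable def rm (u : F) (ρ : ℝ) : Measure (HH F) :=
  (ENNReal.ofReal (2 * π))⁻¹ • (volume.restrict (Ioc (0:ℝ) (2 * π))).map (rp u ρ)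

theorem ofReal_two_pi_ne_zero : ENNReal.ofReal (2 * π) ≠ 0 := by
  rw [Ne, ENNReal.ofReal_eq_zero, not_le]; positivity

instance (u : F) (ρ : ℝ) : IsProbabilityMeasure (rm u ρ) := ⟨by
  unfold rm
  rw [Measure.smul_apply, Measure.map_apply (measurable_rp u ρ) MeasurableSet.univ, preimage_univ,
    smul_eq_mul, Measure.restrict_apply_univ, Real.volume_Ioc, sub_zero,
    ENNReal.inv_mul_cancel ofReal_two_pi_ne_zero ENNReal.ofReal_ne_top]⟩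

theorem rm_ae (u : F) (ρ : ℝ) {P : HH F → Prop} (hP : MeasurableSet {x | P x})
    (h : ∀ θ, P (rp u ρ θ)) : ∀ᵐ x ∂(rm u ρ), P x := by
  unfold rm
  refine Measure.ae_smul_measure ?_ _
  rw [ae_map_iff (measurable_rp u ρ).aemeasurable hP]
  exact Eventually.of_forall h

theorem rm_lintegral (u : F) (ρ : ℝ) {f : HH F → ℝ≥0∞} (hf : Measurable f) :
    ∫⁻ x, f x ∂(rm u ρ) =
      (ENNReal.ofReal (2 * π))⁻¹ * ∫⁻ θ in Ioc (0:ℝ) (2 * π), f (rp u ρ θ) := by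
  unfold rm
  rw [lintegral_smul_measure, smul_eq_mul, lintegral_map hf (measurable_rp u ρ)]

omit [FiniteDimensional ℝ F] [MeasurableSpace F] [BorelSpace F] in
theorem rp_sub_norm_sq (u₁ u₂ : F) (ρ₁ ρ₂ θ φ : ℝ) :
    ‖rp u₁ ρ₁ θ - rp u₂ ρ₂ φ‖ ^ 2 = ρ₁ ^ 2 + ρ₂ ^ 2 + ‖u₁ - u₂‖ ^ 2 -
      2 * (((ρ₁ * ρ₂ : ℝ) : ℂ) * Complex.exp (-θ * Complex.I) *
        Complex.exp (φ * Complex.I)).re := by
  rw [hh_norm_sq]
  have h1 : (rp u₁ ρ₁ θ - rp u₂ ρ₂ φ).fst = u₁ - u₂ := rfl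
  have h2 : (rp u₁ ρ₁ θ - rp u₂ ρ₂ φ).snd =
    (ρ₁:ℂ) * Complex.exp (θ * Complex.I) - (ρ₂:ℂ) * Complex.exp (φ * Complex.I) := rfl
  rw [h1, h2, ← Complex.normSq_eq_norm_sq, Complex.normSq_sub, Complex.normSq_eq_norm_sq,
    Complex.normSq_eq_norm_sq, norm_mul, norm_mul, Complex.norm_exp_ofReal_mul_I,
    Complex.norm_exp_ofReal_mul_I, Complex.norm_real, Complex.norm_real, mul_one, mul_one,
    Real.norm_eq_abs, Real.norm_eq_abs, sq_abs, sq_abs]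
  have h3 : (((ρ₁ : ℂ) * Complex.exp (θ * Complex.I)) *
      (starRingEnd ℂ) ((ρ₂:ℂ) * Complex.exp (φ * Complex.I))).re =
      (((ρ₁ * ρ₂ : ℝ) : ℂ) * Complex.exp (-θ * Complex.I) *
        Complex.exp (φ * Complex.I)).re := by
    have h4 : (((ρ₁ * ρ₂ : ℝ) : ℂ) * Complex.exp (-θ * Complex.I) *
        Complex.exp (φ * Complex.I)) = (starRingEnd ℂ) (((ρ₁ : ℂ) * Complex.exp (θ * Complex.I)) *
      (starRingEnd ℂ) ((ρ₂:ℂ) * Complex.exp (φ * Complex.I))) := by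
      simp only [map_mul, Complex.conj_ofReal, ← Complex.exp_conj,
        Complex.conj_I, map_neg, neg_neg]
      push_cast
      have : -(θ:ℂ) * Complex.I = (θ:ℂ) * -Complex.I := by ring
      rw [this]
      ring
    rw [h4, Complex.conj_re]
  rw [h3]
  ring

/-- The (normalised) mutual energy of two parallel circles. -/
noncomputable def ee (A p : ℝ) : ℝ :=
  Real.log 2 - 1 / 2 * Real.log ((A + √(A ^ 2 - 4 * p ^ 2)) / 2)

theorem ring_pot (u₁ u₂ : F) {ρ₁ ρ₂ : ℝ} (h₁ : 0 < ρ₁) (h₂ : 0 < ρ₂)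
    (hd : (ρ₁ + ρ₂) ^ 2 + ‖u₁ - u₂‖ ^ 2 ≤ 4) (θ : ℝ) :
    ∫⁻ y, lk (rp u₁ ρ₁ θ) y ∂(rm u₂ ρ₂) =
      ENNReal.ofReal (ee (ρ₁ ^ 2 + ρ₂ ^ 2 + ‖u₁ - u₂‖ ^ 2) (ρ₁ * ρ₂)) := by
  have hm : Measurable (fun y : HH F => lk (rp u₁ ρ₁ θ) y) :=
    measurable_lk.of_uncurry_left (x := rp u₁ ρ₁ θ)
  rw [rm_lintegral u₂ ρ₂ hm]
  set b : ℂ := ((ρ₁ * ρ₂ : ℝ) : ℂ) * Complex.exp (-θ * Complex.I) with hb
  have hbn : ‖b‖ = ρ₁ * ρ₂ := by
    have : (-θ : ℂ) = ((-θ : ℝ) : ℂ) := by push_cast; ring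
    rw [hb, norm_mul, this, Complex.norm_exp_ofReal_mul_I, mul_one, Complex.norm_real,
      Real.norm_of_nonneg (by positivity)]
  have hae : ∀ᵐ φ ∂(volume.restrict (Ioc (0:ℝ) (2 * π))),
      lk (rp u₁ ρ₁ θ) (rp u₂ ρ₂ φ) = ENNReal.ofReal (Real.log 2 - 1 / 2 *
        Real.log ((ρ₁ ^ 2 + ρ₂ ^ 2 + ‖u₁ - u₂‖ ^ 2) -
          2 * (b * Complex.exp (φ * Complex.I)).re)) := by
    have hnull : ∀ᵐ φ ∂(volume.restrict (Ioc (0:ℝ) (2 * π))), rp u₁ ρ₁ θ ≠ rp u₂ ρ₂ φ := by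
      rw [ae_restrict_iff' measurableSet_Ioc]
      have hsub : ({φ : ℝ | φ ∈ Ioc (0:ℝ) (2 * π) ∧ rp u₁ ρ₁ θ = rp u₂ ρ₂ φ}).Subsingleton := by
        rintro φ ⟨hφ, e1⟩ φ' ⟨hφ', e2⟩
        have hinj := injOn_circleMap_of_abs_sub_le (a := 0) (b := 2 * π) (c := 0) h₂.ne'
          (by rw [zero_sub, abs_neg, abs_of_nonneg (by positivity)])
        rw [uIoc_of_le (by positivity)] at hinj
        refine hinj hφ hφ' ?_
        have e3 : (rp u₂ ρ₂ φ).snd = (rp u₂ ρ₂ φ').snd := by rw [← e1, ← e2]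
        simpa [rp, circleMap] using e3
      have hz : volume {φ : ℝ | φ ∈ Ioc (0:ℝ) (2 * π) ∧ rp u₁ ρ₁ θ = rp u₂ ρ₂ φ} = 0 :=
        hsub.measure_zero volume
      rw [ae_iff]
      refine measure_mono_null ?_ hz
      intro φ hφ
      simp only [mem_ofPred_eq, Classical.not_imp, not_not] at hφ
      exact hφ
    filter_upwards [hnull] with φ hφ
    have hn := rp_sub_norm_sq u₁ u₂ ρ₁ ρ₂ θ φ
    have hpos : 0 < ‖rp u₁ ρ₁ θ - rp u₂ ρ₂ φ‖ := norm_pos_iff.2 (sub_ne_zero.2 hφ)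
    rw [lk, if_neg hφ, hb, ← hn, Real.log_pow, Real.log_div (by norm_num) hpos.ne']
    congr 1
    push_cast
    ring
  rw [lintegral_congr_ae hae, circ_lintegral (by positivity)
    (by rw [hbn]; nlinarith [sq_nonneg (ρ₁ - ρ₂), sq_nonneg ‖u₁ - u₂‖])
    (by rw [hbn]; nlinarith), ← mul_assoc,
    ENNReal.inv_mul_cancel ofReal_two_pi_ne_zero ENNReal.ofReal_ne_top, one_mul, hbn, ee]

theorem ring_energy (u₁ u₂ : F) {ρ₁ ρ₂ : ℝ} (h₁ : 0 < ρ₁) (h₂ : 0 < ρ₂)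
    (hd : (ρ₁ + ρ₂) ^ 2 + ‖u₁ - u₂‖ ^ 2 ≤ 4) :
    ∫⁻ x, ∫⁻ y, lk x y ∂(rm u₂ ρ₂) ∂(rm u₁ ρ₁) =
      ENNReal.ofReal (ee (ρ₁ ^ 2 + ρ₂ ^ 2 + ‖u₁ - u₂‖ ^ 2) (ρ₁ * ρ₂)) := by
  have hm : Measurable (fun x : HH F => ∫⁻ y, lk x y ∂(rm u₂ ρ₂)) :=
    Measurable.lintegral_prod_right' (f := uncurry lk) measurable_lk
  have h : ∀ᵐ x ∂(rm u₁ ρ₁), ∫⁻ y, lk x y ∂(rm u₂ ρ₂) =
      ENNReal.ofReal (ee (ρ₁ ^ 2 + ρ₂ ^ 2 + ‖u₁ - u₂‖ ^ 2) (ρ₁ * ρ₂)) := by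
    refine rm_ae u₁ ρ₁ (measurableSet_eq_fun hm measurable_const) fun θ => ?_
    exact ring_pot u₁ u₂ h₁ h₂ hd θ
  rw [lintegral_congr_ae h, lintegral_const, measure_univ, mul_one]

theorem ee_nonneg {A p : ℝ} (hA : 0 < A) (hA4 : A ≤ 4) : 0 ≤ ee A p := by
  unfold ee
  have hlog4 : Real.log 4 = 2 * Real.log 2 := by
    have : (4:ℝ) = 2 ^ 2 := by norm_num
    rw [this, Real.log_pow]; push_cast; ring
  have hS : √(A ^ 2 - 4 * p ^ 2) ≤ A := by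
    rw [Real.sqrt_le_left hA.le]
    nlinarith [sq_nonneg p]
  have hS0 : 0 ≤ √(A ^ 2 - 4 * p ^ 2) := Real.sqrt_nonneg _
  have h1 := Real.log_le_log (x := (A + √(A ^ 2 - 4 * p ^ 2)) / 2) (y := 4) (by linarith)
    (by linarith)
  rw [hlog4] at h1
  linarith

variable {m : ℕ}

/-- A mixture of uniform measures on parallel circles. -/
noncomputable def mix (u : Fin m → F) (ρ w : Fin m → ℝ) : Measure (HH F) :=
  ∑ i, ENNReal.ofReal (w i) • rm (u i) (ρ i)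

theorem mix_prob (u : Fin m → F) (ρ w : Fin m → ℝ) (hw : ∀ i, 0 ≤ w i) (hw1 : ∑ i, w i = 1) :
    IsProbabilityMeasure (mix u ρ w) := ⟨by
  unfold mix
  rw [Measure.finsetSum_apply]
  simp only [Measure.smul_apply, measure_univ, smul_eq_mul, mul_one]
  rw [← ENNReal.ofReal_sum_of_nonneg (fun i _ => hw i), hw1, ENNReal.ofReal_one]⟩

theorem mix_energy (u : Fin m → F) (ρ w : Fin m → ℝ) (hw : ∀ i, 0 ≤ w i)
    (hρ : ∀ i, 0 < ρ i) (hd : ∀ i j, (ρ i + ρ j) ^ 2 + ‖u i - u j‖ ^ 2 ≤ 4) :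
    ∫⁻ x, ∫⁻ y, lk x y ∂(mix u ρ w) ∂(mix u ρ w) =
      ENNReal.ofReal (∑ i, ∑ j, w i * w j *
        ee (ρ i ^ 2 + ρ j ^ 2 + ‖u i - u j‖ ^ 2) (ρ i * ρ j)) := by
  have hm : ∀ j, Measurable (fun x : HH F => ∫⁻ y, lk x y ∂(rm (u j) (ρ j))) := fun j =>
    Measurable.lintegral_prod_right' (f := uncurry lk) measurable_lk
  have h1 : ∀ x, ∫⁻ y, lk x y ∂(mix u ρ w) =
      ∑ j, ENNReal.ofReal (w j) * ∫⁻ y, lk x y ∂(rm (u j) (ρ j)) := by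
    intro x
    unfold mix
    rw [lintegral_finsetSum_measure]
    simp only [lintegral_smul_measure, smul_eq_mul]
  simp_rw [h1]
  have h2 : ∀ i, ∫⁻ x, ∑ j, ENNReal.ofReal (w j) * ∫⁻ y, lk x y ∂(rm (u j) (ρ j))
      ∂(rm (u i) (ρ i)) = ∑ j, ENNReal.ofReal (w j) *
        ENNReal.ofReal (ee (ρ i ^ 2 + ρ j ^ 2 + ‖u i - u j‖ ^ 2) (ρ i * ρ j)) := by
    intro i
    rw [lintegral_finsetSum _ (fun j _ => (hm j).const_mul _)]
    refine Finset.sum_congr rfl fun j _ => ?_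
    rw [lintegral_const_mul _ (hm j), ring_energy (u i) (u j) (hρ i) (hρ j) (hd i j)]
  have hnn : ∀ i j, 0 ≤ ee (ρ i ^ 2 + ρ j ^ 2 + ‖u i - u j‖ ^ 2) (ρ i * ρ j) := by
    intro i j
    have a1 := hρ i
    have a2 := hρ j
    refine ee_nonneg (by positivity) ?_
    nlinarith [hd i j, mul_pos a1 a2]
  rw [mix, lintegral_finsetSum_measure, ENNReal.ofReal_sum_of_nonneg]
  · refine Finset.sum_congr rfl fun i _ => ?_
    rw [lintegral_smul_measure, h2, smul_eq_mul, Finset.mul_sum, ENNReal.ofReal_sum_of_nonneg]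
    · refine Finset.sum_congr rfl fun j _ => ?_
      rw [ENNReal.ofReal_mul (mul_nonneg (hw i) (hw j)), ENNReal.ofReal_mul (hw i), mul_assoc]
    · intro j _
      exact mul_nonneg (mul_nonneg (hw i) (hw j)) (hnn i j)
  · intro i _
    exact Finset.sum_nonneg fun j _ => mul_nonneg (mul_nonneg (hw i) (hw j)) (hnn i j)

/-- The union of the circles. -/
def rset (u : Fin m → F) (ρ : Fin m → ℝ) : Set (HH F) :=
  {x | ∃ i, x.fst = u i ∧ ‖x.snd‖ = ρ i}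

omit [FiniteDimensional ℝ F] [MeasurableSpace F] [BorelSpace F] in
theorem rset_dist (u : Fin m → F) (ρ : Fin m → ℝ)
    (hd : ∀ i j, (ρ i + ρ j) ^ 2 + ‖u i - u j‖ ^ 2 ≤ 4) :
    ∀ x ∈ rset u ρ, ∀ y ∈ rset u ρ, dist x y ≤ 2 := by
  rintro x ⟨i, hx1, hx2⟩ y ⟨j, hy1, hy2⟩
  rw [dist_eq_norm]
  have h1 := hh_norm_sq (x - y)
  have h2 : (x - y).fst = u i - u j := by rw [WithLp.sub_fst, hx1, hy1]
  have h3 : ‖(x - y).snd‖ ≤ ρ i + ρ j := by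
    rw [WithLp.sub_snd, ← hx2, ← hy2]
    exact norm_sub_le _ _
  have h4 : ‖(x - y).snd‖ ^ 2 ≤ (ρ i + ρ j) ^ 2 := pow_le_pow_left₀ (norm_nonneg _) h3 2
  rw [h2] at h1
  have h5 : ‖x - y‖ ^ 2 ≤ 2 ^ 2 := by
    rw [h1]
    have := hd i j
    linarith
  exact (sq_le_sq₀ (norm_nonneg _) (by norm_num)).1 h5

omit [MeasurableSpace F] [BorelSpace F] in
theorem rset_compact (u : Fin m → F) (ρ : Fin m → ℝ)
    (hd : ∀ i j, (ρ i + ρ j) ^ 2 + ‖u i - u j‖ ^ 2 ≤ 4) : IsCompact (rset u ρ) := by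
  rw [Metric.isCompact_iff_isClosed_bounded]
  constructor
  · have h1 : rset u ρ = ⋃ i, {x : HH F | x.fst = u i ∧ ‖x.snd‖ = ρ i} := by
      ext x
      simp [rset]
    rw [h1]
    refine isClosed_iUnion_of_finite fun i => ?_
    exact (isClosed_eq (by fun_prop) continuous_const).inter
      (isClosed_eq (by fun_prop) continuous_const)
  · exact Metric.isBounded_iff.2 ⟨2, fun x hx y hy => rset_dist u ρ hd x hx y hy⟩

omit [MeasurableSpace F] [BorelSpace F] in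
theorem rset_diam (u : Fin m → F) (ρ : Fin m → ℝ)
    (hd : ∀ i j, (ρ i + ρ j) ^ 2 + ‖u i - u j‖ ^ 2 ≤ 4) {i₀ : Fin m} (h₀ : ρ i₀ = 1) :
    Metric.diam (rset u ρ) = 2 := by
  refine le_antisymm (Metric.diam_le_of_forall_dist_le (by norm_num) (rset_dist u ρ hd)) ?_
  have hx : (WithLp.toLp 2 (u i₀, (1:ℂ)) : HH F) ∈ rset u ρ := ⟨i₀, rfl, by simp [h₀]⟩
  have hy : (WithLp.toLp 2 (u i₀, (-1:ℂ)) : HH F) ∈ rset u ρ := ⟨i₀, rfl, by simp [h₀]⟩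
  have h1 := Metric.dist_le_diam_of_mem (rset_compact u ρ hd).isBounded hx hy
  refine le_trans (le_of_eq ?_) h1
  rw [dist_eq_norm]
  have h2 := hh_norm_sq ((WithLp.toLp 2 (u i₀, (1:ℂ)) : HH F) - WithLp.toLp 2 (u i₀, (-1:ℂ)))
  have h3 : ((WithLp.toLp 2 (u i₀, (1:ℂ)) : HH F) - WithLp.toLp 2 (u i₀, (-1:ℂ))).fst = 0 := by
    rw [WithLp.sub_fst]; simp
  have h4 : ((WithLp.toLp 2 (u i₀, (1:ℂ)) : HH F) - WithLp.toLp 2 (u i₀, (-1:ℂ))).snd = 2 := by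
    rw [WithLp.sub_snd]; norm_num
  rw [h3, h4, norm_zero] at h2
  have h5 : ‖(WithLp.toLp 2 (u i₀, (1:ℂ)) : HH F) - WithLp.toLp 2 (u i₀, (-1:ℂ))‖ ^ 2 = 2 ^ 2 := by
    rw [h2]; norm_num
  exact ((sq_eq_sq₀ (norm_nonneg _) (by norm_num)).1 h5).symm

theorem mix_support (u : Fin m → F) (ρ w : Fin m → ℝ) (hρ : ∀ i, 0 < ρ i)
    (hd : ∀ i j, (ρ i + ρ j) ^ 2 + ‖u i - u j‖ ^ 2 ≤ 4) :
    mix u ρ w (rset u ρ)ᶜ = 0 := by
  unfold mix
  rw [Measure.finsetSum_apply]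
  refine Finset.sum_eq_zero fun i _ => ?_
  rw [Measure.smul_apply, smul_eq_mul]
  have h1 : ∀ᵐ x ∂(rm (u i) (ρ i)), x ∈ rset u ρ := by
    refine rm_ae (u i) (ρ i) (rset_compact u ρ hd).measurableSet fun θ => ?_
    refine ⟨i, rfl, ?_⟩
    simp only [rp]
    rw [show (WithLp.toLp 2 (u i, (ρ i : ℂ) * Complex.exp (θ * Complex.I)) : HH F).snd =
      (ρ i : ℂ) * Complex.exp (θ * Complex.I) from rfl, norm_mul, Complex.norm_exp_ofReal_mul_I,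
      mul_one, Complex.norm_real, Real.norm_of_nonneg (hρ i).le]
  rw [ae_iff] at h1
  have h2 : {a | a ∉ rset u ρ} = (rset u ρ)ᶜ := rfl
  rw [← h2, h1, mul_zero]

end Rings

end Pool.Agent.H42.Cap
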