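import Pool.Agent.H42.CapPD

/-!
# The uniform measure on the unit sphere of `F × ℂ` and the law of the first coordinate
-/

open MeasureTheory Set Filter Topology Function
open scoped ENNReal

namespace Pool.Agent.H42.Cap

section Law

variable {F : Type*} [NormedAddCommGroup F] [InnerProductSpace ℝ F] [FiniteDimensional ℝ F]
  [MeasurableSpace F] [BorelSpace F]

theorem volume_sq_lt (b : ℝ) :
    volume {ζ : ℂ | ‖ζ‖ ^ 2 < b} = ENNReal.ofReal (Real.pi * b) := by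
  rcases le_or_gt b 0 with hb | hb
  · have h1 : {ζ : ℂ | ‖ζ‖ ^ 2 < b} = ∅ := by
      ext ζ
      simp only [mem_ofPred_eq, mem_empty_iff_false, iff_false, not_lt]
      exact hb.trans (by positivity)
    rw [h1, measure_empty, ENNReal.ofReal_of_nonpos]
    exact mul_nonpos_of_nonneg_of_nonpos Real.pi_pos.le hb
  · have h1 : {ζ : ℂ | ‖ζ‖ ^ 2 < b} = Metric.ball 0 (Real.sqrt b) := by
      ext ζ
      simp only [mem_ofPred_eq, Metric.mem_ball, dist_zero_right]
      rw [Real.lt_sqrt (norm_nonneg _)]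
    rw [h1, Complex.volume_ball, ← ENNReal.ofReal_pow (Real.sqrt_nonneg _), Real.sq_sqrt hb.le,
      mul_comm, ENNReal.ofReal_mul Real.pi_pos.le]
    congr 1
    exact (ENNReal.ofReal_coe_nnreal (p := NNReal.pi)).symm

/-- The areas of the slices. -/
theorem volume_slice {s : ℝ} (hs : 0 < s) (hs1 : s ≤ 1) {c : ℝ} (hc : 0 ≤ c) :
    volume {ζ : ℂ | c + ‖ζ‖ ^ 2 < 1 ∧ c ≤ s * (c + ‖ζ‖ ^ 2)} =
      ENNReal.ofReal (Real.pi * (1 - c / s)) := by
  have h1 : {ζ : ℂ | c + ‖ζ‖ ^ 2 < 1 ∧ c ≤ s * (c + ‖ζ‖ ^ 2)} =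
      {ζ : ℂ | ‖ζ‖ ^ 2 < 1 - c} \ {ζ : ℂ | ‖ζ‖ ^ 2 < c * (1 - s) / s} := by
    ext ζ
    simp only [mem_ofPred_eq, Set.mem_sdiff, not_lt]
    rw [div_le_iff₀ hs]
    constructor
    · rintro ⟨h1, h2⟩
      constructor <;> nlinarith
    · rintro ⟨h1, h2⟩
      constructor <;> nlinarith
  have hcs : 0 ≤ c * (1 - s) / s := div_nonneg (mul_nonneg hc (by linarith)) hs.le
  have hrel : 1 - c / s = (1 - c) - c * (1 - s) / s := by
    field_simp
    ring
  rcases le_or_gt (c * (1 - s) / s) (1 - c) with h | h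
  · rw [h1, measure_sdiff]
    · rw [volume_sq_lt, volume_sq_lt, ← ENNReal.ofReal_sub _ (by positivity), ← mul_sub, hrel]
    · intro ζ hζ
      simp only [mem_ofPred_eq] at hζ ⊢
      linarith
    · refine MeasurableSet.nullMeasurableSet ?_
      exact measurableSet_lt (by fun_prop) measurable_const
    · rw [volume_sq_lt]; exact ENNReal.ofReal_ne_top
  · have h2 : {ζ : ℂ | ‖ζ‖ ^ 2 < 1 - c} \ {ζ : ℂ | ‖ζ‖ ^ 2 < c * (1 - s) / s} = ∅ := by
      ext ζ
      simp only [Set.mem_sdiff, mem_ofPred_eq, not_lt, mem_empty_iff_false, iff_false, not_and,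
        not_le]
      intro h3
      linarith
    rw [h1, h2, measure_empty, ENNReal.ofReal_of_nonpos]
    rw [hrel]
    exact mul_nonpos_of_nonneg_of_nonpos Real.pi_pos.le (by linarith)

/-- The model space `F × ℂ` with the Euclidean norm. -/
abbrev HH (F : Type*) := WithLp 2 (F × ℂ)

omit [InnerProductSpace ℝ F] [FiniteDimensional ℝ F] [MeasurableSpace F] [BorelSpace F] in
theorem hh_norm_sq (w : HH F) : ‖w‖ ^ 2 = ‖w.fst‖ ^ 2 + ‖w.snd‖ ^ 2 :=
  WithLp.prod_norm_sq_eq_of_L2 w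

theorem volume_region {s : ℝ} (hs : 0 < s) (hs1 : s ≤ 1) :
    volume {w : HH F | ‖w‖ < 1 ∧ ‖w.fst‖ ^ 2 ≤ s * ‖w‖ ^ 2} =
      ∫⁻ v : F, ENNReal.ofReal (Real.pi * (1 - ‖v‖ ^ 2 / s)) := by
  have hD : MeasurableSet {p : F × ℂ | ‖p.1‖ ^ 2 + ‖p.2‖ ^ 2 < 1 ∧
      ‖p.1‖ ^ 2 ≤ s * (‖p.1‖ ^ 2 + ‖p.2‖ ^ 2)} := by
    have ha : MeasurableSet {p : F × ℂ | ‖p.1‖ ^ 2 + ‖p.2‖ ^ 2 < 1} :=
      measurableSet_lt (by fun_prop) measurable_const
    have hb : MeasurableSet {p : F × ℂ | ‖p.1‖ ^ 2 ≤ s * (‖p.1‖ ^ 2 + ‖p.2‖ ^ 2)} :=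
      measurableSet_le (by fun_prop) (by fun_prop)
    exact ha.inter hb
  have h1 : {w : HH F | ‖w‖ < 1 ∧ ‖w.fst‖ ^ 2 ≤ s * ‖w‖ ^ 2} =
      (@WithLp.ofLp 2 (F × ℂ)) ⁻¹' {p : F × ℂ | ‖p.1‖ ^ 2 + ‖p.2‖ ^ 2 < 1 ∧
      ‖p.1‖ ^ 2 ≤ s * (‖p.1‖ ^ 2 + ‖p.2‖ ^ 2)} := by
    ext w
    simp only [mem_ofPred_eq, mem_preimage]
    have h2 := hh_norm_sq w
    have h3 : ‖w‖ < 1 ↔ ‖w‖ ^ 2 < 1 := by
      rw [sq_lt_one_iff₀ (norm_nonneg _)]
    rw [h3, h2]
    rfl
  rw [h1, (WithLp.volume_preserving_ofLp F ℂ).measure_preimage hD.nullMeasurableSet,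
    Measure.volume_eq_prod, Measure.prod_apply hD]
  refine lintegral_congr fun v => ?_
  exact volume_slice hs hs1 (c := ‖v‖ ^ 2) (by positivity)

theorem scaling {s : ℝ} (hs : 0 < s) :
    ∫⁻ v : F, ENNReal.ofReal (Real.pi * (1 - ‖v‖ ^ 2 / s)) =
      ENNReal.ofReal (Real.sqrt s ^ Module.finrank ℝ F) *
        ∫⁻ v : F, ENNReal.ofReal (Real.pi * (1 - ‖v‖ ^ 2 / 1)) := by
  have hr : Real.sqrt s ≠ 0 := (Real.sqrt_pos.2 hs).ne'
  have h1 := Measure.map_addHaar_smul (volume : Measure F) (r := (Real.sqrt s)⁻¹) (inv_ne_zero hr)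
  have h2 : ∫⁻ v : F, ENNReal.ofReal (Real.pi * (1 - ‖v‖ ^ 2 / 1))
      ∂(Measure.map (fun x => (Real.sqrt s)⁻¹ • x) (volume : Measure F)) =
      ∫⁻ v : F, ENNReal.ofReal (Real.pi * (1 - ‖v‖ ^ 2 / s)) := by
    rw [lintegral_map (by fun_prop) (by fun_prop)]
    refine lintegral_congr fun v => ?_
    congr 3
    rw [norm_smul, mul_pow, norm_inv, Real.norm_of_nonneg (Real.sqrt_nonneg _), inv_pow,
      Real.sq_sqrt hs.le]
    field_simp
  rw [← h2]
  have h3 : (fun x : F => (Real.sqrt s)⁻¹ • x) = ((Real.sqrt s)⁻¹ • · : F → F) := rfl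
  rw [h3, h1, lintegral_smul_measure]
  rw [smul_eq_mul]
  congr 2
  rw [inv_pow, inv_inv, abs_of_nonneg (by positivity)]

/-- Volume of the cone over a spherical region. -/
theorem volume_cone {s : ℝ} (hs : 0 < s) (hs1 : s ≤ 1) :
    volume {w : HH F | ‖w‖ < 1 ∧ ‖w.fst‖ ^ 2 ≤ s * ‖w‖ ^ 2} =
      ENNReal.ofReal (Real.sqrt s ^ Module.finrank ℝ F) * volume (Metric.ball (0 : HH F) 1) := by
  rw [volume_region hs hs1, scaling hs, ← volume_region one_pos le_rfl]
  congr 2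
  ext w
  simp only [mem_ofPred_eq, Metric.mem_ball, dist_zero_right, one_mul, and_iff_left_iff_imp]
  intro _
  rw [hh_norm_sq]
  have : 0 ≤ ‖w.snd‖ ^ 2 := by positivity
  linarith

end Law


section Sphere

variable {F : Type*} [NormedAddCommGroup F] [InnerProductSpace ℝ F] [FiniteDimensional ℝ F]
  [MeasurableSpace F] [BorelSpace F]

/-- Identification of a law from its distribution function. -/
theorem law_of_cdf {H : Type*} [MeasurableSpace H] (lam : Measure H) [IsFiniteMeasure lam]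
    {T : H → ℝ} (hT : Measurable T) (h1 : ∀ w, T w ≤ 1)
    (hc : ∀ c : ℝ, 0 < c → c ≤ 1 → lam {w | T w ≤ c} = ENNReal.ofReal c * lam univ) :
    lam.map T = lam univ • volume.restrict (Ioc (0:ℝ) 1) := by
  have hfin : IsFiniteMeasure (lam.map T) := inferInstance
  refine Measure.ext_of_Iic _ _ fun c => ?_
  rw [Measure.map_apply hT measurableSet_Iic, Measure.smul_apply, smul_eq_mul,
    Measure.restrict_apply measurableSet_Iic]
  have hset : T ⁻¹' Iic c = {w | T w ≤ c} := rfl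
  rw [hset]
  rcases le_or_gt c 0 with h0 | h0
  · have e1 : Iic c ∩ Ioc (0:ℝ) 1 = ∅ := by
      ext x
      simp only [mem_inter_iff, mem_Iic, mem_Ioc, mem_empty_iff_false, iff_false]
      rintro ⟨h2, h3, _⟩
      linarith
    rw [e1, measure_empty, mul_zero]
    -- the mass is below every `ε`
    have e2 : ∀ n : ℕ, lam {w | T w ≤ c} ≤ ENNReal.ofReal (1 / ((n:ℝ) + 1)) * lam univ := by
      intro n
      rw [← hc _ (by positivity) (by
        rw [div_le_one (by positivity)]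
        linarith [(Nat.cast_nonneg n : (0:ℝ) ≤ n)])]
      apply measure_mono
      intro w hw
      have h3 : T w ≤ c := hw
      have h4 : (0:ℝ) < 1 / ((n:ℝ) + 1) := by positivity
      exact (h3.trans h0).trans h4.le
    have e3 : Tendsto (fun n : ℕ => ENNReal.ofReal (1 / ((n:ℝ) + 1)) * lam univ) atTop (𝓝 0) := by
      have e4 : Tendsto (fun n : ℕ => ENNReal.ofReal (1 / ((n:ℝ) + 1))) atTop (𝓝 0) := by
        have := ENNReal.tendsto_ofReal (tendsto_one_div_add_atTop_nhds_zero_nat (𝕜 := ℝ))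
        simpa using this
      have := ENNReal.Tendsto.mul_const e4 (Or.inr (measure_ne_top lam univ))
      simpa using this
    exact le_antisymm (ge_of_tendsto' e3 e2) bot_le
  · rcases le_or_gt c 1 with h2 | h2
    · rw [hc c h0 h2]
      have e1 : Iic c ∩ Ioc (0:ℝ) 1 = Ioc 0 c := by
        ext x
        simp only [mem_inter_iff, mem_Iic, mem_Ioc]
        constructor
        · rintro ⟨h3, h4, _⟩; exact ⟨h4, h3⟩
        · rintro ⟨h3, h4⟩; exact ⟨h4, h3, h4.trans h2⟩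
      rw [e1, Real.volume_Ioc, sub_zero, mul_comm]
    · have e1 : Iic c ∩ Ioc (0:ℝ) 1 = Ioc 0 1 := by
        apply inter_eq_right.2
        intro x hx
        exact hx.2.trans h2.le
      have e2 : {w | T w ≤ c} = univ := by
        ext w
        simp only [mem_ofPred_eq, mem_univ, iff_true]
        exact (h1 w).trans h2.le
      rw [e1, e2, Real.volume_Ioc]
      simp

/-- Lebesgue measure on the unit ball. -/
noncomputable def bm (F : Type*) [NormedAddCommGroup F] [InnerProductSpace ℝ F]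
    [FiniteDimensional ℝ F] [MeasurableSpace F] [BorelSpace F] : Measure (HH F) :=
  volume.restrict (Metric.ball (0 : HH F) 1)

instance : IsFiniteMeasure (bm F) := ⟨by
  unfold bm
  rw [Measure.restrict_apply_univ]
  exact measure_ball_lt_top⟩

theorem bm_univ_ne_top : bm F univ ≠ ∞ := measure_ne_top _ _

theorem bm_univ_pos : bm F univ ≠ 0 := by
  unfold bm
  rw [Measure.restrict_apply_univ]
  exact (Metric.measure_ball_pos volume _ one_pos).ne'

theorem bm_cone {s : ℝ} (hs : 0 < s) (hs1 : s ≤ 1) :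
    bm F {w : HH F | ‖w.fst‖ ^ 2 ≤ s * ‖w‖ ^ 2} =
      ENNReal.ofReal (Real.sqrt s ^ Module.finrank ℝ F) * bm F univ := by
  unfold bm
  have hm : MeasurableSet {w : HH F | ‖w.fst‖ ^ 2 ≤ s * ‖w‖ ^ 2} := by
    apply measurableSet_le <;> fun_prop
  rw [Measure.restrict_apply hm, Measure.restrict_apply_univ, ← volume_cone hs hs1]
  congr 1
  ext w
  simp only [mem_inter_iff, mem_ofPred_eq, Metric.mem_ball, dist_zero_right]
  tauto

omit [InnerProductSpace ℝ F] [FiniteDimensional ℝ F] [MeasurableSpace F] [BorelSpace F] in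
theorem hh_fst_le (w : HH F) : ‖w.fst‖ ≤ ‖w‖ := by
  have h := hh_norm_sq w
  have h1 : 0 ≤ ‖w.snd‖ ^ 2 := by positivity
  exact (sq_le_sq₀ (norm_nonneg _) (norm_nonneg _)).1 (by linarith)

end Sphere

end Pool.Agent.H42.Cap
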