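import Pool.Agent.H42.CapRings

/-!
# The explicit competitors in dimensions three and four
-/

open MeasureTheory Set Filter Topology Function
open scoped ENNReal Real

namespace Pool.Agent.H42.Cap

theorem ee_le {A p s : ℝ} (hA : 0 < A) (hs : 0 ≤ s) (h : s ^ 2 + 4 * p ^ 2 ≤ A ^ 2) :
    ee A p ≤ 1 / 2 * (Real.log 8 - Real.log (A + s)) := by
  have h1 : s ≤ √(A ^ 2 - 4 * p ^ 2) := Real.le_sqrt_of_sq_le (by linarith)
  have h2 : Real.log (A + s) ≤ Real.log (A + √(A ^ 2 - 4 * p ^ 2)) :=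
    Real.log_le_log (by linarith) (by linarith)
  have h3 : Real.log ((A + √(A ^ 2 - 4 * p ^ 2)) / 2) =
      Real.log (A + √(A ^ 2 - 4 * p ^ 2)) - Real.log 2 := by
    rw [Real.log_div (by positivity) (by norm_num)]
  have h4 : Real.log 8 = 3 * Real.log 2 := by
    have : (8:ℝ) = 2 ^ 3 := by norm_num
    rw [this, Real.log_pow]; push_cast; ring
  unfold ee
  rw [h3, h4]
  linarith

/-! ### Dimension three -/

def zz : Fin 7 → ℤ := ![-301, 0, 307, 674, 1022, 1347, 1593]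
def rr : Fin 7 → ℤ := ![433, 1000, 976, 883, 719, 478, 209]
def kk : Fin 7 → ℕ := ![1, 10, 2, 2, 2, 2, 2]
def ss : Fin 7 → Fin 7 → ℤ := ![
      ![0, 939000, 1250000, 1758000, 2374000, 3104000, 3814000],
      ![939000, 0, 615000, 1368000, 2119000, 2888000, 3556000],
      ![1250000, 615000, 0, 717000, 1397000, 2061000, 2618000],
      ![1758000, 1368000, 717000, 0, 630000, 1192000, 1626000],
      ![2374000, 2119000, 1397000, 630000, 0, 501000, 834000],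
      ![3104000, 2888000, 2061000, 1192000, 501000, 0, 265000],
      ![3814000, 3556000, 2618000, 1626000, 834000, 265000, 0]]

def aa (i j : Fin 7) : ℤ := rr i ^ 2 + rr j ^ 2 + (zz i - zz j) ^ 2

theorem rr_pos : ∀ i, 0 < rr i := by decide +kernel
theorem ss_nonneg : ∀ i j, 0 ≤ ss i j := by decide +kernel
theorem aa_pos : ∀ i j, 0 < aa i j := by decide +kernel
theorem ss_le : ∀ i j, ss i j ^ 2 + 4 * (rr i * rr j) ^ 2 ≤ aa i j ^ 2 := by decide +kernel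
theorem rr_diam : ∀ i j, (rr i + rr j) ^ 2 + (zz i - zz j) ^ 2 ≤ 4000000 := by decide +kernel
theorem kk_sum : ∑ i, kk i = 21 := by decide +kernel

/-- The numerical inequality. -/
theorem num3 : (8 * 10 ^ 6 : ℤ) ^ 441 * (10 ^ 10) ^ 441 <
    (∏ i, ∏ j, (aa i j + ss i j) ^ (kk i * kk j)) * (27182818283 : ℤ) ^ 441 := by
  decide +kernel

/-- Centres, radii and weights of the circles. -/
noncomputable def u3 (i : Fin 7) : ℝ := (zz i : ℝ) / 1000
noncomputable def ρ3 (i : Fin 7) : ℝ := (rr i : ℝ) / 1000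
noncomputable def w3 (i : Fin 7) : ℝ := (kk i : ℝ) / 21

theorem ρ3_pos (i : Fin 7) : 0 < ρ3 i := by
  have h : (0:ℝ) < (rr i : ℝ) := by exact_mod_cast rr_pos i
  unfold ρ3
  positivity

theorem w3_nonneg (i : Fin 7) : 0 ≤ w3 i := by
  unfold w3
  positivity

theorem w3_sum : ∑ i, w3 i = 1 := by
  have h : (∑ i, (kk i : ℝ)) = 21 := by exact_mod_cast kk_sum
  unfold w3
  rw [← Finset.sum_div, h]
  norm_num

theorem d3 (i j : Fin 7) : (ρ3 i + ρ3 j) ^ 2 + ‖u3 i - u3 j‖ ^ 2 ≤ 4 := by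
  have h : ((rr i : ℝ) + rr j) ^ 2 + ((zz i : ℝ) - zz j) ^ 2 ≤ 4000000 := by
    exact_mod_cast rr_diam i j
  rw [Real.norm_eq_abs, sq_abs]
  unfold ρ3 u3
  have h1 : ((rr i : ℝ) / 1000 + (rr j : ℝ) / 1000) ^ 2 + ((zz i : ℝ) / 1000 - (zz j : ℝ) / 1000) ^ 2
      = (((rr i : ℝ) + rr j) ^ 2 + ((zz i : ℝ) - zz j) ^ 2) / 1000000 := by ring
  rw [h1]
  linarith

theorem ee3_le (i j : Fin 7) :
    ee (ρ3 i ^ 2 + ρ3 j ^ 2 + ‖u3 i - u3 j‖ ^ 2) (ρ3 i * ρ3 j) ≤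
      1 / 2 * (Real.log (8 * 10 ^ 6) - Real.log ((aa i j + ss i j : ℤ) : ℝ)) := by
  have ha : (0:ℝ) < (aa i j : ℝ) := by exact_mod_cast aa_pos i j
  have hs : (0:ℝ) ≤ (ss i j : ℝ) := by exact_mod_cast ss_nonneg i j
  have hle : (ss i j : ℝ) ^ 2 + 4 * ((rr i : ℝ) * rr j) ^ 2 ≤ (aa i j : ℝ) ^ 2 := by
    exact_mod_cast ss_le i j
  have hA : ρ3 i ^ 2 + ρ3 j ^ 2 + ‖u3 i - u3 j‖ ^ 2 = (aa i j : ℝ) / 10 ^ 6 := by
    rw [Real.norm_eq_abs, sq_abs]
    unfold ρ3 u3 aa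
    push_cast
    ring
  have hp : ρ3 i * ρ3 j = ((rr i : ℝ) * rr j) / 10 ^ 6 := by
    unfold ρ3
    ring
  rw [hA, hp]
  refine (ee_le (s := (ss i j : ℝ) / 10 ^ 6) (by positivity) (by positivity) ?_).trans (le_of_eq ?_)
  · rw [div_pow, div_pow, div_pow]
    have h6 : (0:ℝ) < (10 ^ 6) ^ 2 := by positivity
    rw [← mul_div_assoc, ← add_div]
    exact div_le_div_of_nonneg_right hle h6.le
  · have h1 : (aa i j : ℝ) / 10 ^ 6 + (ss i j : ℝ) / 10 ^ 6 =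
        ((aa i j + ss i j : ℤ) : ℝ) / 10 ^ 6 := by
      push_cast
      ring
    have h2 : ((aa i j + ss i j : ℤ) : ℝ) ≠ 0 := by
      push_cast
      positivity
    rw [h1, Real.log_div h2 (by norm_num), Real.log_mul (by norm_num) (by norm_num)]
    ring

theorem sum3_lt : ∑ i, ∑ j, w3 i * w3 j *
    ee (ρ3 i ^ 2 + ρ3 j ^ 2 + ‖u3 i - u3 j‖ ^ 2) (ρ3 i * ρ3 j) < 1 / 2 := by
  have h1 : ∑ i, ∑ j, w3 i * w3 j *
      ee (ρ3 i ^ 2 + ρ3 j ^ 2 + ‖u3 i - u3 j‖ ^ 2) (ρ3 i * ρ3 j) ≤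
      ∑ i, ∑ j, w3 i * w3 j *
        (1 / 2 * (Real.log (8 * 10 ^ 6) - Real.log ((aa i j + ss i j : ℤ) : ℝ))) := by
    refine Finset.sum_le_sum fun i _ => Finset.sum_le_sum fun j _ => ?_
    exact mul_le_mul_of_nonneg_left (ee3_le i j) (mul_nonneg (w3_nonneg i) (w3_nonneg j))
  refine lt_of_le_of_lt h1 ?_
  have h2 : ∑ i, ∑ j, w3 i * w3 j *
        (1 / 2 * (Real.log (8 * 10 ^ 6) - Real.log ((aa i j + ss i j : ℤ) : ℝ))) =
      1 / 2 * Real.log (8 * 10 ^ 6) * (∑ i, w3 i) * (∑ j, w3 j) -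
        1 / 882 * ∑ i, ∑ j, ((kk i * kk j : ℕ) : ℝ) * Real.log ((aa i j + ss i j : ℤ) : ℝ) := by
    rw [mul_assoc, Finset.sum_mul_sum, Finset.mul_sum, Finset.mul_sum, ← Finset.sum_sub_distrib]
    refine Finset.sum_congr rfl fun i _ => ?_
    rw [Finset.mul_sum, Finset.mul_sum, ← Finset.sum_sub_distrib]
    refine Finset.sum_congr rfl fun j _ => ?_
    unfold w3
    push_cast
    ring
  have hpos : ∀ i j, (0:ℝ) < ((aa i j + ss i j : ℤ) : ℝ) := by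
    intro i j
    have := aa_pos i j
    have := ss_nonneg i j
    exact_mod_cast (by omega : 0 < aa i j + ss i j)
  have h3 : ∑ i, ∑ j, ((kk i * kk j : ℕ) : ℝ) * Real.log ((aa i j + ss i j : ℤ) : ℝ) =
      Real.log (∏ i, ∏ j, ((aa i j + ss i j : ℤ) : ℝ) ^ (kk i * kk j)) := by
    rw [Real.log_prod (fun i _ => (Finset.prod_pos fun j _ => pow_pos (hpos i j) _).ne')]
    refine Finset.sum_congr rfl fun i _ => ?_
    rw [Real.log_prod (fun j _ => (pow_pos (hpos i j) _).ne')]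
    refine Finset.sum_congr rfl fun j _ => ?_
    rw [Real.log_pow]
  have h4 : (8 * 10 ^ 6 : ℝ) ^ 441 * (10 ^ 10) ^ 441 <
      (∏ i, ∏ j, ((aa i j + ss i j : ℤ) : ℝ) ^ (kk i * kk j)) * (27182818283 : ℝ) ^ 441 := by
    exact_mod_cast num3
  have hP : 0 < ∏ i, ∏ j, ((aa i j + ss i j : ℤ) : ℝ) ^ (kk i * kk j) :=
    Finset.prod_pos fun i _ => Finset.prod_pos fun j _ => pow_pos (hpos i j) _
  have h5 := Real.log_lt_log (by positivity) h4
  rw [Real.log_mul (by positivity) (by positivity), Real.log_mul hP.ne' (by positivity),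
    Real.log_pow (8 * 10 ^ 6) 441, Real.log_pow (10 ^ 10) 441, Real.log_pow 27182818283 441,
    Nat.cast_ofNat] at h5
  have h6 : Real.log 27182818283 < 1 + Real.log (10 ^ 10) := by
    have h7 : (27182818283:ℝ) = 2.7182818283 * 10 ^ 10 := by norm_num
    rw [h7, Real.log_mul (by norm_num) (by norm_num)]
    have h8 : Real.log 2.7182818283 < 1 := by
      rw [Real.log_lt_iff_lt_exp (by norm_num)]
      exact Real.exp_one_gt_d9
    linarith
  rw [h2, w3_sum, h3]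
  generalize Real.log (8 * 10 ^ 6) = L1 at h5 ⊢
  generalize Real.log (10 ^ 10) = L2 at h5 h6
  generalize Real.log 27182818283 = L3 at h5 h6
  generalize Real.log (∏ i, ∏ j, ((aa i j + ss i j : ℤ) : ℝ) ^ (kk i * kk j)) = L4 at h5 ⊢
  linarith

/-! ### Dimension four -/

noncomputable def u4 : Fin 3 → ℂ := ![0, ⟨1, √3 / 2⟩, ⟨1, -(√3 / 2)⟩]
noncomputable def ρ4 : Fin 3 → ℝ := ![1, 1 / 2, 1 / 2]
noncomputable def w4 : Fin 3 → ℝ := ![1 / 2, 1 / 4, 1 / 4]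
/-- Squared distances of the centres. -/
noncomputable def D4 : Fin 3 → Fin 3 → ℝ := ![![0, 7 / 4, 7 / 4], ![7 / 4, 0, 3], ![7 / 4, 3, 0]]
/-- Lower bounds for the square roots. -/
noncomputable def s4 : Fin 3 → Fin 3 → ℝ :=
  ![![0, 14 / 5, 14 / 5], ![14 / 5, 0, 17 / 5], ![14 / 5, 17 / 5, 0]]

theorem norm_u4 (i j : Fin 3) : ‖u4 i - u4 j‖ ^ 2 = D4 i j := by
  have h3 : √3 * √3 = (3:ℝ) := Real.mul_self_sqrt (by norm_num)
  rw [← Complex.normSq_eq_norm_sq, Complex.normSq_apply]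
  fin_cases i <;> fin_cases j <;> simp [u4, D4] <;> nlinarith [h3]

theorem ρ4_pos (i : Fin 3) : 0 < ρ4 i := by
  fin_cases i <;> simp [ρ4]

theorem w4_nonneg (i : Fin 3) : 0 ≤ w4 i := by
  fin_cases i <;> simp [w4]

theorem w4_sum : ∑ i, w4 i = 1 := by
  simp [w4, Fin.sum_univ_three]
  norm_num

theorem d4 (i j : Fin 3) : (ρ4 i + ρ4 j) ^ 2 + ‖u4 i - u4 j‖ ^ 2 ≤ 4 := by
  rw [norm_u4]
  fin_cases i <;> fin_cases j <;> simp [ρ4, D4] <;> norm_num

theorem sum4_lt : ∑ i, ∑ j, w4 i * w4 j *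
    ee (ρ4 i ^ 2 + ρ4 j ^ 2 + ‖u4 i - u4 j‖ ^ 2) (ρ4 i * ρ4 j) < Real.log 2 - 1 / 4 := by
  have hb : ∀ i j, ee (ρ4 i ^ 2 + ρ4 j ^ 2 + ‖u4 i - u4 j‖ ^ 2) (ρ4 i * ρ4 j) ≤
      1 / 2 * (Real.log 8 - Real.log (ρ4 i ^ 2 + ρ4 j ^ 2 + D4 i j + s4 i j)) := by
    intro i j
    rw [norm_u4]
    apply ee_le
    · fin_cases i <;> fin_cases j <;> simp [ρ4, D4] <;> norm_num
    · fin_cases i <;> fin_cases j <;> simp [s4] <;> norm_num
    · fin_cases i <;> fin_cases j <;> simp [ρ4, D4, s4] <;> norm_num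
  have h1 : ∑ i, ∑ j, w4 i * w4 j *
      ee (ρ4 i ^ 2 + ρ4 j ^ 2 + ‖u4 i - u4 j‖ ^ 2) (ρ4 i * ρ4 j) ≤
      ∑ i, ∑ j, w4 i * w4 j *
        (1 / 2 * (Real.log 8 - Real.log (ρ4 i ^ 2 + ρ4 j ^ 2 + D4 i j + s4 i j))) := by
    refine Finset.sum_le_sum fun i _ => Finset.sum_le_sum fun j _ => ?_
    exact mul_le_mul_of_nonneg_left (hb i j) (mul_nonneg (w4_nonneg i) (w4_nonneg j))
  refine lt_of_le_of_lt h1 ?_
  simp only [Fin.sum_univ_three, w4, ρ4, D4, s4]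
  simp
  norm_num
  have e8 : Real.log 8 = 3 * Real.log 2 := by
    have : (8:ℝ) = 2 ^ 3 := by norm_num
    rw [this, Real.log_pow]; push_cast; ring
  have e2 : Real.log (1 / 2) = - Real.log 2 := by
    rw [one_div, Real.log_inv]
  have key : 7 * Real.log 2 + 4 < 4 * Real.log (29 / 5) + Real.log (69 / 10) := by
    have e4 : Real.exp 4 < 2.7182818286 ^ 4 := by
      have : Real.exp 4 = Real.exp 1 ^ 4 := by
        rw [← Real.exp_nat_mul]; norm_num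
      rw [this]
      exact pow_lt_pow_left₀ Real.exp_one_lt_d9 (Real.exp_pos 1).le (by norm_num)
    have e5 : Real.exp 4 * 2 ^ 7 < (29 / 5) ^ 4 * (69 / 10) := by
      refine lt_trans (mul_lt_mul_of_pos_right e4 (by norm_num)) ?_
      norm_num
    have e6 := Real.log_lt_log (by positivity) e5
    rw [Real.log_mul (Real.exp_pos 4).ne' (by norm_num), Real.log_exp, Real.log_pow,
      Real.log_mul (by norm_num) (by norm_num), Real.log_pow] at e6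
    push_cast at e6
    linarith
  rw [e8, e2]
  linarith

end Pool.Agent.H42.Cap
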