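import Pool.Agent.H42.ErgTower

/-!
# Approximating one zero-type automorphism by conjugates of another
-/

open MeasureTheory Set Filter Topology Function
open scoped ENNReal

namespace Pool.Agent.H42.Erg

variable {X : Type*} [MeasurableSpace X]

/-- A tower for `S` that covers `A` up to `ε` and whose first and last `n₀` levels meet `A` in a
set of measure at most `ε`. -/
theorem exists_tower_ends [StandardBorelSpace X] {μ : Measure X} (S : Equiv.Perm X)
    (hS : ∀ n : ℤ, MeasurePreserving (S ^ n) μ μ)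
    (haper : ∀ j : ℤ, 1 ≤ j → μ {x | (S ^ j) x = x} = 0) {A : Set X} (hA : MeasurableSet A)
    (hAfin : μ A ≠ ∞) (n₀ : ℕ) {ε : ℝ≥0∞} (hε : ε ≠ 0) :
    ∃ (L : ℕ) (E : Set X), 1 ≤ L ∧ n₀ ≤ L ∧ MeasurableSet E ∧ Sep S ((L : ℤ) - 1) E ∧
      μ {x | x ∈ A ∧ ∀ j : ℤ, 0 ≤ j → j < L → (S ^ (-j)) x ∉ E} ≤ ε ∧
      μ {x | x ∈ A ∧ ∃ j : ℤ, 0 ≤ j ∧ j < L ∧ (j < n₀ ∨ (L : ℤ) - n₀ ≤ j) ∧
        (S ^ (-j)) x ∈ E} ≤ ε := by
  classical
  have hSm : ∀ n : ℤ, Measurable (S ^ n) := fun n => (hS n).measurable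
  obtain ⟨L, hL1, hLn, hL⟩ : ∃ L : ℕ, 1 ≤ L ∧ n₀ ≤ L ∧ (2 * n₀ : ℕ) * μ A ≤ L * ε := by
    rcases eq_or_ne ε ∞ with rfl | hεt
    · refine ⟨n₀ + 1, by omega, by omega, ?_⟩
      rw [ENNReal.mul_top (by positivity)]
      exact le_top
    · obtain ⟨q, hq⟩ := ENNReal.exists_nat_gt (ENNReal.div_ne_top
        (ENNReal.mul_ne_top (ENNReal.natCast_ne_top (2 * n₀)) hAfin) hε)
      refine ⟨q + n₀ + 1, by omega, by omega, ?_⟩
      calc ((2 * n₀ : ℕ) : ℝ≥0∞) * μ A = ((2 * n₀ : ℕ) : ℝ≥0∞) * μ A / ε * ε :=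
            (ENNReal.div_mul_cancel hε hεt).symm
        _ ≤ (q + n₀ + 1 : ℕ) * ε := by
            gcongr
            refine hq.le.trans ?_
            exact_mod_cast (by omega : q ≤ q + n₀ + 1)
  let A' : Set X := ⋃ s ∈ Finset.range L, (S ^ (s : ℤ)) ⁻¹' A
  have hA'm : MeasurableSet A' := Finset.measurableSet_biUnion _ fun s _ => hSm _ hA
  have hA'fin : μ A' ≠ ∞ := by
    refine (lt_of_le_of_lt (measure_biUnion_finset_le _ _) (ENNReal.sum_lt_top.2 ?_)).ne
    intro s _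
    rw [(hS _).measure_preimage hA.nullMeasurableSet]
    exact lt_top_iff_ne_top.2 hAfin
  obtain ⟨E, hEm, hEsep, hEcov⟩ := exists_tower S hS haper hA'm hA'fin L hL1 hε
  -- end levels
  let J : Finset ℤ := (Finset.Ico (0:ℤ) L).filter fun j => j < n₀ ∨ (L:ℤ) - n₀ ≤ j
  have hJcard : (J.card : ℝ≥0∞) ≤ (2 * n₀ : ℕ) := by
    have hsub : J ⊆ Finset.Ico (0:ℤ) n₀ ∪ Finset.Ico ((L:ℤ) - n₀) L := by
      intro j hj
      rw [Finset.mem_filter, Finset.mem_Ico] at hj
      rw [Finset.mem_union, Finset.mem_Ico, Finset.mem_Ico]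
      omega
    have h1 := (Finset.card_le_card hsub).trans (Finset.card_union_le _ _)
    rw [Int.card_Ico, Int.card_Ico] at h1
    have h2 : J.card ≤ 2 * n₀ := by omega
    exact_mod_cast h2
  let Z : ℕ → Set X := fun s => ⋃ j ∈ J, (A ∩ (S ^ (-(j + s))) ⁻¹' E)
  obtain ⟨s, hsL, hs⟩ : ∃ s ∈ Finset.range L, μ (Z s) ≤ ε := by
    by_contra hcon
    push Not at hcon
    have h1 : ∑ s ∈ Finset.range L, μ (Z s) ≤ (2 * n₀ : ℕ) * μ A := by
      calc ∑ s ∈ Finset.range L, μ (Z s)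
          ≤ ∑ s ∈ Finset.range L, ∑ j ∈ J, μ (A ∩ (S ^ (-(j + s))) ⁻¹' E) :=
            Finset.sum_le_sum fun s _ => measure_biUnion_finset_le _ _
        _ = ∑ j ∈ J, ∑ s ∈ Finset.range L, μ (A ∩ (S ^ (-(j + s))) ⁻¹' E) := Finset.sum_comm
        _ ≤ ∑ j ∈ J, μ A := by
            refine Finset.sum_le_sum fun j _ => ?_
            rw [← measure_biUnion_finset]
            · exact measure_mono (iUnion₂_subset fun _ _ => inter_subset_left)
            · intro a ha b hb hab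
              rw [Finset.coe_range, mem_Iio] at ha hb
              rw [Function.onFun, Set.disjoint_left]
              rintro x ⟨_, hxa⟩ ⟨_, hxb⟩
              have := hEsep.eq_of hxa hxb (by omega) (by omega)
              apply hab
              omega
            · intro a _
              exact hA.inter (hSm _ hEm)
        _ = J.card * μ A := by rw [Finset.sum_const, nsmul_eq_mul]
        _ ≤ (2 * n₀ : ℕ) * μ A := by gcongr
    have h2 : ∑ _s ∈ Finset.range L, ε < ∑ s ∈ Finset.range L, μ (Z s) :=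
      ENNReal.sum_lt_sum_of_nonempty (Finset.nonempty_range_iff.2 (by omega))
        fun s hs => hcon s hs
    rw [Finset.sum_const, Finset.card_range, nsmul_eq_mul] at h2
    exact absurd (h2.trans_le h1) (not_lt.2 hL)
  rw [Finset.mem_range] at hsL
  refine ⟨L, (S ^ (-(s:ℤ))) ⁻¹' E, hL1, hLn, hSm _ hEm, ?_, ?_, ?_⟩
  · intro j hj1 hj2 x hx hx'
    rw [mem_preimage] at hx hx'
    rw [zpow_apply_add] at hx'
    have := hEsep j hj1 hj2 _ hx
    rw [zpow_apply_add] at this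
    exact this (by rwa [add_comm])
  · have hWm : MeasurableSet {x | x ∈ A' ∧ ∀ j : ℤ, 0 ≤ j → j < L → (S ^ (-j)) x ∉ E} := by
      have : {x | x ∈ A' ∧ ∀ j : ℤ, 0 ≤ j → j < L → (S ^ (-j)) x ∉ E} =
          A' ∩ ⋂ j ∈ Finset.Ico (0:ℤ) L, ((S ^ (-j)) ⁻¹' E)ᶜ := by
        ext x
        simp only [mem_ofPred_eq, mem_inter_iff, mem_iInter, Finset.mem_Ico, mem_compl_iff,
          mem_preimage, and_imp]
      rw [this]
      exact hA'm.inter (Finset.measurableSet_biInter _ fun j _ => (hSm _ hEm).compl)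
    refine le_trans ?_ (((hS (-(s:ℤ))).measure_preimage hWm.nullMeasurableSet).le.trans hEcov)
    apply measure_mono
    rintro x ⟨hxA, hx⟩
    refine ⟨mem_iUnion₂.2 ⟨s, Finset.mem_range.2 hsL, ?_⟩, ?_⟩
    · rw [mem_preimage, zpow_apply_add]
      simpa using hxA
    · intro j hj1 hj2 hxE
      apply hx j hj1 hj2
      rw [mem_preimage, zpow_apply_add]
      rw [zpow_apply_add] at hxE
      rwa [add_comm]
  · refine le_trans (measure_mono ?_) hs
    rintro x ⟨hxA, j, hj1, hj2, hj3, hxE⟩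
    refine mem_iUnion₂.2 ⟨j, Finset.mem_filter.2 ⟨Finset.mem_Ico.2 ⟨hj1, hj2⟩, hj3⟩, hxA, ?_⟩
    rw [mem_preimage, zpow_apply_add] at hxE
    rw [mem_preimage]
    have he : -(j + (s:ℤ)) = -(s:ℤ) + -j := by ring
    rw [he]; exact hxE

/-- The main approximation. -/
theorem exists_conj_approx [StandardBorelSpace X] {μ : Measure X} [SigmaFinite μ]
    [NullSingletonClass μ] (hμ : μ univ = ∞) (S T : Equiv.Perm X)
    (hS : ∀ n : ℤ, MeasurePreserving (S ^ n) μ μ) (hT : ∀ n : ℤ, MeasurePreserving (T ^ n) μ μ)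
    (hzS : ZeroType μ S) (hzT : ZeroType μ T) {A : Set X} (hA : MeasurableSet A)
    (hAfin : μ A ≠ ∞) {ε : ℝ≥0∞} (hε : ε ≠ 0) :
    ∃ R : Equiv.Perm X, MeasurePreserving R μ μ ∧ MeasurePreserving R.symm μ μ ∧
      (∀ n : ℤ, n = 1 ∨ n = -1 → μ {x | x ∈ A ∧ ((R⁻¹ * T * R) ^ n) x ≠ (S ^ n) x} ≤ ε) ∧
      ∀ n : ℕ, 1 ≤ n →
        μ {x | x ∈ A ∧ ((R⁻¹ * T * R) ^ n) x ≠ (S ^ n) x} ≤ ε ∨
        (μ {x | x ∈ A ∧ (S ^ n) x ∈ A} ≤ ε ∧ μ {x | x ∈ A ∧ ((R⁻¹ * T * R) ^ n) x ∈ A} ≤ ε) := by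
  classical
  rcases le_or_gt (μ A) ε with hsmall | hbig
  · refine ⟨1, MeasurePreserving.id μ, MeasurePreserving.id μ, ?_, ?_⟩
    · intro n _
      exact (measure_mono fun x hx => hx.1).trans hsmall
    · intro n _
      exact Or.inl ((measure_mono fun x hx => hx.1).trans hsmall)
  have hεt : ε ≠ ∞ := fun h => by rw [h] at hbig; exact absurd hbig (not_lt.2 le_top)
  set η : ℝ≥0∞ := ε / 4 with hη
  have hη0 : η ≠ 0 := (ENNReal.div_pos hε (by simp)).ne'
  have h4η : η + η + η + η = ε := by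
    have : η + η + η + η = 4 * η := by ring
    rw [this, hη, ENNReal.mul_div_cancel (by simp) (by simp)]
  have h2η : η + η ≤ ε := by
    rw [← h4η]
    rw [add_assoc (η + η)]
    exact le_self_add
  have h1η : η ≤ ε := le_trans le_self_add h2η
  obtain ⟨n₁, hn₁⟩ := hzS A A hA hA hAfin hAfin η hη0
  let n₀ := n₁ + 1
  obtain ⟨L, E₀, hL1, hLn, hE₀m, hE₀sep, hcov, hends⟩ :=
    exists_tower_ends S hS (hzS.aperiodic hS) hA hAfin n₀ hη0
  let E : Set X := E₀ ∩ ⋃ j ∈ Finset.range L, (S ^ (j:ℤ)) ⁻¹' A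
  have hEm : MeasurableSet E := hE₀m.inter
    (Finset.measurableSet_biUnion _ fun j _ => (hS _).measurable hA)
  have hEsep : Sep S ((L:ℤ) - 1) E := hE₀sep.subset inter_subset_left
  have hEfin : μ E ≠ ∞ := by
    refine (lt_of_le_of_lt (measure_mono inter_subset_right)
      (lt_of_le_of_lt (measure_biUnion_finset_le _ _) (ENNReal.sum_lt_top.2 ?_))).ne
    intro j _
    rw [(hS _).measure_preimage hA.nullMeasurableSet]
    exact lt_top_iff_ne_top.2 hAfin
  -- membership in `E` from membership in `E₀`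
  have hEmem : ∀ x ∈ A, ∀ j : ℤ, 0 ≤ j → j < L → (S ^ (-j)) x ∈ E₀ → (S ^ (-j)) x ∈ E := by
    intro x hx j hj1 hj2 hxE
    refine ⟨hxE, mem_iUnion₂.2 ⟨j.toNat, Finset.mem_range.2 (by omega), ?_⟩⟩
    rw [mem_preimage, zpow_apply_add]
    have : ((j.toNat : ℕ) : ℤ) + -j = 0 := by omega
    rw [this]; simpa using hx
  let Left : Set X := {x | x ∈ A ∧ ∀ j : ℤ, 0 ≤ j → j < L → (S ^ (-j)) x ∉ E₀}
  let Ends : Set X := {x | x ∈ A ∧ ∃ j : ℤ, 0 ≤ j ∧ j < L ∧ (j < n₀ ∨ (L : ℤ) - n₀ ≤ j) ∧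
        (S ^ (-j)) x ∈ E₀}
  have hLeft : μ Left ≤ η := hcov
  have hEnds : μ Ends ≤ η := hends
  have hLeftm : MeasurableSet Left := by
    have : Left = A ∩ ⋂ j ∈ Finset.Ico (0:ℤ) L, ((S ^ (-j)) ⁻¹' E₀)ᶜ := by
      ext x
      simp only [Left, mem_ofPred_eq, mem_inter_iff, mem_iInter, Finset.mem_Ico, mem_compl_iff,
          mem_preimage, and_imp]
    rw [this]
    exact hA.inter (Finset.measurableSet_biInter _ fun j _ => ((hS _).measurable hE₀m).compl)
  have hEpos : 0 < μ E := by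
    by_contra hcon
    have hE0 : μ E = 0 := by simpa using hcon
    have h1 : A ⊆ Left ∪ ⋃ j ∈ Finset.Ico (0:ℤ) L, (S ^ (-j)) ⁻¹' E := by
      intro x hx
      by_cases hxL : x ∈ Left
      · exact Or.inl hxL
      · right
        have : ∃ j : ℤ, 0 ≤ j ∧ j < L ∧ (S ^ (-j)) x ∈ E₀ := by
          by_contra hc
          push Not at hc
          exact hxL ⟨hx, hc⟩
        obtain ⟨j, h1, h2, h3⟩ := this
        exact mem_iUnion₂.2 ⟨j, Finset.mem_Ico.2 ⟨h1, h2⟩, hEmem x hx j h1 h2 h3⟩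
    have h2 : μ (⋃ j ∈ Finset.Ico (0:ℤ) L, (S ^ (-j)) ⁻¹' E) = 0 := by
      refine (measure_biUnion_null_iff (Finset.countable_toSet (Finset.Ico (0:ℤ) L))).2 ?_
      intro j _
      rw [(hS _).measure_preimage hEm.nullMeasurableSet, hE0]
    have h3 : μ A ≤ ε := by
      calc μ A ≤ μ Left + μ (⋃ j ∈ Finset.Ico (0:ℤ) L, (S ^ (-j)) ⁻¹' E) :=
            (measure_mono h1).trans (measure_union_le _ _)
        _ ≤ η + 0 := by rw [h2]; gcongr
        _ ≤ ε := by rw [add_zero]; exact h1η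
    exact absurd hbig (not_lt.2 h3)
  -- the corresponding set for `T`
  set δ : ℝ≥0∞ := η / (L * L : ℕ) with hδ
  have hδ0 : δ ≠ 0 := (ENNReal.div_pos hη0 (ENNReal.natCast_ne_top _)).ne'
  obtain ⟨E', hE'm, hE'μ, hE'sep, hE'cor⟩ := exists_spread hμ T hT hzT L hEfin hδ0
  have hE'sep' : Sep T ((L:ℤ) - 1) E' := hE'sep.mono (by omega)
  obtain ⟨φ, hφ⟩ := exists_pIso hEm hE'm hEpos hEfin hE'μ.symm
  -- pieces
  let P : Fin L → Set X := fun j => (S ^ (-(j:ℤ))) ⁻¹' E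
  let Q : Fin L → Set X := fun j => (T ^ (-(j:ℤ))) ⁻¹' E'
  have hbase : ∀ j : ℤ, PIso μ μ (φ ∘ ⇑(S ^ (-j))) ((S ^ (-j)) ⁻¹' E) E' := by
    intro j
    have h1 := pIso_zpow hS (P := (S ^ (-j)) ⁻¹' E) ((hS _).measurable hEm) (-j)
    have h2 : (S ^ (-(-j))) ⁻¹' ((S ^ (-j)) ⁻¹' E) = E := by
      ext x
      rw [mem_preimage, mem_preimage, zpow_apply_add]
      simp
    rw [h2] at h1
    exact hφ.comp h1
  have hpieces : ∀ j : Fin L, PIso μ μ (⇑(T ^ (j:ℤ)) ∘ (φ ∘ ⇑(S ^ (-(j:ℤ))))) (P j) (Q j) := by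
    intro j
    exact (pIso_zpow hT hE'm (j:ℤ)).comp (hbase j)
  have hPd : Pairwise (Disjoint on P) := by
    intro i j hij
    rw [Function.onFun, Set.disjoint_left]
    intro x hxi hxj
    have := hEsep.eq_of hxi hxj (by have := i.2; have := j.2; omega)
      (by have := i.2; have := j.2; omega)
    exact hij (Fin.ext (by omega))
  have hQd : Pairwise (Disjoint on Q) := by
    intro i j hij
    rw [Function.onFun, Set.disjoint_left]
    intro x hxi hxj
    have := hE'sep'.eq_of hxi hxj (by have := i.2; have := j.2; omega)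
      (by have := i.2; have := j.2; omega)
    exact hij (Fin.ext (by omega))
  obtain ⟨g, hg, hgf⟩ := exists_glue hpieces hPd hQd
  have hUfin : μ (⋃ i, P i) ≠ ∞ := by
    refine (lt_of_le_of_lt (measure_iUnion_fintype_le _ _) (ENNReal.sum_lt_top.2 ?_)).ne
    intro j _
    rw [(hS _).measure_preimage hEm.nullMeasurableSet]
    exact lt_top_iff_ne_top.2 hEfin
  obtain ⟨R, hR1, hR2, hR3⟩ := exists_extension hμ hg hUfin
  -- key relation
  have hkey : ∀ y ∈ E, ∀ j : ℤ, 0 ≤ j → j < L → R ((S ^ j) y) = (T ^ j) (φ y) := by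
    intro y hy j hj1 hj2
    let i : Fin L := ⟨j.toNat, by omega⟩
    have hij : (i : ℤ) = j := by simp [i, hj1]
    have hmem : (S ^ j) y ∈ P i := by
      change (S ^ (-(i:ℤ))) ((S ^ j) y) ∈ E
      rw [hij, zpow_apply_add]; simpa using hy
    rw [hR3 _ (mem_iUnion.2 ⟨i, hmem⟩), hgf i _ hmem]
    simp only [Function.comp_apply, hij]
    rw [zpow_apply_add]; simp
  have hconj : ∀ n : ℤ, ∀ x, ((R⁻¹ * T * R) ^ n) x = R⁻¹ ((T ^ n) (R x)) := by
    intro n x
    have h1 : (R⁻¹ * T * R) = R⁻¹ * T * (R⁻¹)⁻¹ := by rw [inv_inv]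
    rw [h1, conj_zpow, inv_inv, Equiv.Perm.mul_apply, Equiv.Perm.mul_apply]
  have hagree : ∀ y ∈ E, ∀ j n : ℤ, 0 ≤ j → j < L → 0 ≤ j + n → j + n < L →
      ((R⁻¹ * T * R) ^ n) ((S ^ j) y) = (S ^ n) ((S ^ j) y) := by
    intro y hy j n h1 h2 h3 h4
    rw [hconj, hkey y hy j h1 h2, zpow_apply_add, zpow_apply_add, add_comm n j,
      ← hkey y hy (j + n) h3 h4]
    simp
  -- points of `A` are in `Left` or in the tower
  have hdich : ∀ x ∈ A, x ∈ Left ∨ ∃ j : ℤ, 0 ≤ j ∧ j < L ∧ (S ^ (-j)) x ∈ E₀ ∧ (S ^ (-j)) x ∈ E := by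
    intro x hx
    by_cases hxL : x ∈ Left
    · exact Or.inl hxL
    · right
      have : ∃ j : ℤ, 0 ≤ j ∧ j < L ∧ (S ^ (-j)) x ∈ E₀ := by
        by_contra hc
        push Not at hc
        exact hxL ⟨hx, hc⟩
      obtain ⟨j, h1, h2, h3⟩ := this
      exact ⟨j, h1, h2, h3, hEmem x hx j h1 h2 h3⟩
  have hself : ∀ (x : X) (j : ℤ), (S ^ j) ((S ^ (-j)) x) = x := by
    intro x j; rw [zpow_apply_add]; simp
  have hclose : ∀ n : ℤ, |n| ≤ n₀ →
      μ {x | x ∈ A ∧ ((R⁻¹ * T * R) ^ n) x ≠ (S ^ n) x} ≤ ε := by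
    intro n hn
    refine le_trans (measure_mono ?_) ((measure_union_le Left Ends).trans
      ((add_le_add hLeft hEnds).trans h2η))
    rintro x ⟨hxA, hx⟩
    rcases hdich x hxA with h | ⟨j, h1, h2, h3, h4⟩
    · exact Or.inl h
    · right
      refine ⟨hxA, j, h1, h2, ?_, h3⟩
      by_contra hc
      push Not at hc
      have hn' := abs_le.1 hn
      apply hx
      have := hagree _ h4 j n h1 h2 (by omega) (by omega)
      rwa [hself] at this
  refine ⟨R, hR1, hR2, ?_, ?_⟩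
  · rintro n (rfl | rfl)
    · exact hclose 1 (by simp [n₀])
    · exact hclose (-1) (by simp [n₀])
  · intro n hn
    rcases le_or_gt n n₀ with hnn | hnn
    · left
      have := hclose n (by rw [abs_of_nonneg (by positivity)]; exact_mod_cast hnn)
      simpa [zpow_natCast] using this
    · right
      have hSn : μ {x | x ∈ A ∧ (S ^ n) x ∈ A} ≤ η := by
        have := hn₁ n (by rw [abs_of_nonneg (by positivity)]; omega)
        rw [zpow_natCast] at this
        exact this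
      refine ⟨hSn.trans h1η, ?_⟩
      -- correlations in different columns
      let Bad : Set X := ⋃ p ∈ (Finset.Ico (0:ℤ) L) ×ˢ (Finset.Ico (0:ℤ) L),
        {x | x ∈ (S ^ (-p.1)) ⁻¹' E ∧ (n:ℤ) + p.1 - p.2 ≠ 0 ∧
          (φ ∘ ⇑(S ^ (-p.1))) x ∈ E' ∩ (T ^ ((n:ℤ) + p.1 - p.2)) ⁻¹' E'}
      have hBad : μ Bad ≤ η := by
        refine (measure_biUnion_finset_le _ _).trans ?_
        have h1 : ∀ p ∈ (Finset.Ico (0:ℤ) L) ×ˢ (Finset.Ico (0:ℤ) L),
            μ {x | x ∈ (S ^ (-p.1)) ⁻¹' E ∧ (n:ℤ) + p.1 - p.2 ≠ 0 ∧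
              (φ ∘ ⇑(S ^ (-p.1))) x ∈ E' ∩ (T ^ ((n:ℤ) + p.1 - p.2)) ⁻¹' E'} ≤ δ := by
          intro p _
          by_cases h0 : (n:ℤ) + p.1 - p.2 = 0
          · have : {x | x ∈ (S ^ (-p.1)) ⁻¹' E ∧ (n:ℤ) + p.1 - p.2 ≠ 0 ∧
              (φ ∘ ⇑(S ^ (-p.1))) x ∈ E' ∩ (T ^ ((n:ℤ) + p.1 - p.2)) ⁻¹' E'} = ∅ := by
              ext x
              simp only [mem_ofPred_eq, mem_empty_iff_false, iff_false]
              rintro ⟨_, h, _⟩
              exact h h0
            rw [this, measure_empty]; exact bot_le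
          · have hm : MeasurableSet (E' ∩ (T ^ ((n:ℤ) + p.1 - p.2)) ⁻¹' E') :=
              hE'm.inter ((hT _).measurable hE'm)
            have h2 := (hbase p.1).mp _ hm
            calc _ ≤ μ ((S ^ (-p.1)) ⁻¹' E ∩ (φ ∘ ⇑(S ^ (-p.1))) ⁻¹'
                  (E' ∩ (T ^ ((n:ℤ) + p.1 - p.2)) ⁻¹' E')) := by
                  apply measure_mono
                  rintro x ⟨hx1, _, hx2⟩
                  exact ⟨hx1, hx2⟩
              _ = μ (E' ∩ (E' ∩ (T ^ ((n:ℤ) + p.1 - p.2)) ⁻¹' E')) := h2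
              _ ≤ μ (E' ∩ (T ^ ((n:ℤ) + p.1 - p.2)) ⁻¹' E') := measure_mono inter_subset_right
              _ ≤ δ := hE'cor _ h0
        refine (Finset.sum_le_sum h1).trans ?_
        rw [Finset.sum_const, Finset.card_product, Int.card_Ico, nsmul_eq_mul]
        have h3 : ((L:ℤ) - 0).toNat = L := by omega
        rw [h3, hδ, ENNReal.mul_div_cancel]
        · have : L * L ≠ 0 := Nat.mul_ne_zero (by omega) (by omega)
          exact_mod_cast this
        · exact ENNReal.natCast_ne_top _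
      have hT'm : MeasurePreserving (⇑((R⁻¹ * T * R) ^ (n:ℤ))) μ μ := by
        have h1 : ⇑((R⁻¹ * T * R) ^ (n:ℤ)) = R.symm ∘ ⇑(T ^ (n:ℤ)) ∘ R := by
          funext x; rw [hconj]; rfl
        rw [h1]
        exact hR2.comp ((hT n).comp hR1)
      have hsub : {x | x ∈ A ∧ ((R⁻¹ * T * R) ^ n) x ∈ A} ⊆
          Left ∪ ((R⁻¹ * T * R) ^ (n:ℤ)) ⁻¹' Left ∪ {x | x ∈ A ∧ (S ^ n) x ∈ A} ∪ Bad := by
        rintro x ⟨hxA, hx'⟩
        have hx'' : ((R⁻¹ * T * R) ^ (n:ℤ)) x ∈ A := by rw [zpow_natCast]; exact hx'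
        rcases hdich x hxA with h | ⟨j, h1, h2, h3, h4⟩
        · exact Or.inl (Or.inl (Or.inl h))
        rcases hdich _ hx'' with h | ⟨j', h1', h2', h3', h4'⟩
        · exact Or.inl (Or.inl (Or.inr h))
        set y := (S ^ (-j)) x with hy
        set z := ((R⁻¹ * T * R) ^ (n:ℤ)) x with hz
        set y' := (S ^ (-j')) z with hy'
        have hxy : (S ^ j) y = x := hself x j
        have hzy : (S ^ j') y' = z := hself z j'
        have e1 : R x = (T ^ j) (φ y) := by rw [← hxy]; exact hkey y h4 j h1 h2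
        have e2 : R z = (T ^ j') (φ y') := by rw [← hzy]; exact hkey y' h4' j' h1' h2'
        have e3 : R z = (T ^ (n:ℤ)) (R x) := by
          rw [hz, hconj]; simp
        have e4 : (T ^ ((n:ℤ) + j - j')) (φ y) = φ y' := by
          have h5 : (T ^ j') (φ y') = (T ^ ((n:ℤ) + j)) (φ y) := by
            rw [← e2, e3, e1, zpow_apply_add]
          have h6 : (T ^ (-j')) ((T ^ j') (φ y')) = (T ^ (-j')) ((T ^ ((n:ℤ) + j)) (φ y)) := by
            rw [h5]
          rw [zpow_apply_add, zpow_apply_add] at h6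
          have h7 : -j' + ((n:ℤ) + j) = (n:ℤ) + j - j' := by ring
          rw [h7] at h6
          simpa using h6.symm
        by_cases h0 : (n:ℤ) + j - j' = 0
        · left; right
          refine ⟨hxA, ?_⟩
          rw [h0] at e4
          have hyy : y = y' := hφ.bij.injOn h4 h4' (by simpa using e4)
          have : (S ^ (n:ℤ)) x = z := by
            rw [← hzy, ← hyy, ← hxy, zpow_apply_add]
            have : (n:ℤ) + j = j' := by omega
            rw [this]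
          rw [zpow_natCast] at this
          rw [this]; exact hx''
        · right
          refine mem_iUnion₂.2 ⟨(j, j'), Finset.mem_product.2 ⟨Finset.mem_Ico.2 ⟨h1, h2⟩,
            Finset.mem_Ico.2 ⟨h1', h2'⟩⟩, h4, h0, ?_, ?_⟩
          · exact hφ.bij.mapsTo h4
          · change (T ^ ((n:ℤ) + j - j')) (φ y) ∈ E'
            rw [e4]
            exact hφ.bij.mapsTo h4'
      calc μ {x | x ∈ A ∧ ((R⁻¹ * T * R) ^ n) x ∈ A}
          ≤ μ Left + μ (((R⁻¹ * T * R) ^ (n:ℤ)) ⁻¹' Left) + μ {x | x ∈ A ∧ (S ^ n) x ∈ A} +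
            μ Bad := by
            refine (measure_mono hsub).trans ((measure_union_le _ _).trans ?_)
            gcongr
            refine (measure_union_le _ _).trans ?_
            gcongr
            exact measure_union_le _ _
        _ ≤ η + η + η + η := by
            rw [hT'm.measure_preimage hLeftm.nullMeasurableSet]
            gcongr
        _ = ε := h4η

end Pool.Agent.H42.Erg
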