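import Pool.Agent.H42.ErgTower

/-!
# Isomorphisms between sets of infinite measure, and a pair of automorphisms without almost
invariant sets of finite measure
-/

open MeasureTheory Set Filter Topology Function
open scoped ENNReal

namespace Pool.Agent.H42.Erg

variable {X : Type*} [MeasurableSpace X]

theorem exists_superset_measure [StandardBorelSpace X] {μ : Measure X} [SigmaFinite μ]
    [NullSingletonClass μ] {R F : Set X} (hR : MeasurableSet R) (hRt : μ R = ∞)
    (hF : MeasurableSet F) (hFR : F ⊆ R) {c : ℝ≥0∞} (hc : c ≠ ∞) (hFc : μ F ≤ c) :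
    ∃ V, MeasurableSet V ∧ F ⊆ V ∧ V ⊆ R ∧ μ V = c := by
  have hFfin : μ F ≠ ∞ := ne_top_of_le_ne_top hc hFc
  have h1 : μ (R \ F) = ∞ := by
    rw [measure_sdiff hFR hF.nullMeasurableSet hFfin, hRt, ENNReal.top_sub hFfin]
  obtain ⟨V, hVs, hVm, hVc⟩ := exists_subset_measure_eq (hR.diff hF) (c := c - μ F)
    (by rw [h1]; exact le_top) (ne_top_of_le_ne_top hc tsub_le_self)
  refine ⟨F ∪ V, hF.union hVm, subset_union_left, union_subset hFR (hVs.trans sdiff_subset), ?_⟩
  rw [measure_union (Set.disjoint_left.2 fun x hx hxV => (hVs hxV).2 hx) hVm, hVc,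
    add_tsub_cancel_of_le hFc]

/-- Sets of infinite measure are isomorphic. -/
theorem exists_pIso_top [StandardBorelSpace X] {μ : Measure X} [SigmaFinite μ]
    [NullSingletonClass μ] {P Q : Set X} (hP : MeasurableSet P) (hQ : MeasurableSet Q)
    (hPt : μ P = ∞) (hQt : μ Q = ∞) :
    ∃ f : X → X, PIso μ μ f P Q := by
  classical
  let State := {s : Set X × Set X // MeasurableSet s.1 ∧ MeasurableSet s.2 ∧ μ s.1 = ∞ ∧ μ s.2 = ∞}
  have step : ∀ (n : ℕ) (s : State), ∃ VW : Set X × Set X, MeasurableSet VW.1 ∧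
      MeasurableSet VW.2 ∧ VW.1 ⊆ s.1.1 ∧ VW.2 ⊆ s.1.2 ∧ spanningSets μ n ∩ s.1.1 ⊆ VW.1 ∧
      spanningSets μ n ∩ s.1.2 ⊆ VW.2 ∧ μ VW.1 = μ VW.2 ∧ 0 < μ VW.1 ∧ μ VW.1 ≠ ∞ := by
    rintro n ⟨⟨s1, s2⟩, h1, h2, h3, h4⟩
    have hsp := measurableSet_spanningSets μ n
    have hspt := measure_spanningSets_lt_top μ n
    obtain ⟨V, hVm, hV1, hV2, hVc⟩ := exists_superset_measure (c := μ (spanningSets μ n) + 1) h1 h3
      (hsp.inter h1) inter_subset_right (ENNReal.add_ne_top.2 ⟨hspt.ne, ENNReal.one_ne_top⟩)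
      ((measure_mono inter_subset_left).trans le_self_add)
    obtain ⟨W, hWm, hW1, hW2, hWc⟩ := exists_superset_measure (c := μ (spanningSets μ n) + 1) h2 h4
      (hsp.inter h2) inter_subset_right (ENNReal.add_ne_top.2 ⟨hspt.ne, ENNReal.one_ne_top⟩)
      ((measure_mono inter_subset_left).trans le_self_add)
    refine ⟨(V, W), hVm, hWm, hV2, hW2, hV1, hW1, by rw [hVc, hWc], ?_, ?_⟩
    · change 0 < μ V
      rw [hVc]; exact lt_of_lt_of_le one_pos le_add_self
    · change μ V ≠ ∞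
      rw [hVc]; exact ENNReal.add_ne_top.2 ⟨hspt.ne, ENNReal.one_ne_top⟩
  choose VW hVW using step
  let next : ℕ → State → State := fun n s => ⟨(s.1.1 \ (VW n s).1, s.1.2 \ (VW n s).2), by
    obtain ⟨h1, h2, h3, h4, h5, h6, h7, h8, h9⟩ := hVW n s
    refine ⟨s.2.1.diff h1, s.2.2.1.diff h2, ?_, ?_⟩
    · change μ (s.1.1 \ (VW n s).1) = ∞
      rw [measure_sdiff h3 h1.nullMeasurableSet h9, s.2.2.2.1, ENNReal.top_sub h9]
    · change μ (s.1.2 \ (VW n s).2) = ∞
      rw [measure_sdiff h4 h2.nullMeasurableSet (h7 ▸ h9), s.2.2.2.2, ENNReal.top_sub (h7 ▸ h9)]⟩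
  let st : ℕ → State := fun n => Nat.rec ⟨(P, Q), hP, hQ, hPt, hQt⟩ (fun n s => next n s) n
  have hst0 : (st 0).1 = (P, Q) := rfl
  have hsts : ∀ n, (st (n + 1)).1 = ((st n).1.1 \ (VW n (st n)).1, (st n).1.2 \ (VW n (st n)).2) :=
    fun n => rfl
  let Pn : ℕ → Set X := fun n => (VW n (st n)).1
  let Qn : ℕ → Set X := fun n => (VW n (st n)).2
  have hP1 : ∀ n, (st n).1.1 = P \ ⋃ m ∈ Finset.range n, Pn m := by
    intro n
    induction n with
    | zero => simp [hst0]
    | succ n ih =>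
      rw [hsts]
      simp only
      rw [ih, Finset.range_add_one, Finset.set_biUnion_insert, sdiff_sdiff, union_comm]
  have hQ1 : ∀ n, (st n).1.2 = Q \ ⋃ m ∈ Finset.range n, Qn m := by
    intro n
    induction n with
    | zero => simp [hst0]
    | succ n ih =>
      rw [hsts]
      simp only
      rw [ih, Finset.range_add_one, Finset.set_biUnion_insert, sdiff_sdiff, union_comm]
  have hPsub : ∀ n, Pn n ⊆ P \ ⋃ m ∈ Finset.range n, Pn m := fun n => by
    rw [← hP1]; exact (hVW n (st n)).2.2.1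
  have hQsub : ∀ n, Qn n ⊆ Q \ ⋃ m ∈ Finset.range n, Qn m := fun n => by
    rw [← hQ1]; exact (hVW n (st n)).2.2.2.1
  have hPd : Pairwise (Disjoint on Pn) := by
    have key : ∀ a b, a < b → Disjoint (Pn a) (Pn b) := by
      intro a b hab
      rw [Set.disjoint_left]
      intro x hxa hxb
      exact (hPsub b hxb).2 (mem_iUnion₂.2 ⟨a, Finset.mem_range.2 hab, hxa⟩)
    intro a b hab
    rcases lt_or_gt_of_ne hab with h | h
    · exact key a b h
    · exact (key b a h).symm
  have hQd : Pairwise (Disjoint on Qn) := by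
    have key : ∀ a b, a < b → Disjoint (Qn a) (Qn b) := by
      intro a b hab
      rw [Set.disjoint_left]
      intro x hxa hxb
      exact (hQsub b hxb).2 (mem_iUnion₂.2 ⟨a, Finset.mem_range.2 hab, hxa⟩)
    intro a b hab
    rcases lt_or_gt_of_ne hab with h | h
    · exact key a b h
    · exact (key b a h).symm
  have hPu : (⋃ n, Pn n) = P := by
    apply Subset.antisymm
    · exact iUnion_subset fun n => (hPsub n).trans sdiff_subset
    · intro x hx
      obtain ⟨n, hn⟩ : ∃ n, x ∈ spanningSets μ n := by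
        have := iUnion_spanningSets μ
        exact mem_iUnion.1 (this ▸ mem_univ x)
      by_cases hxs : x ∈ (st n).1.1
      · exact mem_iUnion.2 ⟨n, (hVW n (st n)).2.2.2.2.1 ⟨hn, hxs⟩⟩
      · rw [hP1] at hxs
        have : x ∈ ⋃ m ∈ Finset.range n, Pn m := by
          by_contra hc
          exact hxs ⟨hx, hc⟩
        obtain ⟨m, _, hm⟩ := mem_iUnion₂.1 this
        exact mem_iUnion.2 ⟨m, hm⟩
  have hQu : (⋃ n, Qn n) = Q := by
    apply Subset.antisymm
    · exact iUnion_subset fun n => (hQsub n).trans sdiff_subset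
    · intro x hx
      obtain ⟨n, hn⟩ : ∃ n, x ∈ spanningSets μ n := by
        have := iUnion_spanningSets μ
        exact mem_iUnion.1 (this ▸ mem_univ x)
      by_cases hxs : x ∈ (st n).1.2
      · exact mem_iUnion.2 ⟨n, (hVW n (st n)).2.2.2.2.2.1 ⟨hn, hxs⟩⟩
      · rw [hQ1] at hxs
        have : x ∈ ⋃ m ∈ Finset.range n, Qn m := by
          by_contra hc
          exact hxs ⟨hx, hc⟩
        obtain ⟨m, _, hm⟩ := mem_iUnion₂.1 this
        exact mem_iUnion.2 ⟨m, hm⟩
  have hiso : ∀ n, ∃ f : X → X, PIso μ μ f (Pn n) (Qn n) := fun n => by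
    obtain ⟨h1, h2, h3, h4, h5, h6, h7, h8, h9⟩ := hVW n (st n)
    exact exists_pIso h1 h2 h8 h9 h7
  choose f hf using hiso
  obtain ⟨g, hg, -⟩ := exists_glue hf hPd hQd
  rw [hPu, hQu] at hg
  exact ⟨g, hg⟩

/-- An automorphism carrying one set onto another, when both sets and both complements have
infinite measure. -/
theorem exists_perm_top [StandardBorelSpace X] {μ : Measure X} [SigmaFinite μ]
    [NullSingletonClass μ] {P Q : Set X} (hP : MeasurableSet P) (hQ : MeasurableSet Q)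
    (hPt : μ P = ∞) (hQt : μ Q = ∞) (hPt' : μ Pᶜ = ∞) (hQt' : μ Qᶜ = ∞) :
    ∃ R : Equiv.Perm X, MeasurePreserving R μ μ ∧ MeasurePreserving R.symm μ μ ∧
      ∀ x, R x ∈ Q ↔ x ∈ P := by
  classical
  obtain ⟨f, hf⟩ := exists_pIso_top hP hQ hPt hQt
  obtain ⟨f', hf'⟩ := exists_pIso_top hP.compl hQ.compl hPt' hQt'
  let fs : Bool → X → X := fun b => if b then f else f'
  let Ps : Bool → Set X := fun b => if b then P else Pᶜ
  let Qs : Bool → Set X := fun b => if b then Q else Qᶜ
  have hall : ∀ i, PIso μ μ (fs i) (Ps i) (Qs i) := by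
    intro i
    cases i
    · simpa [fs, Ps, Qs] using hf'
    · simpa [fs, Ps, Qs] using hf
  have hPd : Pairwise (Disjoint on Ps) := by
    intro i j hij
    cases i <;> cases j <;> simp_all [Ps, Function.onFun, disjoint_compl_left, disjoint_compl_right]
  have hQd : Pairwise (Disjoint on Qs) := by
    intro i j hij
    cases i <;> cases j <;> simp_all [Qs, Function.onFun, disjoint_compl_left, disjoint_compl_right]
  obtain ⟨g, hg, hgf⟩ := exists_glue hall hPd hQd
  have hPu : (⋃ i, Ps i) = univ := by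
    apply eq_univ_of_forall
    intro x
    by_cases hx : x ∈ P
    · exact mem_iUnion.2 ⟨true, by simpa [Ps] using hx⟩
    · exact mem_iUnion.2 ⟨false, by simpa [Ps] using hx⟩
  have hQu : (⋃ i, Qs i) = univ := by
    apply eq_univ_of_forall
    intro x
    by_cases hx : x ∈ Q
    · exact mem_iUnion.2 ⟨true, by simpa [Qs] using hx⟩
    · exact mem_iUnion.2 ⟨false, by simpa [Qs] using hx⟩
  rw [hPu, hQu] at hg
  obtain ⟨R, hR1, hR2, hR3⟩ := exists_perm_of_pIso hg
  refine ⟨R, hR1, hR2, ?_⟩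
  intro x
  rw [hR3]
  by_cases hx : x ∈ P
  · have h1 := hgf true x (by simpa [Ps] using hx)
    have h2 := hf.bij.mapsTo hx
    simp only [fs, if_true] at h1
    rw [h1]
    exact ⟨fun _ => hx, fun _ => h2⟩
  · have h1 := hgf false x (by simpa [Ps] using hx)
    have h2 := hf'.bij.mapsTo hx
    simp only [fs, Bool.false_eq_true, if_false] at h1
    rw [h1]
    exact ⟨fun h => absurd h h2, fun h => absurd h hx⟩

/-- Two automorphisms without common almost invariant sets of finite measure. -/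
theorem exists_gap_pair [StandardBorelSpace X] {μ : Measure X} [SigmaFinite μ]
    [NullSingletonClass μ] (hμ : μ univ = ∞) (T : Equiv.Perm X)
    (hT : ∀ n : ℤ, MeasurePreserving (T ^ n) μ μ)
    (haper : ∀ j : ℤ, 1 ≤ j → μ {x | (T ^ j) x = x} = 0) :
    ∃ G H : Equiv.Perm X, MeasurePreserving G μ μ ∧ MeasurePreserving G.symm μ μ ∧
      MeasurePreserving H μ μ ∧ MeasurePreserving H.symm μ μ ∧
      ∀ A, MeasurableSet A → μ A ≠ ∞ →
        μ A ≤ μ (symmDiff A (G '' A)) + μ (symmDiff A (H '' A)) := by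
  classical
  obtain ⟨D, hDm, hDsep, hDt⟩ := exists_sep_top hμ T hT haper 3
  let P : ℤ → Set X := fun k => (T ^ (-k)) ⁻¹' D
  have hPm : ∀ k, MeasurableSet (P k) := fun k => (hT _).measurable hDm
  have hPt : ∀ k, μ (P k) = ∞ := fun k => by
    change μ ((T ^ (-k)) ⁻¹' D) = ∞
    rw [(hT _).measure_preimage hDm.nullMeasurableSet, hDt]
  have hPd : ∀ a b : ℤ, a ≠ b → 0 ≤ a → a ≤ 3 → 0 ≤ b → b ≤ 3 → Disjoint (P a) (P b) := by
    intro a b hab h1 h2 h3 h4
    rw [Set.disjoint_left]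
    intro x hxa hxb
    have := hDsep.eq_of hxa hxb (by push_cast; omega) (by push_cast; omega)
    exact hab (by omega)
  have hcompl : ∀ a b : ℤ, a ≠ b → 0 ≤ a → a ≤ 3 → 0 ≤ b → b ≤ 3 → μ (P a)ᶜ = ∞ := by
    intro a b hab h1 h2 h3 h4
    have h5 : P b ⊆ (P a)ᶜ := fun x hx hxa => Set.disjoint_left.1 (hPd a b hab h1 h2 h3 h4) hxa hx
    exact top_le_iff.1 ((hPt b).symm.le.trans (measure_mono h5))
  -- an automorphism carrying `P b` onto the complement of `P a`
  have hgen : ∀ a b : ℤ, a ≠ b → 0 ≤ a → a ≤ 3 → 0 ≤ b → b ≤ 3 →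
      ∃ G : Equiv.Perm X, MeasurePreserving G μ μ ∧ MeasurePreserving G.symm μ μ ∧
        ∀ A, MeasurableSet A → μ A ≤ μ (A ∩ P a) + μ (A ∩ P b) + μ (symmDiff A (G '' A)) := by
    intro a b hab h1 h2 h3 h4
    obtain ⟨G, hG1, hG2, hG3⟩ := exists_perm_top (μ := μ) (hPm b) (hPm a).compl (hPt b)
      (hcompl a b hab h1 h2 h3 h4) (hcompl b a hab.symm h3 h4 h1 h2) (by rw [compl_compl]; exact hPt a)
    refine ⟨G, hG1, hG2, ?_⟩
    intro A hA
    have e1 : μ A = μ (A ∩ P a) + μ (A \ P a) := (measure_inter_add_sdiff A (hPm a)).symm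
    have e2 : μ (A \ P a) = μ (G ⁻¹' A ∩ P b) := by
      rw [← hG1.measure_preimage (hA.diff (hPm a)).nullMeasurableSet]
      congr 1
      ext x
      constructor
      · rintro ⟨hx1, hx2⟩
        exact ⟨hx1, (hG3 x).1 hx2⟩
      · rintro ⟨hx1, hx2⟩
        exact ⟨hx1, (hG3 x).2 hx2⟩
    have e3 : μ (G ⁻¹' A ∩ P b) ≤ μ (A ∩ P b) + μ (G ⁻¹' A \ A) := by
      refine (measure_mono ?_).trans (measure_union_le _ _)
      rintro x ⟨hx1, hx2⟩
      by_cases hxA : x ∈ A
      · exact Or.inl ⟨hxA, hx2⟩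
      · exact Or.inr ⟨hx1, hxA⟩
    have hGA : MeasurableSet (G '' A) := by
      rw [Equiv.image_eq_preimage_symm]
      exact hG2.measurable hA
    have e4 : μ (G ⁻¹' A \ A) = μ (A \ G '' A) := by
      rw [← hG1.measure_preimage (hA.diff hGA).nullMeasurableSet]
      congr 1
      ext x
      constructor
      · rintro ⟨hx1, hx2⟩
        exact ⟨hx1, fun h => hx2 (by
          obtain ⟨y, hy, hyx⟩ := h
          rwa [← G.injective hyx])⟩
      · rintro ⟨hx1, hx2⟩
        exact ⟨hx1, fun h => hx2 ⟨x, h, rfl⟩⟩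
    have e5 : μ (A \ G '' A) ≤ μ (symmDiff A (G '' A)) := measure_mono fun x hx => Or.inl hx
    calc μ A = μ (A ∩ P a) + μ (A \ P a) := e1
      _ ≤ μ (A ∩ P a) + (μ (A ∩ P b) + μ (symmDiff A (G '' A))) := by
          refine add_le_add le_rfl ?_
          rw [e2]
          refine e3.trans (add_le_add le_rfl ?_)
          rw [e4]; exact e5
      _ = _ := by ring
  obtain ⟨G, hG1, hG2, hG⟩ := hgen 0 1 (by omega) (by omega) (by omega) (by omega) (by omega)
  obtain ⟨H, hH1, hH2, hH⟩ := hgen 2 3 (by omega) (by omega) (by omega) (by omega) (by omega)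
  refine ⟨G, H, hG1, hG2, hH1, hH2, ?_⟩
  intro A hA hAfin
  have hsum : μ (A ∩ P 0) + μ (A ∩ P 1) + (μ (A ∩ P 2) + μ (A ∩ P 3)) ≤ μ A := by
    have d01 := hPd 0 1 (by omega) (by omega) (by omega) (by omega) (by omega)
    have d23 := hPd 2 3 (by omega) (by omega) (by omega) (by omega) (by omega)
    have d02 := hPd 0 2 (by omega) (by omega) (by omega) (by omega) (by omega)
    have d03 := hPd 0 3 (by omega) (by omega) (by omega) (by omega) (by omega)
    have d12 := hPd 1 2 (by omega) (by omega) (by omega) (by omega) (by omega)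
    have d13 := hPd 1 3 (by omega) (by omega) (by omega) (by omega) (by omega)
    rw [← measure_union (d01.mono inter_subset_right inter_subset_right) (hA.inter (hPm 1)),
      ← measure_union (d23.mono inter_subset_right inter_subset_right) (hA.inter (hPm 3)),
      ← measure_union _ ((hA.inter (hPm 2)).union (hA.inter (hPm 3)))]
    · apply measure_mono
      rintro x ((hx | hx) | (hx | hx)) <;> exact hx.1
    · rw [Set.disjoint_left]
      rintro x (hx | hx) (hx' | hx')
      · exact Set.disjoint_left.1 d02 hx.2 hx'.2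
      · exact Set.disjoint_left.1 d03 hx.2 hx'.2
      · exact Set.disjoint_left.1 d12 hx.2 hx'.2
      · exact Set.disjoint_left.1 d13 hx.2 hx'.2
  have h1 := add_le_add (hG A hA) (hH A hA)
  have h2 : μ A + μ A ≤ μ A + (μ (symmDiff A (G '' A)) + μ (symmDiff A (H '' A))) := by
    refine h1.trans ?_
    calc _ = (μ (A ∩ P 0) + μ (A ∩ P 1) + (μ (A ∩ P 2) + μ (A ∩ P 3))) +
          (μ (symmDiff A (G '' A)) + μ (symmDiff A (H '' A))) := by ring
      _ ≤ _ := by gcongr
  exact (ENNReal.add_le_add_iff_left hAfin).1 h2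

end Pool.Agent.H42.Erg
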