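import Mathlib

/-!
# Measure isomorphisms between sets of equal measure in standard measure spaces

Elementary facts on measure-preserving Borel bijections between measurable subsets of standard
Borel spaces equipped with sigma-finite measures without point masses.
-/

open MeasureTheory Set Filter Topology Function
open scoped ENNReal

namespace Pool.Agent.H42.Erg

variable {X Y Z : Type*} [MeasurableSpace X] [MeasurableSpace Y] [MeasurableSpace Z]

/-- `f` restricts to a measure-preserving bijection from `P` onto `Q`. -/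
structure PIso (μ : Measure X) (ν : Measure Y) (f : X → Y) (P : Set X) (Q : Set Y) : Prop where
  meas : Measurable f
  mP : MeasurableSet P
  mQ : MeasurableSet Q
  bij : BijOn f P Q
  mp : ∀ B, MeasurableSet B → μ (P ∩ f ⁻¹' B) = ν (Q ∩ B)

theorem PIso.comp {μ : Measure X} {ν : Measure Y} {ξ : Measure Z} {f : X → Y} {g : Y → Z}
    {P : Set X} {Q : Set Y} {R : Set Z} (hg : PIso ν ξ g Q R) (hf : PIso μ ν f P Q) :
    PIso μ ξ (g ∘ f) P R where
  meas := hg.meas.comp hf.meas
  mP := hf.mP
  mQ := hg.mQ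
  bij := hg.bij.comp hf.bij
  mp B hB := by
    rw [preimage_comp, hf.mp _ (hg.meas hB), hg.mp _ hB]

theorem PIso.measure_eq {μ : Measure X} {ν : Measure Y} {f : X → Y}
    {P : Set X} {Q : Set Y} (hf : PIso μ ν f P Q) : μ P = ν Q := by
  simpa using hf.mp univ MeasurableSet.univ

/-- Borel image of a measurable set under a map injective on it. -/
theorem measurableSet_image [StandardBorelSpace X] [StandardBorelSpace Y] {f : X → Y}
    (hf : Measurable f) {P : Set X} (hP : MeasurableSet P) (hinj : InjOn f P) :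
    MeasurableSet (f '' P) :=
  hP.image_of_measurable_injOn hf hinj

theorem PIso.restrict [StandardBorelSpace X] [StandardBorelSpace Y]
    {μ : Measure X} {ν : Measure Y} {f : X → Y}
    {P : Set X} {Q : Set Y} (hf : PIso μ ν f P Q) {P' : Set X} (hP' : MeasurableSet P')
    (hsub : P' ⊆ P) : PIso μ ν f P' (f '' P') where
  meas := hf.meas
  mP := hP'
  mQ := measurableSet_image hf.meas hP' (hf.bij.injOn.mono hsub)
  bij := (hf.bij.injOn.mono hsub).bijOn_image
  mp B hB := by
    have hm : MeasurableSet (f '' P') :=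
      measurableSet_image hf.meas hP' (hf.bij.injOn.mono hsub)
    have h1 := hf.mp (f '' P' ∩ B) (hm.inter hB)
    have h2 : P ∩ f ⁻¹' (f '' P' ∩ B) = P' ∩ f ⁻¹' B := by
      ext x
      constructor
      · rintro ⟨hxP, ⟨y, hy, hyx⟩, hxB⟩
        have : y = x := hf.bij.injOn (hsub hy) hxP hyx
        exact ⟨this ▸ hy, hxB⟩
      · rintro ⟨hx, hxB⟩
        exact ⟨hsub hx, ⟨x, hx, rfl⟩, hxB⟩
    have h3 : Q ∩ (f '' P' ∩ B) = f '' P' ∩ B := by
      rw [← inter_assoc]
      congr 1
      apply inter_eq_right.2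
      rintro _ ⟨x, hx, rfl⟩
      exact hf.bij.mapsTo (hsub hx)
    rw [h2, h3] at h1
    exact h1

theorem PIso.symm [StandardBorelSpace X] [StandardBorelSpace Y]
    {μ : Measure X} {ν : Measure Y} {f : X → Y}
    {P : Set X} {Q : Set Y} (hf : PIso μ ν f P Q) (hne : P.Nonempty) :
    ∃ g : Y → X, PIso ν μ g Q P ∧ (∀ x ∈ P, g (f x) = x) ∧ (∀ y ∈ Q, f (g y) = y) := by
  classical
  have : StandardBorelSpace P := hf.mP.standardBorel
  have : Nonempty P := hne.to_subtype
  have hinj : Injective (fun x : P => f x) := by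
    intro x y hxy
    exact Subtype.ext (hf.bij.injOn x.2 y.2 hxy)
  have hme : MeasurableEmbedding (fun x : P => f x) :=
    (hf.meas.comp measurable_subtype_coe).measurableEmbedding hinj
  set g : Y → X := fun y => (hme.invFun y : X) with hg
  have hgm : Measurable g := measurable_subtype_coe.comp hme.measurable_invFun
  have hgf : ∀ x ∈ P, g (f x) = x := by
    intro x hx
    have := hme.leftInverse_invFun ⟨x, hx⟩
    simpa [hg] using congrArg Subtype.val this
  have hfg : ∀ y ∈ Q, f (g y) = y := by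
    intro y hy
    obtain ⟨x, hx, rfl⟩ := hf.bij.surjOn hy
    rw [hgf x hx]
  have hbij : BijOn g Q P := by
    refine ⟨?_, ?_, ?_⟩
    · intro y hy
      obtain ⟨x, hx, rfl⟩ := hf.bij.surjOn hy
      rw [hgf x hx]; exact hx
    · intro y hy y' hy' h
      rw [← hfg y hy, ← hfg y' hy', h]
    · intro x hx
      exact ⟨f x, hf.bij.mapsTo hx, hgf x hx⟩
  refine ⟨g, ⟨hgm, hf.mQ, hf.mP, hbij, ?_⟩, hgf, hfg⟩
  intro B hB
  rw [← hf.mp _ (hgm hB)]
  congr 1
  ext x
  constructor
  · rintro ⟨hx, hxB⟩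
    refine ⟨hx, ?_⟩
    have : g (f x) ∈ B := hxB
    rwa [hgf x hx] at this
  · rintro ⟨hx, hxB⟩
    refine ⟨hx, ?_⟩
    change g (f x) ∈ B
    rwa [hgf x hx]

/-- A set of positive measure is uncountable when points are null. -/
theorem not_countable_of_pos {μ : Measure X} [NullSingletonClass μ] {P : Set X} (hP : 0 < μ P) :
    ¬ P.Countable := by
  intro h
  exact hP.ne' (h.measure_zero μ)

/-- Every set of positive measure contains an uncountable measurable null subset. -/
theorem exists_uncountable_null [StandardBorelSpace X] {μ : Measure X} [SigmaFinite μ]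
    [NullSingletonClass μ] {P : Set X} (hP : MeasurableSet P) (hpos : 0 < μ P) :
    ∃ K ⊆ P, MeasurableSet K ∧ μ K = 0 ∧ ¬ K.Countable := by
  have : StandardBorelSpace P := hP.standardBorel
  have hunc : ¬ Countable P := fun h => not_countable_of_pos hpos (countable_coe_iff.1 h)
  have hunc2 : ¬ Countable (ℝ × ℝ) := by
    intro h
    have : Countable ℝ := Function.Injective.countable (f := fun x : ℝ => (x, (0:ℝ)))
      (fun x y h => by simpa using h)
    exact Uncountable.not_countable this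
  let e : P ≃ᵐ ℝ × ℝ := PolishSpace.measurableEquivOfNotCountable hunc hunc2
  let As : ℝ → Set X := fun t => Subtype.val '' (e ⁻¹' (Prod.fst ⁻¹' {t}))
  have hAm : ∀ t, MeasurableSet (As t) := by
    intro t
    exact hP.subtype_image (e.measurable (measurable_fst (measurableSet_singleton t)))
  have hdisj : Pairwise (Disjoint on As) := by
    intro s t hst
    rw [Function.onFun, Set.disjoint_left]
    rintro x ⟨⟨y, hy⟩, hys, rfl⟩ ⟨z, hzt, hzy⟩
    have : z = ⟨y, hy⟩ := Subtype.ext hzy
    subst this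
    exact hst (by
      have h1 : (e ⟨y, hy⟩).1 = s := hys
      have h2 : (e ⟨y, hy⟩).1 = t := hzt
      rw [← h1, h2])
  have hc := Measure.countable_meas_pos_of_disjoint_iUnion (μ := μ) hAm hdisj
  obtain ⟨t, ht⟩ : ∃ t : ℝ, t ∉ {i | 0 < μ (As i)} := by
    by_contra hcon
    push Not at hcon
    have : {i | 0 < μ (As i)} = univ := eq_univ_of_forall hcon
    rw [this] at hc
    exact Set.not_countable_univ hc
  refine ⟨As t, ?_, hAm t, ?_, ?_⟩
  · rintro _ ⟨y, _, rfl⟩; exact y.2
  · simpa using ht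
  · intro hcount
    have : (univ : Set ℝ).Countable := by
      have hinj : InjOn (fun s : ℝ => ((e.symm (t, s) : P) : X)) univ := by
        intro s _ s' _ h
        have := e.symm.injective (Subtype.ext h)
        simpa using this
      refine (Set.MapsTo.countable_of_injOn (t := As t) ?_ hinj hcount)
      intro s _
      exact ⟨e.symm (t, s), by simp, rfl⟩
    exact Set.not_countable_univ this


/-- Extending a partial isomorphism over uncountable null remainders. -/
theorem PIso.extend_null [StandardBorelSpace X] [StandardBorelSpace Y]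
    {μ : Measure X} {ν : Measure Y} {f : X → Y}
    {P₁ P : Set X} {Q₁ Q : Set Y} (hf : PIso μ ν f P₁ Q₁) (hP : MeasurableSet P)
    (hQ : MeasurableSet Q) (hPs : P₁ ⊆ P) (hQs : Q₁ ⊆ Q) (hP0 : μ (P \ P₁) = 0)
    (hQ0 : ν (Q \ Q₁) = 0) (hPc : ¬ (P \ P₁).Countable) (hQc : ¬ (Q \ Q₁).Countable) :
    ∃ g, PIso μ ν g P Q ∧ ∀ x ∈ P₁, g x = f x := by
  classical
  have hmP : MeasurableSet (P \ P₁) := hP.diff hf.mP
  have hmQ : MeasurableSet (Q \ Q₁) := hQ.diff hf.mQ
  have : StandardBorelSpace ↥(P \ P₁) := hmP.standardBorel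
  have : StandardBorelSpace ↥(Q \ Q₁) := hmQ.standardBorel
  let e : ↥(P \ P₁) ≃ᵐ ↥(Q \ Q₁) := PolishSpace.measurableEquivOfNotCountable
    (fun h => hPc (countable_coe_iff.1 h)) (fun h => hQc (countable_coe_iff.1 h))
  have hneY : Nonempty Y := by
    by_contra hcon
    rw [not_nonempty_iff] at hcon
    have hemp : Q \ Q₁ = ∅ := Set.eq_empty_of_isEmpty _
    exact hQc (hemp ▸ countable_empty)
  obtain ⟨h, hhm, hh⟩ := (MeasurableEmbedding.subtype_coe hmP).exists_measurable_extend
    (g := fun x => (e x : Y)) (measurable_subtype_coe.comp e.measurable) (fun _ => hneY)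
  have hh' : ∀ x (hx : x ∈ P \ P₁), h x = e ⟨x, hx⟩ := fun x hx => congrFun hh ⟨x, hx⟩
  set g : X → Y := P₁.piecewise f h with hgdef
  have hg1 : ∀ x ∈ P₁, g x = f x := fun x hx => Set.piecewise_eq_of_mem _ _ _ hx
  have hg2 : ∀ x (hx : x ∈ P \ P₁), g x = e ⟨x, hx⟩ := fun x hx => by
    rw [hgdef, Set.piecewise_eq_of_notMem _ _ _ hx.2, hh' x hx]
  have hmaps1 : ∀ x ∈ P₁, g x ∈ Q₁ := fun x hx => by rw [hg1 x hx]; exact hf.bij.mapsTo hx
  have hmaps2 : ∀ x ∈ P \ P₁, g x ∈ Q \ Q₁ := fun x hx => by rw [hg2 x hx]; exact (e _).2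
  refine ⟨g, ⟨Measurable.piecewise hf.mP hf.meas hhm, hP, hQ, ⟨?_, ?_, ?_⟩, ?_⟩, hg1⟩
  · intro x hx
    by_cases hx1 : x ∈ P₁
    · exact hQs (hmaps1 x hx1)
    · exact (hmaps2 x ⟨hx, hx1⟩).1
  · intro x hx y hy hxy
    by_cases hx1 : x ∈ P₁ <;> by_cases hy1 : y ∈ P₁
    · exact hf.bij.injOn hx1 hy1 (by rw [← hg1 x hx1, ← hg1 y hy1, hxy])
    · exact absurd (hxy ▸ hmaps1 x hx1) (hmaps2 y ⟨hy, hy1⟩).2
    · exact absurd (hxy ▸ hmaps1 y hy1) (hmaps2 x ⟨hx, hx1⟩).2
    · rw [hg2 x ⟨hx, hx1⟩, hg2 y ⟨hy, hy1⟩] at hxy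
      have := e.injective (Subtype.ext hxy)
      exact congrArg Subtype.val this
  · intro y hy
    by_cases hy1 : y ∈ Q₁
    · obtain ⟨x, hx, rfl⟩ := hf.bij.surjOn hy1
      exact ⟨x, hPs hx, hg1 x hx⟩
    · refine ⟨e.symm ⟨y, hy, hy1⟩, (e.symm ⟨y, hy, hy1⟩).2.1, ?_⟩
      rw [hg2 _ (e.symm ⟨y, hy, hy1⟩).2]
      simp
  · intro B hB
    have hgm : Measurable g := Measurable.piecewise hf.mP hf.meas hhm
    have h1 : μ (P ∩ g ⁻¹' B) = μ (P₁ ∩ g ⁻¹' B) := by
      apply le_antisymm
      · calc μ (P ∩ g ⁻¹' B) ≤ μ ((P₁ ∩ g ⁻¹' B) ∪ (P \ P₁)) := by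
              apply measure_mono
              rintro x ⟨hx, hxB⟩
              by_cases hx1 : x ∈ P₁
              · exact Or.inl ⟨hx1, hxB⟩
              · exact Or.inr ⟨hx, hx1⟩
          _ ≤ μ (P₁ ∩ g ⁻¹' B) + μ (P \ P₁) := measure_union_le _ _
          _ = μ (P₁ ∩ g ⁻¹' B) := by rw [hP0, add_zero]
      · exact measure_mono (inter_subset_inter_left _ hPs)
    have h2 : ν (Q ∩ B) = ν (Q₁ ∩ B) := by
      apply le_antisymm
      · calc ν (Q ∩ B) ≤ ν ((Q₁ ∩ B) ∪ (Q \ Q₁)) := by
              apply measure_mono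
              rintro x ⟨hx, hxB⟩
              by_cases hx1 : x ∈ Q₁
              · exact Or.inl ⟨hx1, hxB⟩
              · exact Or.inr ⟨hx, hx1⟩
          _ ≤ ν (Q₁ ∩ B) + ν (Q \ Q₁) := measure_union_le _ _
          _ = ν (Q₁ ∩ B) := by rw [hQ0, add_zero]
      · exact measure_mono (inter_subset_inter_left _ hQs)
    rw [h1, h2, ← hf.mp B hB]
    congr 1
    ext x
    constructor
    · rintro ⟨hx, hxB⟩
      refine ⟨hx, ?_⟩
      have : g x ∈ B := hxB
      rwa [hg1 x hx] at this
    · rintro ⟨hx, hxB⟩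
      refine ⟨hx, ?_⟩
      change g x ∈ B
      rwa [hg1 x hx]

/-- For a finite measure on the line without point masses, the distribution function is
continuous. -/
theorem continuous_real_Iic (ν : Measure ℝ) [IsFiniteMeasure ν] [NullSingletonClass ν] :
    Continuous (fun t : ℝ => ν.real (Iic t)) := by
  have h := intervalIntegral.continuous_primitive (μ := ν) (f := fun _ : ℝ => (1:ℝ))
    (fun a b => (integrable_const (1:ℝ)).intervalIntegrable) 0
  have h2 : (fun t : ℝ => ν.real (Iic t)) = fun t => ν.real (Iic 0) + ∫ _ in (0:ℝ)..t, (1:ℝ) ∂ν := by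
    funext t
    rcases le_total 0 t with ht | ht
    · rw [intervalIntegral.integral_of_le ht]
      simp only [integral_const, smul_eq_mul, mul_one, measureReal_restrict_apply_univ]
      rw [← measureReal_union (by
        rw [Set.disjoint_left]
        intro x hx hx2
        exact absurd hx2.1 (not_lt.2 hx)) measurableSet_Ioc]
      rw [Iic_union_Ioc_eq_Iic ht]
    · rw [intervalIntegral.integral_of_ge ht]
      simp only [integral_const, smul_eq_mul, mul_one, measureReal_restrict_apply_univ]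
      have := measureReal_union (μ := ν) (s₁ := Iic t) (s₂ := Ioc t 0) (by
        rw [Set.disjoint_left]
        intro x hx hx2
        exact absurd hx2.1 (not_lt.2 hx)) measurableSet_Ioc
      rw [Iic_union_Ioc_eq_Iic ht] at this
      linarith
  rw [h2]
  exact continuous_const.add h

/-- The distribution function pushes a nonatomic finite measure on the line to Lebesgue measure. -/
theorem measure_cdf_preimage (ν : Measure ℝ) [IsFiniteMeasure ν] [NullSingletonClass ν]
    (B : Set ℝ) (hB : MeasurableSet B) :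
    ν ((fun t : ℝ => ν.real (Iic t)) ⁻¹' B) = volume (Ioo 0 (ν.real univ) ∩ B) := by
  set F : ℝ → ℝ := fun t => ν.real (Iic t) with hF
  have hcont : Continuous F := continuous_real_Iic ν
  have hmono : Monotone F := fun s t hst => measureReal_mono (Iic_subset_Iic.2 hst)
  have hle : ∀ t, F t ≤ ν.real univ := fun t => measureReal_mono (subset_univ _)
  have hnn : ∀ t, 0 ≤ F t := fun t => measureReal_nonneg
  have htop : Tendsto F atTop (𝓝 (ν.real univ)) := by
    have h1 : Tendsto (fun t : ℝ => ν (Iic t)) atTop (𝓝 (ν univ)) := tendsto_measure_Iic_atTop ν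
    exact (ENNReal.tendsto_toReal (measure_ne_top ν _)).comp h1
  have hbot : Tendsto F atBot (𝓝 0) := by
    have h1 : Tendsto (ν ∘ fun t : ℝ => (Iic t)) atBot (𝓝 (ν (⋂ t : ℝ, Iic t))) :=
      tendsto_measure_iInter_atBot (fun i => measurableSet_Iic.nullMeasurableSet)
        (fun s t hst => Iic_subset_Iic.2 hst) ⟨0, measure_ne_top _ _⟩
    have h2 : (⋂ t : ℝ, Iic t) = ∅ := by
      ext x
      simp only [mem_iInter, mem_Iic, mem_empty_iff_false, iff_false, not_forall, not_le]
      exact ⟨x - 1, by linarith⟩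
    rw [h2, measure_empty] at h1
    have := (ENNReal.tendsto_toReal (ENNReal.zero_ne_top)).comp h1
    simpa [Function.comp_def, hF, measureReal_def] using this
  have hset : ∀ s : ℝ, ν (F ⁻¹' Iic s) = volume (Ioo 0 (ν.real univ) ∩ Iic s) := by
    intro s
    rcases lt_or_ge s 0 with hs | hs
    · have h1 : F ⁻¹' Iic s = ∅ := by
        ext t; simp only [mem_preimage, mem_Iic, mem_empty_iff_false, iff_false, not_le]
        exact lt_of_lt_of_le hs (hnn t)
      have h2 : Ioo 0 (ν.real univ) ∩ Iic s = ∅ := by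
        ext t; simp only [mem_inter_iff, mem_Ioo, mem_Iic, mem_empty_iff_false, iff_false, not_and,
          not_le]
        intro h; linarith [h.1]
      rw [h1, h2]; simp
    rcases le_or_gt (ν.real univ) s with hs2 | hs2
    · have h1 : F ⁻¹' Iic s = univ := by
        ext t; simp only [mem_preimage, mem_Iic, mem_univ, iff_true]
        exact (hle t).trans hs2
      have h2 : Ioo 0 (ν.real univ) ∩ Iic s = Ioo 0 (ν.real univ) := by
        apply inter_eq_left.2
        intro t ht
        exact ht.2.le.trans hs2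
      rw [h1, h2, Real.volume_Ioo, sub_zero, ofReal_measureReal]
    · have hvol : volume (Ioo 0 (ν.real univ) ∩ Iic s) = ENNReal.ofReal s := by
        have : Ioo 0 (ν.real univ) ∩ Iic s = Ioc 0 s := by
          ext t; simp only [mem_inter_iff, mem_Ioo, mem_Iic, mem_Ioc]
          constructor
          · rintro ⟨⟨h1, h2⟩, h3⟩; exact ⟨h1, h3⟩
          · rintro ⟨h1, h3⟩; exact ⟨⟨h1, by linarith⟩, h3⟩
        rw [this, Real.volume_Ioc, sub_zero]
      rw [hvol]
      by_cases hne : (F ⁻¹' Iic s).Nonempty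
      · -- bounded above
        obtain ⟨b, hb⟩ : ∃ b, s < F b := ((htop.eventually (lt_mem_nhds hs2)).exists)
        have hbdd : BddAbove (F ⁻¹' Iic s) := ⟨b, fun t ht => by
          by_contra hcon
          push Not at hcon
          have h1 := hmono hcon.le
          have h2 : F t ≤ s := ht
          linarith⟩
        have hclosed : IsClosed (F ⁻¹' Iic s) := isClosed_Iic.preimage hcont
        set t₀ := sSup (F ⁻¹' Iic s) with ht₀
        have hmem : t₀ ∈ F ⁻¹' Iic s := hclosed.csSup_mem hne hbdd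
        have heq : F ⁻¹' Iic s = Iic t₀ := by
          ext t
          constructor
          · intro ht; exact le_csSup hbdd ht
          · intro ht; exact (hmono ht).trans hmem
        have hval : F t₀ = s := by
          apply le_antisymm hmem
          have hcw : ContinuousWithinAt F (Ioi t₀) t₀ := hcont.continuousWithinAt
          apply ge_of_tendsto hcw
          filter_upwards [self_mem_nhdsWithin] with t ht
          by_contra hcon
          push Not at hcon
          have : t ∈ F ⁻¹' Iic s := hcon.le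
          rw [heq] at this
          exact absurd (mem_Iic.1 this) (not_le.2 ht)
        rw [heq, ← hval, hF]
        simp only
        rw [ofReal_measureReal]
      · rw [Set.not_nonempty_iff_eq_empty] at hne
        have hs0 : s = 0 := by
          apply le_antisymm _ hs
          by_contra hcon
          push Not at hcon
          obtain ⟨t, ht⟩ := (hbot.eventually (gt_mem_nhds hcon)).exists
          have : t ∈ F ⁻¹' Iic s := ht.le
          rw [hne] at this
          exact this
        rw [hne, hs0]; simp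
  have hmapfin : IsFiniteMeasure (ν.map F) := inferInstance
  have heq : ν.map F = volume.restrict (Ioo 0 (ν.real univ)) := by
    refine Measure.ext_of_Iic _ _ ?_
    intro s
    rw [Measure.map_apply hcont.measurable measurableSet_Iic, hset s,
      Measure.restrict_apply measurableSet_Iic, inter_comm]
  have : (ν.map F) B = (volume.restrict (Ioo 0 (ν.real univ))) B := by rw [heq]
  rw [Measure.map_apply hcont.measurable hB, Measure.restrict_apply hB, inter_comm] at this
  exact this


/-- A set of finite positive measure in a standard nonatomic measure space is isomorphic to an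
interval. -/
theorem exists_pIso_Ioo [StandardBorelSpace X] {μ : Measure X} [SigmaFinite μ]
    [NullSingletonClass μ] {P : Set X} (hP : MeasurableSet P) (hpos : 0 < μ P)
    (hfin : μ P ≠ ∞) :
    ∃ f : X → ℝ, PIso μ volume f P (Ioo 0 (μ.real P)) := by
  classical
  have hφ : MeasurableEmbedding (embeddingReal X) := measurableEmbedding_embeddingReal X
  set φ : X → ℝ := embeddingReal X with hφdef
  have : IsFiniteMeasure (μ.restrict P) := ⟨by
    rw [Measure.restrict_apply_univ]; exact lt_top_iff_ne_top.2 hfin⟩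
  set ν : Measure ℝ := (μ.restrict P).map φ with hν
  have hνfin : IsFiniteMeasure ν := by rw [hν]; infer_instance
  have hνns : NullSingletonClass ν := ⟨fun t => by
    rw [hν, Measure.map_apply hφ.measurable (measurableSet_singleton t)]
    exact ((subsingleton_singleton (a := t)).preimage hφ.injective).measure_zero _⟩
  have hνuniv : ν.real univ = μ.real P := by
    rw [measureReal_def, hν, Measure.map_apply hφ.measurable MeasurableSet.univ, preimage_univ,
      Measure.restrict_apply_univ, measureReal_def]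
  set F : ℝ → ℝ := fun t => ν.real (Iic t) with hF
  have hFm : Measurable F := (continuous_real_Iic ν).measurable
  have hmono : Monotone F := fun s t hst => measureReal_mono (Iic_subset_Iic.2 hst)
  set G : X → ℝ := F ∘ φ with hG
  have hGm : Measurable G := hFm.comp hφ.measurable
  have key : ∀ B, MeasurableSet B → μ (P ∩ G ⁻¹' B) = volume (Ioo 0 (μ.real P) ∩ B) := by
    intro B hB
    have h1 := measure_cdf_preimage ν B hB
    rw [hνuniv] at h1
    rw [← h1]
    change _ = ν (F ⁻¹' B)
    rw [hν, Measure.map_apply hφ.measurable (hFm hB), Measure.restrict_apply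
      (hφ.measurable (hFm hB)), inter_comm, hG, preimage_comp]
  -- the countable set of values taken twice
  set C : Set ℝ := {c | ∃ x y, x < y ∧ F x = c ∧ F y = c} with hC
  have hCc : C.Countable := hmono.countable_setOfPred_two_preimages
  have hvol0 : ∀ D : Set ℝ, D.Countable → μ (P ∩ G ⁻¹' D) = 0 := by
    intro D hD
    rw [key D hD.measurableSet]
    exact measure_mono_null inter_subset_right (hD.measure_zero volume)
  set P₀ : Set X := P ∩ G ⁻¹' (Ioo 0 (μ.real P) \ C) with hP₀
  have hP₀m : MeasurableSet P₀ := hP.inter (hGm (measurableSet_Ioo.diff hCc.measurableSet))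
  have hP₀full : μ P₀ = μ P := by
    rw [hP₀, key _ (measurableSet_Ioo.diff hCc.measurableSet)]
    have : Ioo 0 (μ.real P) ∩ (Ioo 0 (μ.real P) \ C) = Ioo 0 (μ.real P) \ C := by
      apply inter_eq_right.2 sdiff_subset
    rw [this, measure_sdiff_null (hCc.measure_zero volume), Real.volume_Ioo, sub_zero,
      ofReal_measureReal hfin]
  have hinj : InjOn G P₀ := by
    intro x hx y hy hxy
    have hc : G x ∉ C := hx.2.2
    apply hφ.injective
    by_contra hne
    rcases lt_or_gt_of_ne hne with h | h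
    · exact hc ⟨φ x, φ y, h, rfl, hxy.symm⟩
    · exact hc ⟨φ y, φ x, h, hxy.symm, rfl⟩
  obtain ⟨K, hKs, hKm, hK0, hKc⟩ := exists_uncountable_null hP₀m (hP₀full ▸ hpos)
  set P₁ : Set X := P₀ \ K with hP₁
  have hP₁m : MeasurableSet P₁ := hP₀m.diff hKm
  have hP₁s : P₁ ⊆ P₀ := sdiff_subset
  have hP₁full : μ P₁ = μ P := by rw [hP₁, measure_sdiff_null hK0, hP₀full]
  have hP0diff : μ (P \ P₁) = 0 := by
    rw [measure_sdiff (hP₁s.trans inter_subset_left) hP₁m.nullMeasurableSet
      (by rw [hP₁full]; exact hfin), hP₁full, tsub_self]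
  set Q₁ : Set ℝ := G '' P₁ with hQ₁
  have hQ₁m : MeasurableSet Q₁ := measurableSet_image hGm hP₁m (hinj.mono hP₁s)
  have hQ₁s : Q₁ ⊆ Ioo 0 (μ.real P) := by
    rintro _ ⟨x, hx, rfl⟩
    exact (hP₁s hx).2.1
  have hmpP₁ : ∀ B, MeasurableSet B → μ (P₁ ∩ G ⁻¹' B) = volume (Q₁ ∩ B) := by
    intro B hB
    have h1 := key (Q₁ ∩ B) (hQ₁m.inter hB)
    have h2 : Ioo 0 (μ.real P) ∩ (Q₁ ∩ B) = Q₁ ∩ B :=
      inter_eq_right.2 (inter_subset_left.trans hQ₁s)
    rw [h2] at h1
    rw [← h1]
    apply le_antisymm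
    · apply measure_mono
      rintro x ⟨hx, hxB⟩
      exact ⟨(hP₁s hx).1, ⟨x, hx, rfl⟩, hxB⟩
    · calc μ (P ∩ G ⁻¹' (Q₁ ∩ B)) ≤ μ ((P₁ ∩ G ⁻¹' B) ∪ (P \ P₁)) := by
            apply measure_mono
            rintro x ⟨hx, hxB⟩
            by_cases hx1 : x ∈ P₁
            · exact Or.inl ⟨hx1, hxB.2⟩
            · exact Or.inr ⟨hx, hx1⟩
        _ ≤ μ (P₁ ∩ G ⁻¹' B) + μ (P \ P₁) := measure_union_le _ _
        _ = μ (P₁ ∩ G ⁻¹' B) := by rw [hP0diff, add_zero]
  have hiso : PIso μ volume G P₁ Q₁ :=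
    ⟨hGm, hP₁m, hQ₁m, (hinj.mono hP₁s).bijOn_image, hmpP₁⟩
  have hvQ₁ : volume Q₁ = ENNReal.ofReal (μ.real P) := by
    rw [← hiso.measure_eq, hP₁full, ofReal_measureReal hfin]
  have hQ0 : volume (Ioo 0 (μ.real P) \ Q₁) = 0 := by
    rw [measure_sdiff hQ₁s hQ₁m.nullMeasurableSet (by rw [hvQ₁]; exact ENNReal.ofReal_ne_top),
      hvQ₁, Real.volume_Ioo, sub_zero, tsub_self]
  have hKc1 : ¬ (P \ P₁).Countable := by
    intro h
    apply hKc
    apply h.mono
    intro x hx
    exact ⟨(hKs hx).1, fun h2 => h2.2 hx⟩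
  have hKc2 : ¬ (Ioo 0 (μ.real P) \ Q₁).Countable := by
    intro h
    apply hKc
    have hmaps : MapsTo G K (Ioo 0 (μ.real P) \ Q₁) := by
      intro x hx
      refine ⟨(hKs hx).2.1, ?_⟩
      rintro ⟨y, hy, hyx⟩
      have : y = x := hinj (hP₁s hy) (hKs hx) hyx
      exact hy.2 (this ▸ hx)
    exact hmaps.countable_of_injOn (hinj.mono hKs) h
  obtain ⟨g, hg, _⟩ := hiso.extend_null hP measurableSet_Ioo
    (hP₁s.trans inter_subset_left) hQ₁s hP0diff hQ0 hKc1 hKc2
  exact ⟨g, hg⟩

/-- Sets of the same finite positive measure are isomorphic. -/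
theorem exists_pIso [StandardBorelSpace X] {μ : Measure X} [SigmaFinite μ]
    [NullSingletonClass μ] {P Q : Set X} (hP : MeasurableSet P) (hQ : MeasurableSet Q)
    (hpos : 0 < μ P) (hfin : μ P ≠ ∞) (heq : μ P = μ Q) :
    ∃ f : X → X, PIso μ μ f P Q := by
  obtain ⟨f, hf⟩ := exists_pIso_Ioo hP hpos hfin
  obtain ⟨g, hg⟩ := exists_pIso_Ioo hQ (heq ▸ hpos) (heq ▸ hfin)
  have hQne : Q.Nonempty := nonempty_of_measure_ne_zero (heq ▸ hpos.ne')
  obtain ⟨g', hg', -, -⟩ := hg.symm hQne
  have hreal : μ.real P = μ.real Q := by rw [measureReal_def, measureReal_def, heq]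
  rw [hreal] at hf
  exact ⟨g' ∘ f, hg'.comp hf⟩

/-- Subsets of prescribed measure. -/
theorem exists_subset_measure_eq [StandardBorelSpace X] {μ : Measure X} [SigmaFinite μ]
    [NullSingletonClass μ] {P : Set X} (hP : MeasurableSet P) {c : ℝ≥0∞} (hc : c ≤ μ P)
    (hctop : c ≠ ∞) :
    ∃ Q ⊆ P, MeasurableSet Q ∧ μ Q = c := by
  rcases eq_or_ne c 0 with rfl | hc0
  · exact ⟨∅, empty_subset _, MeasurableSet.empty, measure_empty⟩
  -- reduce to finite measure
  obtain ⟨P', hP's, hP'm, hP'c, hP'fin⟩ : ∃ P' ⊆ P, MeasurableSet P' ∧ c ≤ μ P' ∧ μ P' ≠ ∞ := by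
    by_cases htop : μ P = ∞
    · obtain ⟨t, hts, htm, h1, h2⟩ := Measure.exists_subset_measure_lt_top hP
        (lt_of_lt_of_eq (lt_top_iff_ne_top.2 hctop) htop.symm)
      exact ⟨t, htm, hts, h1.le, h2.ne⟩
    · exact ⟨P, subset_rfl, hP, hc, htop⟩
  have hpos : 0 < μ P' := lt_of_lt_of_le (pos_iff_ne_zero.2 hc0) hP'c
  obtain ⟨f, hf⟩ := exists_pIso_Ioo hP'm hpos hP'fin
  refine ⟨P' ∩ f ⁻¹' (Iio c.toReal), inter_subset_left.trans hP's,
    hP'm.inter (hf.meas measurableSet_Iio), ?_⟩
  rw [hf.mp _ measurableSet_Iio]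
  have hle : c.toReal ≤ μ.real P' := ENNReal.toReal_mono hP'fin hP'c
  have : Ioo 0 (μ.real P') ∩ Iio c.toReal = Ioo 0 c.toReal := by
    ext t
    simp only [mem_inter_iff, mem_Ioo, mem_Iio]
    constructor
    · rintro ⟨⟨h1, _⟩, h3⟩; exact ⟨h1, h3⟩
    · rintro ⟨h1, h3⟩; exact ⟨⟨h1, by linarith⟩, h3⟩
  rw [this, Real.volume_Ioo, sub_zero, ENNReal.ofReal_toReal hctop]

end Pool.Agent.H42.Erg
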