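import Pool.Agent.H42.ErgIso

/-!
# Markers, Rokhlin towers and spread sets for Borel automorphisms
-/

open MeasureTheory Set Filter Topology Function
open scoped ENNReal

namespace Pool.Agent.H42.Erg

variable {X : Type*} [MeasurableSpace X]

/-- Points of `D` lying on the same orbit are more than `N` steps apart. -/
def Sep {X : Type*} (T : Equiv.Perm X) (N : ℤ) (D : Set X) : Prop :=
  ∀ j : ℤ, 1 ≤ j → j ≤ N → ∀ x ∈ D, (T ^ j) x ∉ D

omit [MeasurableSpace X] in
theorem zpow_apply_add (T : Equiv.Perm X) (a b : ℤ) (x : X) :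
    (T ^ a) ((T ^ b) x) = (T ^ (a + b)) x := by
  rw [zpow_add, Equiv.Perm.mul_apply]

omit [MeasurableSpace X] in
theorem Sep.eq_of {T : Equiv.Perm X} {N : ℤ} {D : Set X} (h : Sep T N D) {x : X} {a b : ℤ}
    (ha : (T ^ a) x ∈ D) (hb : (T ^ b) x ∈ D) (h1 : a - b ≤ N) (h2 : b - a ≤ N) : a = b := by
  by_contra hne
  rcases lt_or_gt_of_ne hne with hlt | hlt
  · have := h (b - a) (by omega) h2 _ ha
    rw [zpow_apply_add] at this
    exact this (by simpa using hb)
  · have := h (a - b) (by omega) h1 _ hb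
    rw [zpow_apply_add] at this
    exact this (by simpa using ha)

omit [MeasurableSpace X] in
theorem Sep.subset {T : Equiv.Perm X} {N : ℤ} {D D' : Set X} (h : Sep T N D) (hs : D' ⊆ D) :
    Sep T N D' := fun j h1 h2 x hx hx' => h j h1 h2 x (hs hx) (hs hx')

omit [MeasurableSpace X] in
theorem Sep.mono {T : Equiv.Perm X} {N N' : ℤ} {D : Set X} (h : Sep T N D) (hs : N' ≤ N) :
    Sep T N' D := fun j h1 h2 x hx hx' => h j h1 (h2.trans hs) x hx hx'

/-- Borel marker lemma. -/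
theorem exists_marker [StandardBorelSpace X] (T : Equiv.Perm X)
    (hT : ∀ n : ℤ, Measurable (T ^ n)) (N : ℕ) :
    ∃ D : Set X, MeasurableSet D ∧ Sep T N D ∧
      ∀ x, (∀ j : ℤ, 1 ≤ j → j ≤ N → (T ^ j) x ≠ x) →
        ∃ j : ℤ, -(N : ℤ) ≤ j ∧ j ≤ N ∧ (T ^ j) x ∈ D := by
  classical
  have hφ : MeasurableEmbedding (embeddingReal X) := measurableEmbedding_embeddingReal X
  set f : X → ℝ := embeddingReal X with hf
  obtain ⟨s, hs⟩ := exists_surjective_nat (ℚ × ℚ)
  let B : ℕ → Set X := fun i => f ⁻¹' (Ioo ((s i).1 : ℝ) ((s i).2 : ℝ))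
  have hBm : ∀ i, MeasurableSet (B i) := fun i => hφ.measurable measurableSet_Ioo
  let C : ℕ → Set X := fun i => {x | x ∈ B i ∧ ∀ j ∈ Finset.Icc (1:ℤ) N, (T ^ j) x ∉ B i}
  have hCm : ∀ i, MeasurableSet (C i) := by
    intro i
    have : C i = B i ∩ ⋂ j ∈ Finset.Icc (1:ℤ) N, (T ^ j) ⁻¹' (B i)ᶜ := by
      ext x; simp [C]
    rw [this]
    exact (hBm i).inter (Finset.measurableSet_biInter _ fun j _ => hT j (hBm i).compl)
  let step : ℕ → Set X → Set X := fun i D =>
    D ∪ {x | x ∈ C i ∧ ∀ j ∈ Finset.Icc (-(N:ℤ)) N, (T ^ j) x ∉ D}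
  let D : ℕ → Set X := fun n => Nat.rec ∅ (fun i D => step i D) n
  have hD0 : D 0 = ∅ := rfl
  have hDs : ∀ i, D (i + 1) = step i (D i) := fun i => rfl
  have hDm : ∀ i, MeasurableSet (D i) := by
    intro i
    induction i with
    | zero => rw [hD0]; exact MeasurableSet.empty
    | succ i ih =>
      rw [hDs]
      apply ih.union
      have : {x | x ∈ C i ∧ ∀ j ∈ Finset.Icc (-(N:ℤ)) N, (T ^ j) x ∉ D i} =
          C i ∩ ⋂ j ∈ Finset.Icc (-(N:ℤ)) N, (T ^ j) ⁻¹' (D i)ᶜ := by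
        ext x; simp
      rw [this]
      exact (hCm i).inter (Finset.measurableSet_biInter _ fun j _ => hT j ih.compl)
  have hDmono : Monotone D := monotone_nat_of_le_succ fun i => by
    rw [hDs]; exact subset_union_left
  have hsep : ∀ i, Sep T N (D i) := by
    intro i
    induction i with
    | zero => intro j _ _ x hx; rw [hD0] at hx; exact absurd hx (notMem_empty x)
    | succ i ih =>
      intro j hj1 hj2 x hx hx'
      rw [hDs] at hx hx'
      rcases hx with hx | ⟨hxC, hxD⟩ <;> rcases hx' with hx' | ⟨hxC', hxD'⟩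
      · exact ih j hj1 hj2 x hx hx'
      · have := hxD' (-j) (Finset.mem_Icc.2 ⟨by omega, by omega⟩)
        rw [zpow_apply_add] at this
        exact this (by simpa using hx)
      · exact hxD j (Finset.mem_Icc.2 ⟨by omega, by omega⟩) hx'
      · exact hxC.2 j (Finset.mem_Icc.2 ⟨hj1, hj2⟩) hxC'.1
  refine ⟨⋃ i, D i, MeasurableSet.iUnion hDm, ?_, ?_⟩
  · intro j hj1 hj2 x hx hx'
    obtain ⟨a, ha⟩ := mem_iUnion.1 hx
    obtain ⟨b, hb⟩ := mem_iUnion.1 hx'
    exact hsep (max a b) j hj1 hj2 x (hDmono (le_max_left a b) ha) (hDmono (le_max_right a b) hb)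
  · intro x hx
    -- find an index `i` with `x ∈ C i`
    obtain ⟨i, hi⟩ : ∃ i, x ∈ C i := by
      let Fs : Finset ℝ := (Finset.Icc (1:ℤ) N).image (fun j => f ((T ^ j) x))
      have hopen : IsOpen ((Fs : Set ℝ)ᶜ) := Fs.finite_toSet.isClosed.isOpen_compl
      have hmem : f x ∈ ((Fs : Set ℝ)ᶜ) := by
        intro hcon
        obtain ⟨j, hj, hjx⟩ := Finset.mem_image.1 (Finset.mem_coe.1 hcon)
        rw [Finset.mem_Icc] at hj
        exact hx j hj.1 hj.2 (hφ.injective hjx)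
      obtain ⟨v, hv, hxv, hvs⟩ :=
        Real.isTopologicalBasis_Ioo_rat.exists_subset_of_mem_open hmem hopen
      simp only [mem_iUnion, mem_singleton_iff, exists_prop] at hv
      obtain ⟨a, b, _, rfl⟩ := hv
      obtain ⟨i, hi⟩ := hs (a, b)
      refine ⟨i, ?_, ?_⟩
      · simpa [B, hi] using hxv
      · intro j hj hcon
        have h1 : f ((T ^ j) x) ∈ Ioo (a : ℝ) (b : ℝ) := by simpa [B, hi] using hcon
        exact hvs h1 (Finset.mem_coe.2 (Finset.mem_image.2 ⟨j, hj, rfl⟩))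
    rcases Classical.em (∀ j : ℤ, j ∈ Finset.Icc (-(N:ℤ)) (N:ℤ) → (T ^ j) x ∉ D i) with h | h
    · refine ⟨0, by omega, by omega, mem_iUnion.2 ⟨i + 1, ?_⟩⟩
      rw [hDs]
      exact Or.inr ⟨by simpa using hi, by simpa using h⟩
    · push Not at h
      obtain ⟨j, hj, hjD⟩ := h
      rw [Finset.mem_Icc] at hj
      exact ⟨j, hj.1, hj.2, mem_iUnion.2 ⟨i, hjD⟩⟩


/-- Rokhlin lemma: a tower of height `L` covering the set `A` of finite measure up to `δ`. -/
theorem exists_tower [StandardBorelSpace X] {μ : Measure X} (T : Equiv.Perm X)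
    (hT : ∀ n : ℤ, MeasurePreserving (T ^ n) μ μ)
    (haper : ∀ j : ℤ, 1 ≤ j → μ {x | (T ^ j) x = x} = 0) {A : Set X} (hA : MeasurableSet A)
    (hAfin : μ A ≠ ∞) (L : ℕ) (hL : 1 ≤ L) {δ : ℝ≥0∞} (hδ : δ ≠ 0) :
    ∃ E, MeasurableSet E ∧ Sep T ((L : ℤ) - 1) E ∧
      μ {x | x ∈ A ∧ ∀ j : ℤ, 0 ≤ j → j < L → (T ^ (-j)) x ∉ E} ≤ δ := by
  classical
  have hTm : ∀ n : ℤ, Measurable (T ^ n) := fun n => (hT n).measurable
  -- choose the number of shifts
  obtain ⟨q, hq1, hq⟩ : ∃ q : ℕ, 1 ≤ q ∧ μ A ≤ q * δ := by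
    rcases eq_or_ne δ ∞ with rfl | hδt
    · exact ⟨1, le_rfl, by simp⟩
    · obtain ⟨q, hq⟩ := ENNReal.exists_nat_gt (ENNReal.div_ne_top hAfin hδ)
      refine ⟨q + 1, by omega, ?_⟩
      have h1 : μ A = μ A / δ * δ := (ENNReal.div_mul_cancel hδ hδt).symm
      rw [h1]
      gcongr
      exact hq.le.trans (by exact_mod_cast Nat.le_succ q)
  obtain ⟨D, hDm, hDsep, hDcov⟩ := exists_marker T hTm (q * L)
  -- the bad sets for the shifts
  let W : ℕ → Set X := fun t => {x | x ∈ A ∧ ∃ i ∈ Finset.Ico (1:ℤ) L, (T ^ (i - t * L)) x ∈ D}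
  have hWm : ∀ t, MeasurableSet (W t) := by
    intro t
    have : W t = A ∩ ⋃ i ∈ Finset.Ico (1:ℤ) L, (T ^ (i - t * L)) ⁻¹' D := by
      ext x; simp [W]
    rw [this]
    exact hA.inter (Finset.measurableSet_biUnion _ fun j _ => hTm _ hDm)
  have hWdisj : ((Finset.range q : Finset ℕ) : Set ℕ).PairwiseDisjoint W := by
    intro t ht t' ht' hne
    rw [Function.onFun, Set.disjoint_left]
    rintro x ⟨_, i, hi, hxi⟩ ⟨_, i', hi', hxi'⟩
    rw [Finset.mem_Ico] at hi hi'
    rw [Finset.coe_range, mem_Iio] at ht ht'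
    have hq' : ((q * L : ℕ) : ℤ) = (q : ℤ) * L := by push_cast; ring
    have htL : ((t:ℤ) + 1) * L ≤ q * L := by
      have : (t:ℤ) + 1 ≤ q := by exact_mod_cast ht
      exact mul_le_mul_of_nonneg_right this (by omega)
    have htL' : ((t':ℤ) + 1) * L ≤ q * L := by
      have : (t':ℤ) + 1 ≤ q := by exact_mod_cast ht'
      exact mul_le_mul_of_nonneg_right this (by omega)
    have ht0 : (0:ℤ) ≤ t * L := by positivity
    have ht0' : (0:ℤ) ≤ t' * L := by positivity
    have heq := hDsep.eq_of hxi hxi' (by rw [hq']; nlinarith) (by rw [hq']; nlinarith)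
    -- `i - i' = (t - t') L`
    have h1 : i - i' = ((t:ℤ) - t') * L := by linarith
    rcases lt_or_gt_of_ne hne with h | h
    · have : (t:ℤ) - t' ≤ -1 := by have : (t:ℤ) < t' := by exact_mod_cast h
                                   omega
      have h2 : ((t:ℤ) - t') * L ≤ -1 * L := mul_le_mul_of_nonneg_right this (by omega)
      omega
    · have : 1 ≤ (t:ℤ) - t' := by have : (t':ℤ) < t := by exact_mod_cast h
                                  omega
      have h2 : 1 * (L:ℤ) ≤ ((t:ℤ) - t') * L := mul_le_mul_of_nonneg_right this (by omega)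
      omega
  obtain ⟨t, htq, ht⟩ : ∃ t ∈ Finset.range q, μ (W t) ≤ δ := by
    by_contra hcon
    push Not at hcon
    have h1 : ∑ t ∈ Finset.range q, μ (W t) ≤ μ A := by
      rw [← measure_biUnion_finset hWdisj fun t _ => hWm t]
      apply measure_mono
      intro x hx
      simp only [mem_iUnion] at hx
      obtain ⟨t, _, hx⟩ := hx
      exact hx.1
    have h2 : ∑ t ∈ Finset.range q, δ < ∑ t ∈ Finset.range q, μ (W t) := by
      have hne : (Finset.range q).Nonempty := Finset.nonempty_range_iff.2 (by omega)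
      refine ENNReal.sum_lt_sum_of_nonempty hne ?_
      intro t ht; exact hcon t ht
    rw [Finset.sum_const, Finset.card_range, nsmul_eq_mul] at h2
    exact absurd (h2.trans_le h1) (not_lt.2 hq)
  set s : ℤ := t * L with hs
  -- shifted marker set
  set D' : Set X := (T ^ (-s)) ⁻¹' D with hD'
  have hD'm : MeasurableSet D' := hTm _ hDm
  have hmemD' : ∀ x, x ∈ D' ↔ (T ^ (-s)) x ∈ D := fun x => Iff.rfl
  have hD'sep : Sep T ((q * L : ℕ) : ℤ) D' := by
    intro j hj1 hj2 x hx hx'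
    rw [hmemD'] at hx hx'
    rw [zpow_apply_add] at hx'
    have := hDsep j hj1 hj2 _ hx
    rw [zpow_apply_add] at this
    exact this (by rwa [add_comm])
  have hD'cov : ∀ x, (∀ j : ℤ, 1 ≤ j → j ≤ (q * L : ℕ) → (T ^ j) x ≠ x) →
        ∃ j : ℤ, -((q * L : ℕ) : ℤ) ≤ j ∧ j ≤ (q * L : ℕ) ∧ (T ^ j) x ∈ D' := by
    intro x hx
    obtain ⟨j, h1, h2, h3⟩ := hDcov ((T ^ (-s)) x) (by
      intro j hj1 hj2 hcon
      apply hx j hj1 hj2
      rw [zpow_apply_add, add_comm, ← zpow_apply_add] at hcon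
      exact (T ^ (-s)).injective hcon)
    refine ⟨j, h1, h2, ?_⟩
    rw [hmemD']
    rw [zpow_apply_add] at h3 ⊢
    rwa [add_comm]
  -- the base
  let K : ℕ := 2 * (q * L) + 1
  let E : Set X := {x | ∃ k ∈ Finset.range K, (T ^ (-((k:ℤ) * L))) x ∈ D' ∧
    ∀ i ∈ Finset.Ico (1:ℤ) ((k + 1) * L), (T ^ (i - (k:ℤ) * L)) x ∉ D'}
  have hEm : MeasurableSet E := by
    have : E = ⋃ k ∈ Finset.range K, ((T ^ (-((k:ℤ) * L))) ⁻¹' D' ∩
        ⋂ i ∈ Finset.Ico (1:ℤ) ((k + 1) * L), (T ^ (i - (k:ℤ) * L)) ⁻¹' D'ᶜ) := by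
      ext x
      simp only [E, mem_ofPred_eq, mem_iUnion, mem_inter_iff, mem_preimage, mem_iInter,
        mem_compl_iff, exists_prop]
    rw [this]
    exact Finset.measurableSet_biUnion _ fun k _ => (hTm _ hD'm).inter
      (Finset.measurableSet_biInter _ fun j _ => hTm _ hD'm.compl)
  have hEsep : Sep T ((L:ℤ) - 1) E := by
    intro j hj1 hj2 x hx hx'
    obtain ⟨k, hk, hkD, hkall⟩ := hx
    obtain ⟨k', hk', hkD', hkall'⟩ := hx'
    rw [zpow_apply_add] at hkD'
    have hk0 : (0:ℤ) ≤ k * L := by positivity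
    have hk0' : (0:ℤ) ≤ k' * L := by positivity
    have hexp : ((k:ℤ) + 1) * L = k * L + L := by ring
    have hexp' : ((k':ℤ) + 1) * L = k' * L + L := by ring
    -- `d = k L + j - k' L`
    rcases lt_trichotomy ((k:ℤ) * L + j - k' * L) 0 with hd | hd | hd
    · have := hkall' (-((k:ℤ) * L + j - k' * L)) (Finset.mem_Ico.2 ⟨by omega, by omega⟩)
      rw [zpow_apply_add] at this
      apply this
      have he : -((k:ℤ) * L + j - k' * L) - (k':ℤ) * L + j = -((k:ℤ) * L) := by ring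
      rw [he]; exact hkD
    · -- impossible modulo L
      have h1 : j = ((k':ℤ) - k) * L := by linarith
      rcases le_or_gt ((k':ℤ) - k) 0 with h2 | h2
      · have : ((k':ℤ) - k) * L ≤ 0 := mul_nonpos_of_nonpos_of_nonneg h2 (by omega)
        omega
      · have : 1 * (L:ℤ) ≤ ((k':ℤ) - k) * L := mul_le_mul_of_nonneg_right (by omega) (by omega)
        omega
    · have := hkall ((k:ℤ) * L + j - k' * L) (Finset.mem_Ico.2 ⟨by omega, by omega⟩)
      apply this
      have he : (k:ℤ) * L + j - k' * L - (k:ℤ) * L = -((k':ℤ) * L) + j := by ring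
      rw [he]; exact hkD'
  refine ⟨E, hEm, hEsep, ?_⟩
  -- exceptional set
  have hnull : μ (⋃ j ∈ Finset.Icc (1:ℤ) (q * L : ℕ), {x | (T ^ j) x = x}) = 0 := by
    refine (measure_biUnion_null_iff
      (Finset.countable_toSet (Finset.Icc (1:ℤ) (q * L : ℕ)))).2 ?_
    intro j hj
    exact haper j (Finset.mem_Icc.1 hj).1
  refine le_trans (measure_mono ?_) ((measure_union_le (W t)
    (⋃ j ∈ Finset.Icc (1:ℤ) (q * L : ℕ), {x | (T ^ j) x = x})).trans (by rw [hnull, add_zero]; exact ht))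
  rintro x ⟨hxA, hxE⟩
  by_contra hcon
  rw [mem_union, not_or] at hcon
  obtain ⟨hxW, hxP⟩ := hcon
  simp only [mem_iUnion, not_exists, Finset.mem_Icc] at hxP
  have hap : ∀ j : ℤ, 1 ≤ j → j ≤ (q * L : ℕ) → (T ^ j) x ≠ x := fun j h1 h2 h3 =>
    hxP j ⟨h1, h2⟩ h3
  -- no marker in the next L - 1 steps
  have hfwd : ∀ i : ℤ, 1 ≤ i → i < L → (T ^ i) x ∉ D' := by
    intro i h1 h2 h3
    apply hxW
    refine ⟨hxA, i, Finset.mem_Ico.2 ⟨h1, h2⟩, ?_⟩
    rw [hmemD', zpow_apply_add] at h3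
    have he : i - (t:ℤ) * L = -s + i := by rw [hs]; ring
    rw [he]; exact h3
  -- last marker in the past
  have hex : ∃ b : ℕ, (T ^ (-(b:ℤ))) x ∈ D' := by
    obtain ⟨j, h1, h2, h3⟩ := hD'cov ((T ^ (-((q * L : ℕ) : ℤ))) x) (by
      intro j hj1 hj2 hcon'
      apply hap j hj1 hj2
      rw [zpow_apply_add, add_comm, ← zpow_apply_add] at hcon'
      exact (T ^ (-((q * L : ℕ) : ℤ))).injective hcon')
    rw [zpow_apply_add] at h3
    refine ⟨(((q * L : ℕ) : ℤ) - j).toNat, ?_⟩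
    have he : -((((q * L : ℕ) : ℤ) - j).toNat : ℤ) = j + -((q * L : ℕ) : ℤ) := by
      rw [Int.toNat_of_nonneg (by omega)]; ring
    rw [he]; exact h3
  have hex2 : ∃ b : ℕ, b ≤ 2 * (q * L) ∧ (T ^ (-(b:ℤ))) x ∈ D' := by
    obtain ⟨j, h1, h2, h3⟩ := hD'cov ((T ^ (-((q * L : ℕ) : ℤ))) x) (by
      intro j hj1 hj2 hcon'
      apply hap j hj1 hj2
      rw [zpow_apply_add, add_comm, ← zpow_apply_add] at hcon'
      exact (T ^ (-((q * L : ℕ) : ℤ))).injective hcon')
    rw [zpow_apply_add] at h3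
    refine ⟨(((q * L : ℕ) : ℤ) - j).toNat, by omega, ?_⟩
    have he : -((((q * L : ℕ) : ℤ) - j).toNat : ℤ) = j + -((q * L : ℕ) : ℤ) := by
      rw [Int.toNat_of_nonneg (by omega)]; ring
    rw [he]; exact h3
  set b := Nat.find hex with hb
  have hbD : (T ^ (-(b:ℤ))) x ∈ D' := Nat.find_spec hex
  have hbmin : ∀ b' : ℕ, b' < b → (T ^ (-(b':ℤ))) x ∉ D' := fun b' h => Nat.find_min hex h
  have hble : b ≤ 2 * (q * L) := by
    obtain ⟨b', h1, h2⟩ := hex2
    exact (Nat.find_min' hex h2).trans h1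
  -- all iterates between
  have hall : ∀ i : ℤ, 1 ≤ i → i < b + L → (T ^ (i - b)) x ∉ D' := by
    intro i h1 h2
    rcases le_or_gt i b with h | h
    · have := hbmin (b - i.toNat) (by omega)
      have he : -((b - i.toNat : ℕ) : ℤ) = i - b := by omega
      rwa [he] at this
    · exact hfwd (i - b) (by omega) (by omega)
  have hdm : L * (b / L) + b % L = b := Nat.div_add_mod b L
  have hmod : b % L < L := Nat.mod_lt _ (by omega)
  apply hxE ((b % L : ℕ) : ℤ) (by positivity) (by exact_mod_cast hmod)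
  have hdm' : ((b / L : ℕ) : ℤ) * L + ((b % L : ℕ) : ℤ) = b := by
    rw [mul_comm]; exact_mod_cast hdm
  refine ⟨b / L, ?_, ?_, ?_⟩
  · rw [Finset.mem_range]
    exact lt_of_le_of_lt (Nat.div_le_self _ _) (by omega)
  · rw [zpow_apply_add]
    have he : -(((b / L : ℕ) : ℤ) * L) + -((b % L : ℕ) : ℤ) = -(b:ℤ) := by linarith
    rw [he]; exact hbD
  · intro i hi
    rw [Finset.mem_Ico] at hi
    rw [zpow_apply_add]
    have he : i - ((b / L : ℕ) : ℤ) * L + -((b % L : ℕ) : ℤ) = i - b := by linarith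
    rw [he]
    apply hall i hi.1
    have h0 : (0:ℤ) ≤ ((b % L : ℕ) : ℤ) := by positivity
    have h1 : (((b / L : ℕ) : ℤ) + 1) * L = ((b / L : ℕ) : ℤ) * L + L := by ring
    linarith [hi.2]


/-- In infinite measure there are separated sets of infinite measure. -/
theorem exists_sep_top [StandardBorelSpace X] {μ : Measure X}
    (hμ : μ univ = ∞) (T : Equiv.Perm X)
    (hT : ∀ n : ℤ, MeasurePreserving (T ^ n) μ μ)
    (haper : ∀ j : ℤ, 1 ≤ j → μ {x | (T ^ j) x = x} = 0) (N : ℕ) :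
    ∃ D, MeasurableSet D ∧ Sep T N D ∧ μ D = ∞ := by
  classical
  obtain ⟨D₀, hm, hsep, hcov⟩ := exists_marker T (fun n => (hT n).measurable) N
  refine ⟨D₀, hm, hsep, ?_⟩
  by_contra hfin
  have h1 : (univ : Set X) ⊆ (⋃ j ∈ Finset.Icc (-(N:ℤ)) N, (T ^ j) ⁻¹' D₀) ∪
      ⋃ j ∈ Finset.Icc (1:ℤ) N, {x | (T ^ j) x = x} := by
    intro x _
    by_contra hcon
    rw [mem_union, not_or] at hcon
    obtain ⟨ha, hb⟩ := hcon
    simp only [mem_iUnion, not_exists, Finset.mem_Icc] at ha hb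
    obtain ⟨j, hj1, hj2, hj3⟩ := hcov x (fun j h1 h2 h3 => hb j ⟨h1, h2⟩ h3)
    exact ha j ⟨hj1, hj2⟩ hj3
  have h2 : μ (⋃ j ∈ Finset.Icc (1:ℤ) N, {x | (T ^ j) x = x}) = 0 := by
    refine (measure_biUnion_null_iff
      (Finset.countable_toSet (Finset.Icc (1:ℤ) N))).2 ?_
    intro j hj
    exact haper j (Finset.mem_Icc.1 hj).1
  have h3 : μ (⋃ j ∈ Finset.Icc (-(N:ℤ)) N, (T ^ j) ⁻¹' D₀) < ∞ := by
    refine lt_of_le_of_lt (measure_biUnion_finset_le _ _) ?_
    refine ENNReal.sum_lt_top.2 ?_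
    intro j _
    rw [(hT j).measure_preimage hm.nullMeasurableSet]
    exact lt_top_iff_ne_top.2 hfin
  have h4 : μ univ < ∞ := by
    refine lt_of_le_of_lt ((measure_mono h1).trans (measure_union_le _ _)) ?_
    rw [h2, add_zero]; exact h3
  exact h4.ne hμ

/-- In infinite measure there are separated sets of any prescribed finite measure. -/
theorem exists_sep_measure [StandardBorelSpace X] {μ : Measure X} [SigmaFinite μ]
    [NullSingletonClass μ] (hμ : μ univ = ∞) (T : Equiv.Perm X)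
    (hT : ∀ n : ℤ, MeasurePreserving (T ^ n) μ μ)
    (haper : ∀ j : ℤ, 1 ≤ j → μ {x | (T ^ j) x = x} = 0) (N : ℕ) {c : ℝ≥0∞} (hc : c ≠ ∞) :
    ∃ D, MeasurableSet D ∧ Sep T N D ∧ μ D = c := by
  obtain ⟨D₀, hm, hsep, htop⟩ := exists_sep_top hμ T hT haper N
  obtain ⟨D, hDs, hDm, hDc⟩ := exists_subset_measure_eq hm (c := c) (by rw [htop]; exact le_top) hc
  exact ⟨D, hDm, hsep.subset hDs, hDc⟩

/-- Two-sided zero-type (mixing) condition in terms of preimages. -/
def ZeroType (μ : Measure X) (T : Equiv.Perm X) : Prop :=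
  ∀ A B, MeasurableSet A → MeasurableSet B → μ A ≠ ∞ → μ B ≠ ∞ → ∀ ε : ℝ≥0∞, ε ≠ 0 →
    ∃ N : ℕ, ∀ n : ℤ, (N : ℤ) ≤ |n| → μ (A ∩ (T ^ n) ⁻¹' B) ≤ ε

theorem ZeroType.aperiodic [StandardBorelSpace X] {μ : Measure X} [SigmaFinite μ]
    {T : Equiv.Perm X} (hT : ∀ n : ℤ, MeasurePreserving (T ^ n) μ μ) (h : ZeroType μ T) :
    ∀ j : ℤ, 1 ≤ j → μ {x | (T ^ j) x = x} = 0 := by
  intro j hj
  have hm : MeasurableSet {x | (T ^ j) x = x} :=
    measurableSet_eq_fun (hT j).measurable measurable_id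
  by_contra hne
  obtain ⟨B, hBm, hBs, hB0, hBt⟩ := Measure.exists_subset_measure_lt_top hm
    (pos_iff_ne_zero.2 hne)
  obtain ⟨N, hN⟩ := h B B hBm hBm hBt.ne hBt.ne (μ B / 2) (by
    simpa using hB0.ne')
  have hfix : ∀ k : ℕ, ∀ x ∈ B, (T ^ (j * k)) x = x := by
    intro k x hx
    induction k with
    | zero => simp
    | succ k ih =>
      have : j * ((k + 1 : ℕ) : ℤ) = j + j * k := by push_cast; ring
      rw [this, ← zpow_apply_add, ih]
      exact hBs hx
  have h1 := hN (j * N) (by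
    rw [abs_of_nonneg (by positivity)]
    nlinarith)
  have h2 : B ∩ (T ^ (j * N)) ⁻¹' B = B := by
    apply inter_eq_left.2
    intro x hx
    change (T ^ (j * (N:ℤ))) x ∈ B
    rw [hfix N x hx]; exact hx
  rw [h2] at h1
  have h3 : μ B / 2 < μ B := ENNReal.half_lt_self hB0.ne' hBt.ne
  exact absurd h1 (not_le.2 h3)

/-- The measure of `(T^a)⁻¹ A ∩ (T^b)⁻¹ B` depends only on `b - a`. -/
theorem measure_inter_shift {μ : Measure X} {T : Equiv.Perm X}
    (hT : ∀ n : ℤ, MeasurePreserving (T ^ n) μ μ) {A B : Set X} (hA : MeasurableSet A)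
    (hB : MeasurableSet B) (a b : ℤ) :
    μ ((T ^ a) ⁻¹' A ∩ (T ^ b) ⁻¹' B) = μ (A ∩ (T ^ (b - a)) ⁻¹' B) := by
  have h1 : (T ^ a) ⁻¹' A ∩ (T ^ b) ⁻¹' B = (T ^ a) ⁻¹' (A ∩ (T ^ (b - a)) ⁻¹' B) := by
    ext x
    simp only [mem_inter_iff, mem_preimage, zpow_apply_add]
    have : b - a + a = b := by ring
    rw [this]
  rw [h1, (hT a).measure_preimage (hA.inter ((hT _).measurable hB)).nullMeasurableSet]

/-- Induction building sets with uniformly small self-correlations. -/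
theorem exists_spread_aux [StandardBorelSpace X] {μ : Measure X} [SigmaFinite μ]
    [NullSingletonClass μ] (hμ : μ univ = ∞) (T : Equiv.Perm X)
    (hT : ∀ n : ℤ, MeasurePreserving (T ^ n) μ μ) (hz : ZeroType μ T) (K : ℕ) {c κ : ℝ≥0∞}
    (hc : c ≠ ∞) (hκ : κ ≠ 0) (hκc : (2 * K + 1 : ℕ) * κ ≤ c) (M : ℕ) :
    ∃ F, MeasurableSet F ∧ μ F ≠ ∞ ∧ M * c ≤ μ F ∧ Sep T K F ∧
      ∀ n : ℤ, 1 ≤ n → μ (F ∩ (T ^ n) ⁻¹' F) ≤ 2 * c + (2 * M + 3 : ℕ) * κ := by
  classical
  have haper := hz.aperiodic hT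
  induction M with
  | zero =>
    refine ⟨∅, MeasurableSet.empty, by simp, by simp, ?_, ?_⟩
    · intro j _ _ x hx
      exact absurd hx (notMem_empty x)
    · intro n _
      simp
  | succ M ih =>
    obtain ⟨F, hFm, hFfin, hFM, hFsep, hFcor⟩ := ih
    obtain ⟨N, hN⟩ := hz F F hFm hFm hFfin hFfin κ hκ
    obtain ⟨D, hDm, hDsep, hDc⟩ := exists_sep_measure hμ T hT haper (max N K) (c := 2 * c)
      (ENNReal.mul_ne_top (by simp) hc)
    have hDfin : μ D ≠ ∞ := by rw [hDc]; exact ENNReal.mul_ne_top (by simp) hc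
    obtain ⟨N₁, hN₁⟩ := hz F D hFm hDm hFfin hDfin κ hκ
    obtain ⟨N₂, hN₂⟩ := hz D F hDm hFm hDfin hFfin κ hκ
    obtain ⟨N₃, hN₃⟩ := hz D D hDm hDm hDfin hDfin κ hκ
    let k : ℤ := N + N₁ + N₂ + N₃ + K + 1
    let D' : Set X := (T ^ (-k)) ⁻¹' D ∩ ⋂ j ∈ Finset.Icc (-(K:ℤ)) K, ((T ^ j) ⁻¹' F)ᶜ
    have hD'm : MeasurableSet D' := ((hT _).measurable hDm).inter
      (Finset.measurableSet_biInter _ fun j _ => ((hT j).measurable hFm).compl)
    have hD's : D' ⊆ (T ^ (-k)) ⁻¹' D := inter_subset_left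
    have hD'F : ∀ x ∈ D', ∀ j : ℤ, -(K:ℤ) ≤ j → j ≤ K → (T ^ j) x ∉ F := by
      intro x hx j h1 h2 h3
      have := mem_iInter₂.1 hx.2 j (Finset.mem_Icc.2 ⟨h1, h2⟩)
      exact this h3
    have hDsepN : Sep T N D := hDsep.mono (by exact_mod_cast le_max_left N K)
    have hDsepK : Sep T K D := hDsep.mono (by exact_mod_cast le_max_right N K)
    -- measure of `D'`
    have hD'meas : c ≤ μ D' := by
      have h1 : μ ((T ^ (-k)) ⁻¹' D) = 2 * c := by
        rw [(hT _).measure_preimage hDm.nullMeasurableSet, hDc]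
      have h2 : (T ^ (-k)) ⁻¹' D ⊆ D' ∪ ⋃ j ∈ Finset.Icc (-(K:ℤ)) K,
          ((T ^ (-k)) ⁻¹' D ∩ (T ^ j) ⁻¹' F) := by
        intro x hx
        by_cases hxD : x ∈ D'
        · exact Or.inl hxD
        · right
          have : x ∉ ⋂ j ∈ Finset.Icc (-(K:ℤ)) K, ((T ^ j) ⁻¹' F)ᶜ := fun h => hxD ⟨hx, h⟩
          simp only [mem_iInter, mem_compl_iff, not_forall, not_not] at this
          obtain ⟨j, hj, hjx⟩ := this
          exact mem_iUnion₂.2 ⟨j, hj, hx, hjx⟩
      have h3 : μ (⋃ j ∈ Finset.Icc (-(K:ℤ)) K, ((T ^ (-k)) ⁻¹' D ∩ (T ^ j) ⁻¹' F)) ≤ c := by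
        refine (measure_biUnion_finset_le _ _).trans ?_
        have h4 : ∀ j ∈ Finset.Icc (-(K:ℤ)) K, μ ((T ^ (-k)) ⁻¹' D ∩ (T ^ j) ⁻¹' F) ≤ κ := by
          intro j hj
          rw [Finset.mem_Icc] at hj
          rw [measure_inter_shift hT hDm hFm]
          apply hN₂
          rw [abs_of_nonneg (by omega)]
          omega
        refine (Finset.sum_le_sum h4).trans ?_
        rw [Finset.sum_const, nsmul_eq_mul, Int.card_Icc]
        have : ((K:ℤ) + 1 - -(K:ℤ)).toNat = 2 * K + 1 := by omega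
        rw [this]; exact hκc
      have h5 : 2 * c ≤ μ D' + c := by
        calc 2 * c = μ ((T ^ (-k)) ⁻¹' D) := h1.symm
          _ ≤ _ := (measure_mono h2).trans (measure_union_le _ _)
          _ ≤ μ D' + c := by gcongr
      rw [two_mul] at h5
      exact (ENNReal.add_le_add_iff_right hc).1 h5
    have hdisj : Disjoint F D' := by
      rw [Set.disjoint_left]
      intro x hxF hxD
      exact hD'F x hxD 0 (by omega) (by omega) (by simpa using hxF)
    refine ⟨F ∪ D', hFm.union hD'm, ?_, ?_, ?_, ?_⟩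
    · refine (lt_of_le_of_lt (measure_union_le _ _) (ENNReal.add_lt_top.2
        ⟨lt_top_iff_ne_top.2 hFfin, lt_of_le_of_lt (measure_mono hD's) ?_⟩)).ne
      rw [(hT _).measure_preimage hDm.nullMeasurableSet]
      exact lt_top_iff_ne_top.2 hDfin
    · rw [measure_union hdisj hD'm]
      push_cast
      rw [add_mul, one_mul]
      gcongr
    · intro j hj1 hj2 x hx hx'
      rcases hx with hx | hx <;> rcases hx' with hx' | hx'
      · exact hFsep j hj1 hj2 x hx hx'
      · have := hD'F _ hx' (-j) (by omega) (by omega)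
        rw [zpow_apply_add] at this
        exact this (by simpa using hx)
      · exact hD'F x hx j (by omega) (by omega) hx'
      · have h1 := hD's hx
        have h2 := hD's hx'
        rw [mem_preimage] at h1 h2
        rw [zpow_apply_add] at h2
        have := hDsepK j hj1 hj2 _ h1
        rw [zpow_apply_add] at this
        exact this (by rwa [add_comm])
    · intro n hn
      -- four terms
      have hsplit : (F ∪ D') ∩ (T ^ n) ⁻¹' (F ∪ D') ⊆
          ((F ∩ (T ^ n) ⁻¹' F) ∪ (F ∩ (T ^ (n - k)) ⁻¹' D)) ∪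
          (((T ^ (-k)) ⁻¹' D ∩ (T ^ n) ⁻¹' F) ∪ ((T ^ (-k)) ⁻¹' D ∩ (T ^ (n - k)) ⁻¹' D)) := by
        rintro x ⟨hx, hx'⟩
        have hkey : (T ^ n) x ∈ D' → (T ^ (n - k)) x ∈ D := by
          intro h
          have := hD's h
          rw [mem_preimage, zpow_apply_add] at this
          have he : n - k = -k + n := by ring
          rw [he]; exact this
        rcases hx with hx | hx <;> rcases hx' with hx' | hx'
        · exact Or.inl (Or.inl ⟨hx, hx'⟩)
        · exact Or.inl (Or.inr ⟨hx, hkey hx'⟩)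
        · exact Or.inr (Or.inl ⟨hD's hx, hx'⟩)
        · exact Or.inr (Or.inr ⟨hD's hx, hkey hx'⟩)
      have hle : μ ((F ∪ D') ∩ (T ^ n) ⁻¹' (F ∪ D')) ≤
          (μ (F ∩ (T ^ n) ⁻¹' F) + μ (F ∩ (T ^ (n - k)) ⁻¹' D)) +
          (μ (D ∩ (T ^ (n + k)) ⁻¹' F) + μ (D ∩ (T ^ n) ⁻¹' D)) := by
        refine (measure_mono hsplit).trans ((measure_union_le _ _).trans ?_)
        refine add_le_add (measure_union_le _ _) ((measure_union_le _ _).trans ?_)
        rw [measure_inter_shift hT hDm hFm, measure_inter_shift hT hDm hDm]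
        have h1 : n - -k = n + k := by ring
        have h2 : n - k - -k = n := by ring
        rw [h1, h2]
      refine hle.trans ?_
      have h3 : μ (D ∩ (T ^ (n + k)) ⁻¹' F) ≤ κ := hN₂ _ (by
        rw [abs_of_nonneg (by omega)]; omega)
      have hDle : ∀ G : Set X, μ (D ∩ G) ≤ 2 * c := fun G => by
        rw [← hDc]; exact measure_mono inter_subset_left
      rcases lt_or_ge n N with hnN | hnN
      · have h1 := hFcor n hn
        have h2 : μ (F ∩ (T ^ (n - k)) ⁻¹' D) ≤ κ := hN₁ _ (by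
          rw [abs_of_nonpos (by omega)]; omega)
        have h4 : μ (D ∩ (T ^ n) ⁻¹' D) = 0 := by
          have : D ∩ (T ^ n) ⁻¹' D = ∅ := by
            ext x
            simp only [mem_inter_iff, mem_preimage, mem_empty_iff_false, iff_false, not_and]
            intro hx
            exact hDsepN n hn (by omega) x hx
          rw [this, measure_empty]
        calc _ ≤ ((2 * c + (2 * M + 3 : ℕ) * κ) + κ) + (κ + 0) := by
              gcongr; exact h4.le
          _ = 2 * c + (2 * (M + 1) + 3 : ℕ) * κ := by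
              push_cast; ring
      · have h1 : μ (F ∩ (T ^ n) ⁻¹' F) ≤ κ := hN n (by
          rw [abs_of_nonneg (by omega)]; exact hnN)
        have h24 : μ (F ∩ (T ^ (n - k)) ⁻¹' D) + μ (D ∩ (T ^ n) ⁻¹' D) ≤ 2 * c + κ := by
          rcases lt_or_ge |n - k| N₁ with hnk | hnk
          · have h4 : μ (D ∩ (T ^ n) ⁻¹' D) ≤ κ := hN₃ _ (by
              rw [abs_of_nonneg (by omega)]
              have := (abs_lt.1 hnk).1
              omega)
            have h2 : μ (F ∩ (T ^ (n - k)) ⁻¹' D) ≤ 2 * c := by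
              calc _ ≤ μ ((T ^ (n - k)) ⁻¹' D) := measure_mono inter_subset_right
                _ = 2 * c := by rw [(hT _).measure_preimage hDm.nullMeasurableSet, hDc]
            gcongr
          · have h2 : μ (F ∩ (T ^ (n - k)) ⁻¹' D) ≤ κ := hN₁ _ hnk
            have h4 : μ (D ∩ (T ^ n) ⁻¹' D) ≤ 2 * c := hDle _
            rw [add_comm]
            gcongr
        calc _ = μ (F ∩ (T ^ n) ⁻¹' F) + (μ (F ∩ (T ^ (n - k)) ⁻¹' D) + μ (D ∩ (T ^ n) ⁻¹' D)) +
              μ (D ∩ (T ^ (n + k)) ⁻¹' F) := by ring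
          _ ≤ κ + (2 * c + κ) + κ := by gcongr
          _ = 2 * c + 3 * κ := by ring
          _ ≤ 2 * c + (2 * (M + 1) + 3 : ℕ) * κ := by
              gcongr
              push_cast
              exact le_add_self


/-- Sets of prescribed finite measure, separated, with uniformly small self-correlations. -/
theorem exists_spread [StandardBorelSpace X] {μ : Measure X} [SigmaFinite μ]
    [NullSingletonClass μ] (hμ : μ univ = ∞) (T : Equiv.Perm X)
    (hT : ∀ n : ℤ, MeasurePreserving (T ^ n) μ μ) (hz : ZeroType μ T) (K : ℕ) {m δ : ℝ≥0∞}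
    (hm : m ≠ ∞) (hδ : δ ≠ 0) :
    ∃ E, MeasurableSet E ∧ μ E = m ∧ Sep T K E ∧
      ∀ n : ℤ, n ≠ 0 → μ (E ∩ (T ^ n) ⁻¹' E) ≤ δ := by
  set c : ℝ≥0∞ := min (δ / 2 / 2) 1 with hc
  have hc0 : c ≠ 0 := by
    rw [hc]
    refine (lt_min ?_ one_pos).ne'
    exact ENNReal.div_pos (ENNReal.div_pos hδ (by simp)).ne' (by simp)
  have hct : c ≠ ∞ := ne_top_of_le_ne_top ENNReal.one_ne_top (min_le_right _ _)
  obtain ⟨M, hM⟩ : ∃ M : ℕ, m ≤ M * c := by
    obtain ⟨M, hM⟩ := ENNReal.exists_nat_gt (ENNReal.div_ne_top hm hc0)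
    refine ⟨M, ?_⟩
    rw [← ENNReal.div_le_iff hc0 hct]
    exact hM.le
  set κ : ℝ≥0∞ := min (c / (2 * K + 1 : ℕ)) (δ / 2 / (2 * M + 3 : ℕ)) with hκ
  have hκ0 : κ ≠ 0 := by
    rw [hκ]
    refine (lt_min ?_ ?_).ne'
    · exact ENNReal.div_pos hc0 (ENNReal.natCast_ne_top _)
    · exact ENNReal.div_pos (ENNReal.div_pos hδ (by simp)).ne' (ENNReal.natCast_ne_top _)
  have hκ1 : (2 * K + 1 : ℕ) * κ ≤ c := by
    calc ((2 * K + 1 : ℕ) : ℝ≥0∞) * κ ≤ (2 * K + 1 : ℕ) * (c / (2 * K + 1 : ℕ)) := by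
          gcongr; exact min_le_left _ _
      _ = c := ENNReal.mul_div_cancel (by positivity) (ENNReal.natCast_ne_top _)
  have hκ2 : (2 * M + 3 : ℕ) * κ ≤ δ / 2 := by
    calc ((2 * M + 3 : ℕ) : ℝ≥0∞) * κ ≤ (2 * M + 3 : ℕ) * (δ / 2 / (2 * M + 3 : ℕ)) := by
          gcongr; exact min_le_right _ _
      _ = δ / 2 := ENNReal.mul_div_cancel (by positivity) (ENNReal.natCast_ne_top _)
  have hc2 : 2 * c ≤ δ / 2 := by
    calc 2 * c ≤ 2 * (δ / 2 / 2) := by gcongr; exact min_le_left _ _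
      _ = δ / 2 := ENNReal.mul_div_cancel (by simp) (by simp)
  obtain ⟨F, hFm, hFfin, hFM, hFsep, hFcor⟩ := exists_spread_aux hμ T hT hz K hct hκ0 hκ1 M
  obtain ⟨E, hEs, hEm, hEc⟩ := exists_subset_measure_eq hFm (hM.trans hFM) hm
  have hpos : ∀ n : ℤ, 1 ≤ n → μ (E ∩ (T ^ n) ⁻¹' E) ≤ δ := by
    intro n hn
    calc μ (E ∩ (T ^ n) ⁻¹' E) ≤ μ (F ∩ (T ^ n) ⁻¹' F) :=
          measure_mono (inter_subset_inter hEs (preimage_mono hEs))
      _ ≤ 2 * c + (2 * M + 3 : ℕ) * κ := hFcor n hn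
      _ ≤ δ / 2 + δ / 2 := add_le_add hc2 hκ2
      _ = δ := ENNReal.add_halves δ
  refine ⟨E, hEm, hEc, hFsep.subset hEs, ?_⟩
  intro n hn
  rcases lt_or_gt_of_ne hn with h | h
  · have h1 := hpos (-n) (by omega)
    have h2 := measure_inter_shift hT hEm hEm n 0
    have h3 : (0:ℤ) - n = -n := by ring
    rw [h3] at h2
    rw [← h2] at h1
    simpa [inter_comm] using h1
  · exact hpos n (by omega)

/-- Iterates of an automorphism as partial isomorphisms. -/
theorem pIso_zpow {μ : Measure X} {T : Equiv.Perm X}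
    (hT : ∀ n : ℤ, MeasurePreserving (T ^ n) μ μ) {P : Set X} (hP : MeasurableSet P) (n : ℤ) :
    PIso μ μ (⇑(T ^ n)) P ((T ^ (-n)) ⁻¹' P) where
  meas := (hT n).measurable
  mP := hP
  mQ := (hT _).measurable hP
  bij := by
    refine ⟨?_, (T ^ n).injective.injOn, ?_⟩
    · intro x hx
      rw [mem_preimage, zpow_apply_add]
      simpa using hx
    · intro y hy
      refine ⟨(T ^ (-n)) y, hy, ?_⟩
      rw [zpow_apply_add]; simp
  mp B hB := by
    have h := measure_inter_shift hT hP hB (-n) 0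
    have h1 : (0:ℤ) - -n = n := by ring
    rw [h1] at h
    rw [← h]
    simp

/-- Gluing countably many partial isomorphisms. -/
theorem exists_glue {ι : Type*} [Countable ι] {μ : Measure X} {f : ι → X → X}
    {P Q : ι → Set X} (h : ∀ i, PIso μ μ (f i) (P i) (Q i)) (hP : Pairwise (Disjoint on P))
    (hQ : Pairwise (Disjoint on Q)) :
    ∃ g : X → X, PIso μ μ g (⋃ i, P i) (⋃ i, Q i) ∧ ∀ i, ∀ x ∈ P i, g x = f i x := by
  classical
  let g : X → X := fun x => if hx : ∃ i, x ∈ P i then f (Classical.choose hx) x else x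
  have hg : ∀ i, ∀ x ∈ P i, g x = f i x := by
    intro i x hx
    have hex : ∃ i, x ∈ P i := ⟨i, hx⟩
    have h1 : g x = f (Classical.choose hex) x := dif_pos hex
    have h2 : Classical.choose hex = i := by
      by_contra hne
      exact Set.disjoint_left.1 (hP hne) (Classical.choose_spec hex) hx
    rw [h1, h2]
  have hg' : ∀ x, x ∉ ⋃ i, P i → g x = x := by
    intro x hx
    exact dif_neg (fun ⟨i, hi⟩ => hx (mem_iUnion.2 ⟨i, hi⟩))
  have hPm : MeasurableSet (⋃ i, P i) := MeasurableSet.iUnion fun i => (h i).mP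
  have hQm : MeasurableSet (⋃ i, Q i) := MeasurableSet.iUnion fun i => (h i).mQ
  have hpre : ∀ B : Set X, (⋃ i, P i) ∩ g ⁻¹' B = ⋃ i, (P i ∩ (f i) ⁻¹' B) := by
    intro B
    ext x
    simp only [mem_inter_iff, mem_iUnion, mem_preimage]
    constructor
    · rintro ⟨⟨i, hi⟩, hB⟩
      exact ⟨i, hi, by rwa [hg i x hi] at hB⟩
    · rintro ⟨i, hi, hB⟩
      exact ⟨⟨i, hi⟩, by rwa [hg i x hi]⟩
  have hgm : Measurable g := by
    intro B hB
    have : g ⁻¹' B = ((⋃ i, P i) ∩ g ⁻¹' B) ∪ ((⋃ i, P i)ᶜ ∩ B) := by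
      ext x
      by_cases hx : x ∈ ⋃ i, P i
      · simp only [mem_preimage, mem_union, mem_inter_iff, mem_compl_iff, hx]; tauto
      · simp only [mem_preimage, mem_union, mem_inter_iff, mem_compl_iff, hx, hg' x hx]; tauto
    rw [this, hpre]
    exact (MeasurableSet.iUnion fun i => (h i).mP.inter ((h i).meas hB)).union
      (hPm.compl.inter hB)
  refine ⟨g, ⟨hgm, hPm, hQm, ⟨?_, ?_, ?_⟩, ?_⟩, hg⟩
  · intro x hx
    obtain ⟨i, hi⟩ := mem_iUnion.1 hx
    rw [hg i x hi]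
    exact mem_iUnion.2 ⟨i, (h i).bij.mapsTo hi⟩
  · intro x hx y hy hxy
    obtain ⟨i, hi⟩ := mem_iUnion.1 hx
    obtain ⟨j, hj⟩ := mem_iUnion.1 hy
    rw [hg i x hi, hg j y hj] at hxy
    by_cases hij : i = j
    · subst hij
      exact (h i).bij.injOn hi hj hxy
    · exact absurd ((h j).bij.mapsTo hj)
        (hxy ▸ Set.disjoint_left.1 (hQ hij) ((h i).bij.mapsTo hi))
  · intro y hy
    obtain ⟨i, hi⟩ := mem_iUnion.1 hy
    obtain ⟨x, hx, rfl⟩ := (h i).bij.surjOn hi
    exact ⟨x, mem_iUnion.2 ⟨i, hx⟩, hg i x hx⟩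
  · intro B hB
    rw [hpre, iUnion_inter, measure_iUnion, measure_iUnion]
    · exact tsum_congr fun i => (h i).mp B hB
    · exact fun i j hij => (hQ hij).mono inter_subset_left inter_subset_left
    · exact fun i => (h i).mQ.inter hB
    · exact fun i j hij => (hP hij).mono inter_subset_left inter_subset_left
    · exact fun i => (h i).mP.inter ((h i).meas hB)

/-- A partial isomorphism of the whole space is an automorphism. -/
theorem exists_perm_of_pIso [StandardBorelSpace X] {μ : Measure X} {g : X → X}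
    (hg : PIso μ μ g univ univ) :
    ∃ R : Equiv.Perm X, MeasurePreserving R μ μ ∧ MeasurePreserving R.symm μ μ ∧ ∀ x, R x = g x := by
  have hbij : Bijective g := bijOn_univ.1 hg.bij
  let R : Equiv.Perm X := Equiv.ofBijective g hbij
  have hRg : ∀ x, R x = g x := fun x => rfl
  have hRmeas : Measurable R := hg.meas
  have hRm : MeasurePreserving R μ μ := by
    refine ⟨hRmeas, ?_⟩
    ext B hB
    rw [Measure.map_apply hRmeas hB]
    have h1 := hg.mp B hB
    rw [univ_inter, univ_inter] at h1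
    exact h1
  have hme : MeasurableEmbedding R := hg.meas.measurableEmbedding hbij.injective
  have hsm : Measurable R.symm := by
    intro B hB
    have : R.symm ⁻¹' B = R '' B := by
      rw [Equiv.image_eq_preimage_symm]
    rw [this]
    exact hme.measurableSet_image.2 hB
  refine ⟨R, hRm, ⟨hsm, ?_⟩, hRg⟩
  ext B hB
  rw [Measure.map_apply hsm hB, ← hRm.measure_preimage (hsm hB).nullMeasurableSet]
  congr 1
  ext x; simp

/-- Extending a partial isomorphism between sets of finite measure to an automorphism. -/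
theorem exists_extension [StandardBorelSpace X] {μ : Measure X} [SigmaFinite μ]
    [NullSingletonClass μ] (hμ : μ univ = ∞) {f : X → X} {P Q : Set X} (h : PIso μ μ f P Q)
    (hfin : μ P ≠ ∞) :
    ∃ R : Equiv.Perm X, MeasurePreserving R μ μ ∧ MeasurePreserving R.symm μ μ ∧
      ∀ x ∈ P, R x = f x := by
  classical
  have hPQ : μ P = μ Q := h.measure_eq
  have hPm := h.mP
  have hQm := h.mQ
  have htop : μ (P ∪ Q)ᶜ = ∞ := by
    by_contra hne
    have h1 : μ univ ≤ μ P + μ Q + μ (P ∪ Q)ᶜ := by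
      calc μ univ = μ ((P ∪ Q) ∪ (P ∪ Q)ᶜ) := by rw [union_compl_self]
        _ ≤ μ (P ∪ Q) + μ (P ∪ Q)ᶜ := measure_union_le _ _
        _ ≤ μ P + μ Q + μ (P ∪ Q)ᶜ := by gcongr; exact measure_union_le _ _
    rw [hμ, ← hPQ] at h1
    have h2 : μ P + μ P + μ (P ∪ Q)ᶜ < ∞ :=
      ENNReal.add_lt_top.2 ⟨ENNReal.add_lt_top.2 ⟨lt_top_iff_ne_top.2 hfin,
        lt_top_iff_ne_top.2 hfin⟩, lt_top_iff_ne_top.2 hne⟩
    exact absurd h1 (not_le.2 h2)
  obtain ⟨V, hVs, hVm, hV1⟩ := exists_subset_measure_eq (hPm.union hQm).compl (c := 1)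
    (by rw [htop]; exact le_top) ENNReal.one_ne_top
  have hVP : Disjoint P V := Set.disjoint_left.2 fun x hx hxV => hVs hxV (Or.inl hx)
  have hVQ : Disjoint Q V := Set.disjoint_left.2 fun x hx hxV => hVs hxV (Or.inr hx)
  let P2 := (Q \ P) ∪ V
  let Q2 := (P \ Q) ∪ V
  have hP2m : MeasurableSet P2 := (hQm.diff hPm).union hVm
  have hQ2m : MeasurableSet Q2 := (hPm.diff hQm).union hVm
  have hP2 : μ P2 = μ (Q \ P) + 1 := by
    rw [measure_union (hVQ.mono_left sdiff_subset) hVm, hV1]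
  have hQ2 : μ Q2 = μ (P \ Q) + 1 := by
    rw [measure_union (hVP.mono_left sdiff_subset) hVm, hV1]
  have hdiff : μ (Q \ P) = μ (P \ Q) := by
    have h1 : μ (Q ∩ P) + μ (Q \ P) = μ Q := measure_inter_add_sdiff Q hPm
    have h2 : μ (P ∩ Q) + μ (P \ Q) = μ P := measure_inter_add_sdiff P hQm
    have h3 : μ (P ∩ Q) ≠ ∞ := ne_top_of_le_ne_top hfin (measure_mono inter_subset_left)
    rw [inter_comm Q P, ← hPQ, ← h2] at h1
    exact (ENNReal.add_right_inj h3).1 h1
  obtain ⟨f2, hf2⟩ := exists_pIso (μ := μ) hP2m hQ2m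
    (by rw [hP2]; exact lt_of_lt_of_le one_pos le_add_self)
    (by rw [hP2]; exact ENNReal.add_ne_top.2 ⟨ne_top_of_le_ne_top (hPQ ▸ hfin)
      (measure_mono sdiff_subset), ENNReal.one_ne_top⟩)
    (by rw [hP2, hQ2, hdiff])
  let P3 := (P ∪ Q ∪ V)ᶜ
  have hP3m : MeasurableSet P3 := ((hPm.union hQm).union hVm).compl
  have hf3 : PIso μ μ id P3 P3 :=
    ⟨measurable_id, hP3m, hP3m, bijOn_id _, fun B _ => by simp⟩
  let fs : Fin 3 → X → X := ![f, f2, id]
  let Ps : Fin 3 → Set X := ![P, P2, P3]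
  let Qs : Fin 3 → Set X := ![Q, Q2, P3]
  have hall : ∀ i, PIso μ μ (fs i) (Ps i) (Qs i) := by
    intro i
    fin_cases i
    · exact h
    · exact hf2
    · exact hf3
  have hd12 : Disjoint P P2 := by
    rw [Set.disjoint_left]
    rintro x hx (hx2 | hx2)
    · exact hx2.2 hx
    · exact Set.disjoint_left.1 hVP hx hx2
  have hd13 : Disjoint P P3 := by
    rw [Set.disjoint_left]
    intro x hx hx2
    exact hx2 (Or.inl (Or.inl hx))
  have hd23 : Disjoint P2 P3 := by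
    rw [Set.disjoint_left]
    rintro x (hx | hx) hx2
    · exact hx2 (Or.inl (Or.inr hx.1))
    · exact hx2 (Or.inr hx)
  have he12 : Disjoint Q Q2 := by
    rw [Set.disjoint_left]
    rintro x hx (hx2 | hx2)
    · exact hx2.2 hx
    · exact Set.disjoint_left.1 hVQ hx hx2
  have he13 : Disjoint Q P3 := by
    rw [Set.disjoint_left]
    intro x hx hx2
    exact hx2 (Or.inl (Or.inr hx))
  have he23 : Disjoint Q2 P3 := by
    rw [Set.disjoint_left]
    rintro x (hx | hx) hx2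
    · exact hx2 (Or.inl (Or.inl hx.1))
    · exact hx2 (Or.inr hx)
  have hPd : Pairwise (Disjoint on Ps) := by
    intro i j hij
    fin_cases i <;> fin_cases j <;> first | exact absurd rfl hij | skip
    · exact hd12
    · exact hd13
    · exact hd12.symm
    · exact hd23
    · exact hd13.symm
    · exact hd23.symm
  have hQd : Pairwise (Disjoint on Qs) := by
    intro i j hij
    fin_cases i <;> fin_cases j <;> first | exact absurd rfl hij | skip
    · exact he12
    · exact he13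
    · exact he12.symm
    · exact he23
    · exact he13.symm
    · exact he23.symm
  obtain ⟨g, hg, hgf⟩ := exists_glue hall hPd hQd
  have hPu : (⋃ i, Ps i) = univ := by
    apply eq_univ_of_forall
    intro x
    by_cases hxP : x ∈ P
    · exact mem_iUnion.2 ⟨0, hxP⟩
    by_cases hxQ : x ∈ Q
    · exact mem_iUnion.2 ⟨1, Or.inl ⟨hxQ, hxP⟩⟩
    by_cases hxV : x ∈ V
    · exact mem_iUnion.2 ⟨1, Or.inr hxV⟩
    · refine mem_iUnion.2 ⟨2, ?_⟩
      rintro ((hx | hx) | hx)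
      · exact hxP hx
      · exact hxQ hx
      · exact hxV hx
  have hQu : (⋃ i, Qs i) = univ := by
    apply eq_univ_of_forall
    intro x
    by_cases hxQ : x ∈ Q
    · exact mem_iUnion.2 ⟨0, hxQ⟩
    by_cases hxP : x ∈ P
    · exact mem_iUnion.2 ⟨1, Or.inl ⟨hxP, hxQ⟩⟩
    by_cases hxV : x ∈ V
    · exact mem_iUnion.2 ⟨1, Or.inr hxV⟩
    · refine mem_iUnion.2 ⟨2, ?_⟩
      rintro ((hx | hx) | hx)
      · exact hxP hx
      · exact hxQ hx
      · exact hxV hx
  rw [hPu, hQu] at hg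
  obtain ⟨R, hR1, hR2, hR3⟩ := exists_perm_of_pIso hg
  exact ⟨R, hR1, hR2, fun x hx => by rw [hR3, hgf 0 x hx]; rfl⟩

end Pool.Agent.H42.Erg
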